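import Pool.Agent.Y216.Mult
import Pool.Agent.W601.VF.Cov3

/-!
The inequality for curves and hyperplanes which impose independent conditions on the forms of some
degree.
-/

set_option autoImplicit false

open FF MvPolynomial Pool.Agent.W603.LV Pool.Agent.W603.PV Pool.Agent.W602.GT
open Pool.Agent.W602.RG Pool.Agent.W601.VF

namespace Pool.Agent.Y216

variable {k : Type} [Field k] [IsAlgClosed k] [CharZero k] {n q d : ℕ}

/-- points with constant ratios of coordinates have height zero -/
theorem pht_zero_of_const {L : Type} [Field L] [Algebra k L] [IsFF k L] {f : Fin (n + 1) → L}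
    (hf : ∃ j, f j ≠ 0) {D : Derivation k L L} (hD : D ≠ 0)
    (h : ∀ a b, f a * D (f b) - f b * D (f a) = 0) : pht k f = 0 := by
  obtain ⟨l, hl⟩ := hf
  have h1 : ∀ j, ∃ c : k, f j = f l * algebraMap k L c := by
    intro j
    have h2 : D (f j / f l) = 0 := by
      have h3 : f l * (f j / f l) = f j := by field_simp
      have h4 := congrArg D h3
      rw [D.leibniz, smul_eq_mul, smul_eq_mul] at h4
      have h5 := h l j
      have h6 : f l * (f l * D (f j / f l)) = 0 := by
        have h7 : f l * D (f j / f l) = D (f j) - f j / f l * D (f l) := by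
          rw [← h4]; ring
        rw [h7, mul_sub]
        have h8 : f l * (f j / f l * D (f l)) = f j * D (f l) := by field_simp
        rw [h8]
        exact h5
      exact (mul_eq_zero.1 ((mul_eq_zero.1 h6).resolve_left hl)).resolve_left hl
    obtain ⟨c, hc⟩ := const_of_der hD h2
    exact ⟨c, by rw [← hc]; field_simp⟩
  choose c hc using h1
  exact pht_const hl hc

theorem le_of_real {x B : ℕ} {s : ℝ} (hst : 0 < s) {X Y : ℤ} (hX : s * X ≤ x * Y)
    (hB : (x : ℝ) ≤ B * s) (h0 : 0 ≤ Y) : X ≤ B * Y := by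
  have h1 : s * (X : ℝ) ≤ s * (B * Y) := by
    have h2 : (0 : ℝ) ≤ (Y : ℝ) := by exact_mod_cast h0
    nlinarith
  have h2 := le_of_mul_le_mul_left h1 hst
  exact_mod_cast h2

/-- **The inequality for curves.** -/
theorem curveIneq_general (hn : 1 ≤ n) {a : Fin q → Fin (n + 1) → k} (ha : Ind (d + 1) a)
    {m : Fin q → ℕ} (hm : ∀ i, 1 ≤ m i)
    (hsum : 2 * (((n + d).choose (n - 1) : ℕ) : ℝ) < ∑ i, (1 - 1 / (m i : ℝ))) :
    ∃ B : ℕ, CurveIneq a m 1 B := by
  classical
  obtain ⟨R, hRℓ, hRb⟩ := exists_frame hn ha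
  obtain ⟨s, hs⟩ : ∃ s : ℝ, s = ∑ i, (1 - 1 / (m i : ℝ)) - 2 * R.b := ⟨_, rfl⟩
  have hs0 : 0 < s := by
    rw [hs, hRb]
    linarith
  obtain ⟨B, hB⟩ := exists_nat_ge ((R.b : ℝ) / s)
  refine ⟨B, fun L _ _ _ f hf hlf _ hmult => ?_⟩
  have hℓ : ∀ i, R.ℓR i f = lv (a i) f := by
    intro i
    unfold Frame.ℓR lv
    refine Finset.sum_congr rfl fun j _ => ?_
    have h1 : ll (a i) (Pi.single j 1) = a i j := by
      rw [ll_apply, Finset.sum_eq_single j]
      · simp
      · intro b _ hb
        rw [Pi.single_eq_of_ne hb, mul_zero]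
      · simp
    rw [hRℓ, h1, mul_comm]
  obtain ⟨D, hD⟩ := exists_der (k := k) (K := L)
  have hmax : (0 : ℤ) ≤ max (canDeg k L) 0 := le_max_right _ _
  by_cases hconst : ∀ a b, f a * D (f b) - f b * D (f a) = 0
  · rw [pht_zero_of_const hf hD hconst]
    positivity
  · push Not at hconst
    obtain ⟨b, c, hbc⟩ := hconst
    have h1 := R.core_real hD hbc (fun i => by rw [hℓ]; exact hlf i)
      (fun i => 1 - 1 / (m i : ℝ)) (fun i => by
        have : (0 : ℝ) ≤ 1 / (m i : ℝ) := by positivity
        linarith) ∅ (fun P _ => by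
        rw [Finset.card_filter]
        push_cast
        refine Finset.sum_le_sum fun i _ => ?_
        rw [hℓ]
        have hm0 : (0 : ℝ) < m i := by exact_mod_cast hm i
        have hge : pord P f ≤ P.ord (lv (a i) f) :=
          one_le_of_ge (hlf i) (lv_ge (a i) fun l => ge_pord P f l)
        split_ifs with h
        · have h2 := hmult P i h
          have h3 : ((m i : ℕ) : ℝ) ≤ ((P.ord (lv (a i) f) - pord P f : ℤ) : ℝ) := by
            have : ((m i : ℕ) : ℤ) ≤ P.ord (lv (a i) f) - pord P f := by omega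
            exact_mod_cast this
          rw [sub_sub_cancel, one_div, ← div_eq_inv_mul, le_div_iff₀ hm0, one_mul]
          exact_mod_cast h3
        · rw [sub_sub_cancel]
          refine mul_nonneg (by positivity) ?_
          have : (0 : ℤ) ≤ P.ord (lv (a i) f) - pord P f := by omega
          exact_mod_cast this)
    rw [Finset.sum_empty, zero_add, ← hs] at h1
    have h2 : s * (pht k f : ℝ) ≤ (R.b : ℕ) * ((max (canDeg k L) 0 : ℤ) : ℝ) := by
      refine h1.trans (mul_le_mul_of_nonneg_left ?_ (by positivity))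
      exact_mod_cast le_max_left _ _
    exact le_of_real (x := R.b) hs0 h2 (by
      rwa [div_le_iff₀ hs0] at hB) hmax

end Pool.Agent.Y216
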