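import Pool.Agent.Y216.Mult
import Pool.Agent.Y216.Gen

/-!
From local estimates to an inequality for the height.
-/

set_option autoImplicit false

open FF Pool.Agent.W603.LV Pool.Agent.W603.PV

namespace Pool.Agent.Y216

variable {k : Type} [Field k] [IsAlgClosed k] [CharZero k] {L : Type} [Field L] [Algebra k L]
  [IsFF k L] {n q : ℕ}

/-- From local estimates to an inequality for the height. -/
theorem glob_of_local {b : ℕ} {D : Derivation k L L} (hD : D ≠ 0) {f : Fin (n + 1) → L}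
    (hf : ∃ j, f j ≠ 0) {a : Fin q → Fin (n + 1) → k} (hne : ∀ i, lv (a i) f ≠ 0) {W : L}
    (hloc : ∀ P : Place k L, 2 * b * pord P f + b * vo P D +
      ∑ i, max (P.ord (lv (a i) f) - pord P f - 1) 0 ≤ P.ord W) {m : Fin q → ℕ}
    (hm : ∀ i, 1 ≤ m i) (hmult : ∀ (P : Place k L) (i : Fin q), pord P f < P.ord (lv (a i) f) →
      pord P f + m i ≤ P.ord (lv (a i) f)) :
    (∑ i, (1 - 1 / (m i : ℝ)) - 2 * b) * (pht k f : ℝ) ≤ b * (canDeg k L : ℝ) := by
  classical
  obtain ⟨T1, hT1⟩ := exists_supp (k := k) Finset.univ f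
  obtain ⟨T2, hT2⟩ := exists_supp (k := k) Finset.univ fun i => lv (a i) f
  obtain ⟨T3, hT3⟩ := exists_supp (k := k) (Finset.univ : Finset (Fin 1)) ![W]
  set T : Finset (Place k L) := T1 ∪ T2 ∪ T3 ∪ (vo_finite hD).toFinset with hT
  have hTp : ∀ P, pord P f ≠ 0 → P ∈ T := by
    intro P hP
    obtain ⟨j, _, hj⟩ := exists_pord P hf
    rw [← hj] at hP
    have := hT1 j (Finset.mem_univ _) P hP
    simp [hT, this]
  have hTv : ∀ P, vo P D ≠ 0 → P ∈ T := by
    intro P hP
    simp [hT, hP]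
  have hTl : ∀ i, ∀ P : Place k L, P.ord (lv (a i) f) ≠ 0 → P ∈ T := by
    intro i P hP
    have := hT2 i (Finset.mem_univ _) P hP
    simp [hT, this]
  have hTW : ∀ P : Place k L, P.ord W ≠ 0 → P ∈ T := by
    intro P hP
    have := hT3 0 (Finset.mem_univ _) P hP
    simp [hT, this]
  have hs3 : ∑ P ∈ T, vo P D = - canDeg k L := canDeg_finset hD T hTv
  have hs4 : ∑ P ∈ T, pord P f = - pht k f := by
    unfold pht
    rw [neg_neg, finsum_eq_sum_of_support_subset (s := T)]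
    intro P hP
    exact Finset.mem_coe.2 (hTp P hP)
  have hsa : ∀ i, ∑ P ∈ T, (P.ord (lv (a i) f) - pord P f) = pht k f := by
    intro i
    rw [Finset.sum_sub_distrib, hs4, sum_ord_finset _ T (hTl i)]
    ring
  have h1 := Finset.sum_le_sum fun P (_ : P ∈ T) => hloc P
  rw [sum_ord_finset W T hTW, Finset.sum_add_distrib, Finset.sum_add_distrib, ← Finset.mul_sum,
    ← Finset.mul_sum, hs3, hs4] at h1
  have h2 : ∑ P ∈ T, ∑ i, (1 - 1 / (m i : ℝ)) * ((P.ord (lv (a i) f) - pord P f : ℤ) : ℝ) =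
      (∑ i, (1 - 1 / (m i : ℝ))) * (pht k f : ℝ) := by
    rw [Finset.sum_comm, Finset.sum_mul]
    refine Finset.sum_congr rfl fun i _ => ?_
    rw [← Finset.mul_sum, ← hsa i]
    push_cast
    rfl
  have h3 : ∀ P ∈ T, ∑ i, (1 - 1 / (m i : ℝ)) * ((P.ord (lv (a i) f) - pord P f : ℤ) : ℝ) ≤
      ((∑ i, max (P.ord (lv (a i) f) - pord P f - 1) 0 : ℤ) : ℝ) := by
    intro P _
    push_cast
    refine Finset.sum_le_sum fun i _ => ?_
    have hm0 : (0 : ℝ) < m i := by exact_mod_cast hm i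
    have hge : pord P f ≤ P.ord (lv (a i) f) :=
      one_le_of_ge (hne i) (lv_ge (a i) fun l => ge_pord P f l)
    rcases hge.lt_or_eq with h | h
    · have h4 := hmult P i h
      refine le_max_of_le_left ?_
      have h5 : ((m i : ℕ) : ℝ) ≤ (P.ord (lv (a i) f) : ℝ) - pord P f := by
        have : ((m i : ℕ) : ℤ) ≤ P.ord (lv (a i) f) - pord P f := by omega
        exact_mod_cast this
      have h6 : 1 ≤ 1 / (m i : ℝ) * ((P.ord (lv (a i) f) : ℝ) - pord P f) := by
        rw [one_div, ← div_eq_inv_mul, le_div_iff₀ hm0, one_mul]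
        exact h5
      linarith
    · refine le_max_of_le_right ?_
      rw [h]
      simp
  have h7 := Finset.sum_le_sum h3
  rw [h2] at h7
  have h8 : (∑ P ∈ T, ((∑ i, max (P.ord (lv (a i) f) - pord P f - 1) 0 : ℤ) : ℝ)) ≤
      2 * b * (pht k f : ℝ) + b * (canDeg k L : ℝ) := by
    have h9 : ∑ P ∈ T, ∑ i, max (P.ord (lv (a i) f) - pord P f - 1) 0 ≤
        2 * b * pht k f + b * canDeg k L := by linarith
    exact_mod_cast h9
  linarith

theorem pht_nonneg' {f : Fin (n + 1) → L} (hf : ∃ j, f j ≠ 0) : 0 ≤ pht k f := by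
  classical
  obtain ⟨l, hl⟩ := hf
  obtain ⟨T1, hT1⟩ := exists_supp (k := k) Finset.univ f
  have hTp : ∀ P : Place k L, pord P f ≠ 0 → P ∈ T1 := by
    intro P hP
    obtain ⟨j, _, hj⟩ := exists_pord P ⟨l, hl⟩
    rw [← hj] at hP
    exact hT1 j (Finset.mem_univ _) P hP
  have hs4 : pht k f = - ∑ P ∈ T1, pord P f := by
    unfold pht
    rw [finsum_eq_sum_of_support_subset (s := T1)]
    intro P hP
    exact Finset.mem_coe.2 (hTp P hP)
  have h1 := Finset.sum_le_sum fun P (_ : P ∈ T1) => pord_le P hl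
  rw [sum_ord_finset (f l) T1 fun P hP => hT1 l (Finset.mem_univ _) P hP] at h1
  rw [hs4]
  linarith

end Pool.Agent.Y216
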