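import Pool.Agent.Y216.RncC
import Pool.Agent.Y216.Glob

/-!
Hyperplanes which are dual to points of a rational normal curve: the inequality for curves.
-/

set_option autoImplicit false

open Polynomial FF Pool.Agent.W603.LV Pool.Agent.W603.PV Pool.Agent.W601.VF

namespace Pool.Agent.Y216

section

variable {k : Type} [Field k] {L : Type} [Field L] [Algebra k L] {n : ℕ}

theorem pord_le_pord {n' : ℕ} (P : Place k L) {f : Fin (n + 1) → L} {g : Fin (n' + 1) → L}
    (hg : ∃ j, g j ≠ 0) (h : ∀ j, Ge P (pord P f) (g j)) : pord P f ≤ pord P g := by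
  obtain ⟨j, hj, hjo⟩ := exists_pord P hg
  rw [← hjo]
  exact one_le_of_ge hj (h j)

theorem mulLin_last {R : Type*} [CommRing R] (b : R) (g : Fin (n + 1) → R) :
    mulLin b g (Fin.last (n + 1)) = g (Fin.last n) := by
  unfold mulLin
  rw [Fin.lastCases_last, mul_zero, sub_zero, ← Fin.succ_last, Fin.cases_succ]

theorem mulLin_succ {R : Type*} [CommRing R] (b : R) (g : Fin (n + 1) → R) (i : Fin n) :
    g i.castSucc = mulLin b g i.castSucc.succ + b * g i.succ := by
  unfold mulLin
  rw [Fin.cases_succ, Fin.succ_castSucc, Fin.lastCases_castSucc]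
  ring

theorem mulLin_ge {P : Place k L} {N : ℤ} {b : k} {g : Fin (n + 1) → L}
    (h : ∀ j, Ge P N (g j)) (l : Fin (n + 2)) : Ge P N (mulLin (algebraMap k L b) g l) := by
  unfold mulLin
  refine Ge.sub ?_ ?_
  · refine Fin.cases ?_ (fun j => ?_) l
    · rw [Fin.cases_zero]
      exact Ge.zero
    · rw [Fin.cases_succ]
      exact h j
  · refine Fin.lastCases ?_ (fun j => ?_) l
    · rw [Fin.lastCases_last, mul_zero]
      exact Ge.zero
    · rw [Fin.lastCases_castSucc]
      simpa using (Ge.const (P := P) b).mul (h j)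

theorem ge_mulLin {P : Place k L} {N : ℤ} {b : k} {g : Fin (n + 1) → L}
    (h : ∀ l, Ge P N (mulLin (algebraMap k L b) g l)) (j : Fin (n + 1)) : Ge P N (g j) := by
  induction j using Fin.reverseInduction with
  | last =>
    rw [← mulLin_last (algebraMap k L b) g]
    exact h _
  | cast i ih =>
    rw [mulLin_succ (algebraMap k L b) g i]
    exact (h _).add (by simpa using (Ge.const (P := P) b).mul ih)

theorem pord_mulLin (P : Place k L) {b : k} {g : Fin (n + 1) → L} (hg : g (Fin.last n) ≠ 0) :
    pord P (mulLin (algebraMap k L b) g) = pord P g := by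
  refine le_antisymm (pord_le_pord P ⟨_, hg⟩ (ge_mulLin fun l => ge_pord P _ l))
    (pord_le_pord P ⟨Fin.last (n + 1), ?_⟩ (mulLin_ge fun j => ge_pord P g j))
  rw [mulLin_last]
  exact hg

theorem pol_inj {R : Type*} [CommRing R] {f g : Fin (n + 1) → R} (h : pol f = pol g) : f = g := by
  funext j
  rw [← coeff_pol f j, h, coeff_pol]

end

variable {k : Type} [Field k] [IsAlgClosed k] [CharZero k] {L : Type} [Field L] [Algebra k L]
  [IsFF k L] {n q : ℕ}

/-- The inequality for curves. -/
theorem rnc_ineq {u v : Fin q → k} (huv : ∀ i j, i ≠ j → u i * v j ≠ u j * v i) {m : Fin q → ℕ}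
    (hm : ∀ i, 1 ≤ m i) {n : ℕ} (hsum : 2 * (n : ℝ) < ∑ i, (1 - 1 / (m i : ℝ)))
    {f : Fin (n + 1) → L} (hlast : f (Fin.last n) ≠ 0) (hsq : Squarefree (pol f))
    (hne : ∀ i, lv (rnc n u v i) f ≠ 0)
    (hmult : ∀ (P : Place k L) (i : Fin q), pord P f < P.ord (lv (rnc n u v i) f) →
      pord P f + m i ≤ P.ord (lv (rnc n u v i) f)) :
    (∑ i, (1 - 1 / (m i : ℝ)) - 2 * n) * (pht k f : ℝ) ≤
      n * ((max (canDeg k L) 0 : ℤ) : ℝ) := by
  classical
  induction n with
  | zero =>
    have h1 : pht k f = 0 := pht_const (l := 0) (by simpa using hlast)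
      (c := fun _ => 1) fun j => by
        rw [show j = 0 from Fin.ext (by have := j.2; omega), map_one, mul_one]
    rw [h1]
    simp
  | succ n ih =>
    have hmax : (0 : ℝ) ≤ ((max (canDeg k L) 0 : ℤ) : ℝ) := by
      exact_mod_cast le_max_right _ _
    by_cases hroot : ∃ b : k, (pol f).eval (algebraMap k L b) = 0
    · obtain ⟨b, hb⟩ := hroot
      obtain ⟨G, hG⟩ := dvd_iff_isRoot.2 (show (pol f).IsRoot (algebraMap k L b) from hb)
      have hF0 : pol f ≠ 0 := hsq.ne_zero
      have hG0 : G ≠ 0 := by
        rintro rfl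
        exact hF0 (by rw [hG, mul_zero])
      have hGd : G.natDegree ≤ n := by
        have h1 := natDegree_pol_le f
        rw [hG, natDegree_mul (X_sub_C_ne_zero _) hG0, natDegree_X_sub_C] at h1
        omega
      obtain ⟨g, hg⟩ : ∃ g : Fin (n + 1) → L, g = fun j : Fin (n + 1) => G.coeff (j : ℕ) :=
        ⟨_, rfl⟩
      have hGg : G = pol g := by
        rw [hg]
        exact eq_pol hGd
      have hfg : f = mulLin (algebraMap k L b) g := by
        apply pol_inj
        rw [pol_mulLin, ← hGg, hG]
      have hglast : g (Fin.last n) ≠ 0 := by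
        rwa [hfg, mulLin_last] at hlast
      have hgsq : Squarefree (pol g) := by
        rw [hG, hGg] at hsq
        exact hsq.of_mul_right
      have hlv : ∀ i, lv (rnc (n + 1) u v i) f =
          algebraMap k L (v i - b * u i) * lv (rnc n u v i) g := by
        intro i
        rw [lv_rnc, lv_rnc, hfg, bev_mulLin, map_sub, map_mul]
      have hc : ∀ i, v i - b * u i ≠ 0 := by
        intro i h0
        apply hne i
        rw [hlv, h0, map_zero, zero_mul]
      have hgne : ∀ i, lv (rnc n u v i) g ≠ 0 := by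
        intro i h0
        apply hne i
        rw [hlv, h0, mul_zero]
      have hord : ∀ (P : Place k L) i, P.ord (lv (rnc (n + 1) u v i) f) =
          P.ord (lv (rnc n u v i) g) := by
        intro P i
        rw [hlv, P.ord_mul ((_root_.map_ne_zero _).2 (hc i)) (hgne i), P.ord_const (hc i),
          zero_add]
      have hpord : ∀ P : Place k L, pord P f = pord P g := fun P => by
        rw [hfg]
        exact pord_mulLin P hglast
      have hpht : pht k f = pht k g := by
        unfold pht
        simp only [hpord]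
      have h1 := ih (by push_cast at hsum; linarith) hglast hgsq hgne fun P i h => by
        have h2 := hmult P i
        rw [hord, hpord] at h2
        exact h2 h
      have h2 : (0 : ℝ) ≤ (pht k g : ℝ) := by
        exact_mod_cast pht_nonneg' (k := k) ⟨_, hglast⟩
      have e : ((n + 1 : ℕ) : ℝ) = n + 1 := by push_cast; ring
      rw [hpht, e]
      nlinarith
    · push Not at hroot
      obtain ⟨D, hD⟩ := exists_der (k := k) (K := L)
      have hR := res_ne_zero hD hlast hsq hroot
      have hq : n + 1 + (n + 1) ≤ q := by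
        have h1 : ∑ i, (1 - 1 / (m i : ℝ)) ≤ q := by
          calc ∑ i, (1 - 1 / (m i : ℝ)) ≤ ∑ _i : Fin q, (1 : ℝ) :=
                Finset.sum_le_sum fun i _ => by
                  have : (0 : ℝ) ≤ 1 / (m i : ℝ) := by positivity
                  linarith
            _ = q := by simp
        have h2 : ((n + 1 + (n + 1) : ℕ) : ℝ) < q := by
          push_cast at hsum ⊢
          linarith
        exact_mod_cast h2.le
      have h1 := glob_of_local (b := n + 1) hD ⟨_, hlast⟩ hne
        (fun P => rnc_local P hD ⟨_, hlast⟩ huv hq hne hR) hm hmult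
      refine h1.trans (mul_le_mul_of_nonneg_left ?_ (by positivity))
      exact_mod_cast le_max_left _ _

/-- the discriminant of the binary form with coefficients `x`, as a form -/
noncomputable def discForm (k : Type) [Field k] (n : ℕ) : MvPolynomial (Fin (n + 1)) k :=
  resultant (pol fun j => (MvPolynomial.X j : MvPolynomial (Fin (n + 1)) k))
    (derivative (pol fun j => (MvPolynomial.X j : MvPolynomial (Fin (n + 1)) k))) n (n - 1)

omit [IsAlgClosed k] [CharZero k] in
theorem aeval_discForm {M : Type} [Field M] [Algebra k M] (f : Fin (n + 1) → M) :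
    MvPolynomial.aeval f (discForm k n) = resultant (pol f) (derivative (pol f)) n (n - 1) := by
  unfold discForm
  have h1 := resultant_map_map
    (pol fun j => (MvPolynomial.X j : MvPolynomial (Fin (n + 1)) k))
    (derivative (pol fun j => (MvPolynomial.X j : MvPolynomial (Fin (n + 1)) k))) n (n - 1)
    (MvPolynomial.aeval f : MvPolynomial (Fin (n + 1)) k →ₐ[k] M).toRingHom
  rw [← derivative_map, map_pol] at h1
  have h2 : (fun j => (MvPolynomial.aeval f : MvPolynomial (Fin (n + 1)) k →ₐ[k] M).toRingHom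
      (MvPolynomial.X j)) = f := by
    funext j
    exact MvPolynomial.aeval_X f j
  rw [h2] at h1
  exact h1.symm

omit [IsAlgClosed k] in
theorem squarefree_of_disc (hn : 1 ≤ n) {M : Type} [Field M] [Algebra k M] {f : Fin (n + 1) → M}
    (hlast : f (Fin.last n) ≠ 0) (h : MvPolynomial.aeval f (discForm k n) ≠ 0) :
    Squarefree (pol f) := by
  have : CharZero M := charZero_of_injective_algebraMap (algebraMap k M).injective
  rw [aeval_discForm] at h
  have hdeg : (pol f).natDegree = n := by
    refine natDegree_eq_of_le_of_coeff_ne_zero (natDegree_pol_le f) ?_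
    have h := coeff_pol f (Fin.last n)
    rw [Fin.val_last] at h
    rwa [h]
  have hdeg' : (derivative (pol f)).natDegree = n - 1 := by
    rw [natDegree_derivative, hdeg]
  have h1 : resultant (pol f) (derivative (pol f)) ≠ 0 := by
    rwa [hdeg, hdeg']
  rw [Ne, resultant_eq_zero_iff, not_and, not_not] at h1
  have h2 : pol f ≠ 0 := by
    intro h0
    rw [h0, natDegree_zero] at hdeg
    omega
  have h3 : (pol f).Separable := h1 (Or.inl h2)
  exact h3.squarefree

theorem isHomogeneous_det {σ : Type*} {R : Type*} [CommRing R] {r : ℕ}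
    {M : Matrix (Fin r) (Fin r) (MvPolynomial σ R)} (hM : ∀ i j, (M i j).IsHomogeneous 1) :
    M.det.IsHomogeneous r := by
  rw [Matrix.det_apply]
  refine MvPolynomial.IsHomogeneous.sum _ _ _ fun τ _ => ?_
  have h1 : (∏ i, M (τ i) i).IsHomogeneous (∑ _i : Fin r, 1) :=
    MvPolynomial.IsHomogeneous.prod _ _ _ fun i _ => hM _ _
  rw [Finset.sum_const, Finset.card_univ, Fintype.card_fin, smul_eq_mul, mul_one] at h1
  rcases Int.units_eq_one_or (Equiv.Perm.sign τ) with h | h
  · rw [h, one_smul]
    exact h1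
  · rw [h, Units.neg_smul, one_smul]
    exact h1.neg

omit [IsAlgClosed k] [CharZero k] in
theorem discForm_homogeneous : (discForm k n).IsHomogeneous (n + (n - 1)) := by
  unfold discForm resultant
  refine isHomogeneous_det fun i j => ?_
  have hc : ∀ i, ((pol fun j => (MvPolynomial.X j : MvPolynomial (Fin (n + 1)) k)).coeff
      i).IsHomogeneous 1 := by
    intro i
    by_cases hi : i < n + 1
    · rw [coeff_pol_lt _ hi]
      exact MvPolynomial.isHomogeneous_X _ _
    · rw [coeff_pol_ge _ (by omega)]
      exact MvPolynomial.isHomogeneous_zero _ _ _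
  rw [sylvester, Matrix.of_apply]
  induction j using Fin.addCases with
  | left j =>
    rw [Fin.addCases_left]
    split_ifs
    · rw [coeff_derivative]
      have h1 : ((i - j : ℕ) + 1 : MvPolynomial (Fin (n + 1)) k) =
          MvPolynomial.C ((i - j : ℕ) + 1 : k) := by
        rw [map_add, map_one, map_natCast]
      rw [h1, mul_comm]
      have h2 := (MvPolynomial.isHomogeneous_C (Fin (n + 1)) ((i - j : ℕ) + 1 : k)).mul
        (hc (i - j + 1))
      rwa [zero_add] at h2
    · exact MvPolynomial.isHomogeneous_zero _ _ _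
  | right j =>
    rw [Fin.addCases_right]
    split_ifs
    · exact hc _
    · exact MvPolynomial.isHomogeneous_zero _ _ _

omit [IsAlgClosed k] in
theorem discForm_ne (hn : 1 ≤ n) : discForm k n ≠ 0 := by
  intro h0
  obtain ⟨F, hF⟩ : ∃ F : k[X], F = X ^ n - C 1 := ⟨_, rfl⟩
  have hdeg : F.natDegree = n := by rw [hF, natDegree_X_pow_sub_C]
  obtain ⟨f, hf⟩ : ∃ f : Fin (n + 1) → k, f = fun j : Fin (n + 1) => F.coeff (j : ℕ) := ⟨_, rfl⟩
  have hFf : F = pol f := by
    rw [hf]
    exact eq_pol hdeg.le
  have h1 := aeval_discForm (k := k) f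
  rw [h0, map_zero, ← hFf] at h1
  have hsep : F.Separable := by
    rw [hF]
    exact separable_X_pow_sub_C 1 (by exact_mod_cast (show n ≠ 0 by omega)) one_ne_zero
  have h2 := resultant_ne_zero F (derivative F) hsep
  rw [natDegree_derivative, hdeg] at h2
  exact h2 h1.symm

/-- **The inequality for curves.** -/
theorem curveIneq_rnc (hn : 1 ≤ n) {u v : Fin q → k} (huv : ∀ i j, i ≠ j → u i * v j ≠ u j * v i)
    {m : Fin q → ℕ} (hm : ∀ i, 1 ≤ m i) (hsum : 2 * (n : ℝ) < ∑ i, (1 - 1 / (m i : ℝ))) :
    ∃ B : ℕ, CurveIneq (rnc n u v) m (MvPolynomial.X (Fin.last n) * discForm k n) B := by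
  obtain ⟨s, hs⟩ : ∃ s : ℝ, s = ∑ i, (1 - 1 / (m i : ℝ)) - 2 * n := ⟨_, rfl⟩
  have hs0 : 0 < s := by
    rw [hs]
    linarith
  obtain ⟨B, hB⟩ := exists_nat_ge ((n : ℝ) / s)
  refine ⟨B, fun L _ _ _ f hf hlf hΔ hmult => ?_⟩
  rw [map_mul, MvPolynomial.aeval_X] at hΔ
  have hlast := left_ne_zero_of_mul hΔ
  have hsq := squarefree_of_disc hn hlast (right_ne_zero_of_mul hΔ)
  have h1 := rnc_ineq huv hm hsum hlast hsq hlf hmult
  rw [← hs] at h1
  exact le_of_real (x := n) hs0 h1 (by rwa [div_le_iff₀ hs0] at hB) (le_max_right _ _)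

end Pool.Agent.Y216
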