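import Pool.Agent.TH152.BB.All
import Pool.Agent.W602.RG.TB
import Pool.Agent.W273.RG.FNW
import Pool.Agent.W619.PQ.Curve

/-!
A linear bound for the degrees of the curves in a projective variety implies the finiteness of
pointed maps, outside the same closed subset.
-/

set_option autoImplicit false

open FF MvPolynomial Pool.Agent.W603.LV Pool.Agent.W603.PV Pool.Agent.W602.RG
open Pool.Agent.W602.GT (val IsForm VarPts SubVar GeneralType val_smul)
open scoped LinearAlgebra.Projectivization

namespace Pool.Agent.Y216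

variable {k : Type} [Field k] {n : ℕ} {K : Type} [Field K] [Algebra k K]

/-- `f` is a point, with coordinates in `L`, of the projective variety with generic point `y`. -/
def OnVar (k : Type) [Field k] {K : Type} [Field K] [Algebra k K] (y : Fin (n + 1) → K)
    {L : Type} [Field L] [Algebra k L] (f : Fin (n + 1) → L) : Prop :=
  (∃ j, f j ≠ 0) ∧ ∀ H : MvPolynomial (Fin (n + 1)) k, IsForm H → val y H = 0 → val f H = 0

/-- Outside a proper closed subset, the degree of a map from a curve of genus `g` to the variety is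
at most `B * max (2 * g - 2) 0`. -/
def CurveBound (k : Type) [Field k] {K : Type} [Field K] [Algebra k K]
    (y : Fin (n + 1) → K) : Prop :=
  ∃ G : MvPolynomial (Fin (n + 1)) k, IsForm G ∧ val y G ≠ 0 ∧ ∃ B : ℕ,
    ∀ (L : Type) [Field L] [Algebra k L] [IsFF k L] (f : Fin (n + 1) → L), OnVar k y f →
      val f G ≠ 0 → pht k f ≤ B * max (canDeg k L) 0

theorem canDeg_ratFunc [IsAlgClosed k] [CharZero k] : canDeg k (RatFunc k) = -2 :=
  Pool.Agent.W619.PQ.canDeg_rational (x := (RatFunc.X : RatFunc k)) RatFunc.adjoin_X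

theorem isFF_ratFunc [CharZero k] : IsFF k (RatFunc k) :=
  inferInstance

/-- A function with height zero is constant. -/
theorem const_of_hgt [IsAlgClosed k] [CharZero k] {L : Type} [Field L] [Algebra k L] [IsFF k L]
    {u : L} (h : hgt k u ≤ 0) : u ∈ Set.range (algebraMap k L) := by
  by_contra hcon
  have ht : Transcendental k u := by
    intro halg
    apply hcon
    have h2 := IsAlgClosed.degree_eq_one_of_irreducible k (minpoly.irreducible halg.isIntegral)
    exact minpoly.mem_range_of_degree_eq_one k u h2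
  have h1 := hgt_eq_finrank (k := k) ht
  have h2 := IsFF.finite (k := k) ht
  have h3 : 0 < Module.finrank (IntermediateField.adjoin k {u}) L := Module.finrank_pos
  omega

theorem val_one_form {L : Type} [Field L] [Algebra k L] (f : Fin (n + 1) → L)
    (G : MvPolynomial (Fin (n + 1)) k) : val f G = aeval f G := rfl

/-- **Pointed maps.** -/
theorem pointed_of_bound [IsAlgClosed k] [CharZero k] {y : Fin (n + 1) → K}
    (h : CurveBound k y) : PseudoGeomHyp k y := by
  classical
  obtain ⟨G, hGf, hGy, B, hB⟩ := h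
  refine ⟨G, hGf, hGy, fun L _ _ _ c x hx hxG => ?_⟩
  by_contra hfin
  have hinf : (PointedMaps y c x).Infinite := hfin
  obtain ⟨j0, hj0⟩ := Function.ne_iff.1 hx.1
  have hj0 : x j0 ≠ 0 := hj0
  set M : Set (Fin (n + 1) → L) := {f | f j0 = 1 ∧ (∀ H : MvPolynomial (Fin (n + 1)) k, IsForm H →
    val y H = 0 → val f H = 0) ∧ HasValue c x f} with hM
  have hMinf : M.Infinite := by
    intro hMfin
    obtain ⟨φ0, -⟩ := hinf.nonempty
    let g : (Fin (n + 1) → L) → ℙ L (Fin (n + 1) → L) := fun f =>
      if h : f ≠ 0 then Projectivization.mk L f h else φ0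
    refine hinf ((hMfin.image g).subset ?_)
    rintro φ ⟨f, hf, hmap, hval, rfl⟩
    have hfne : ∃ j, f j ≠ 0 := Function.ne_iff.1 hf
    have hfj0 := Pool.Agent.W273.RG.FNW.hv_ne hfne hval hj0
    have hc0 : (f j0)⁻¹ ≠ 0 := inv_ne_zero hfj0
    have hf' : (fun j => (f j0)⁻¹ * f j) ≠ 0 := by
      intro h0
      have := congrFun h0 j0
      simp only [Pi.zero_apply] at this
      exact (mul_ne_zero hc0 hfj0) this
    refine ⟨fun j => (f j0)⁻¹ * f j, ⟨inv_mul_cancel₀ hfj0, ?_,
      Pool.Agent.W273.RG.FNW.hv_scale hfne hval hc0⟩, ?_⟩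
    · intro H hH hyH
      have h3 := hmap H hH hyH
      obtain ⟨e, he⟩ := hH
      rw [val_smul he, h3, mul_zero]
    · change (if h : (fun j => (f j0)⁻¹ * f j) ≠ 0 then
        Projectivization.mk L (fun j => (f j0)⁻¹ * f j) h else φ0) = _
      rw [dif_pos hf', Projectivization.mk_eq_mk_iff']
      exact ⟨(f j0)⁻¹, by funext j; rfl⟩
  have hvalues : ∀ f ∈ M, ∀ j, f j = algebraMap k L (x j / x j0) ∨
      0 < c.ord (f j - algebraMap k L (x j / x j0)) := by
    rintro f ⟨hf0, hmap, hval⟩ j
    have hp := Pool.Agent.W273.RG.FNW.pord_zero hval hj0 hf0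
    have hxj0 : algebraMap k L (x j0) ≠ 0 := (map_ne_zero _).2 hj0
    have e : algebraMap k L (x j0) * f j - algebraMap k L (x j) * f j0 =
        algebraMap k L (x j0) * (f j - algebraMap k L (x j / x j0)) := by
      rw [hf0, map_div₀]
      field_simp
    rcases hval j0 j with h3 | h3
    · left
      rw [e] at h3
      exact sub_eq_zero.1 ((mul_eq_zero.1 h3).resolve_left hxj0)
    · by_cases h4 : f j - algebraMap k L (x j / x j0) = 0
      · left; exact sub_eq_zero.1 h4
      · right
        rw [e, c.ord_mul hxj0 h4, c.ord_const hj0, zero_add, hp] at h3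
        exact h3
  -- the form `G` at the point `x`
  obtain ⟨d, hd⟩ := hGf
  have hG1 : MvPolynomial.eval (fun j => x j / x j0) G ≠ 0 := by
    intro h5
    apply hxG
    have h6 : x = fun j => x j0 * (x j / x j0) := by
      funext j
      field_simp
    rw [h6, val_smul hd]
    have h7 : val (fun j => x j / x j0) G = eval (fun j => x j / x j0) G := by
      unfold Pool.Agent.W602.GT.val
      rw [MvPolynomial.aeval_def, MvPolynomial.eval₂_eq', MvPolynomial.eval_eq']
      rfl
    rw [h7, h5, mul_zero]
  have hbound : ∀ f ∈ M, pht k f ≤ B * max (canDeg k L) 0 := by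
    intro f hf
    obtain ⟨hf0, hmap, hval⟩ := hf
    refine hB L f ⟨⟨j0, by rw [hf0]; exact one_ne_zero⟩, hmap⟩ fun h0 => ?_
    have h1 : ∀ j, Ge c 1 (f j - algebraMap k L (x j / x j0)) := by
      intro j
      rcases hvalues f ⟨hf0, hmap, hval⟩ j with h | h
      · left; rw [h, sub_self]
      · right; omega
    have h2 : ∀ j, Ge c 0 (f j) := by
      intro j
      have h3 : f j = (f j - algebraMap k L (x j / x j0)) + algebraMap k L (x j / x j0) := by ring
      rw [h3]
      exact ((h1 j).mono (by norm_num)).add (Ge.const _)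
    have h3 := red_mvaeval c h2 h1 G
    rw [show aeval f G = 0 from h0, zero_sub] at h3
    have h4 := h3.neg
    rw [neg_neg] at h4
    exact hG1 (const_zero c h4)
  have hhgt : ∀ f ∈ M, ∀ j, hgt k (f j) ≤ B * max (canDeg k L) 0 := by
    intro f hf j
    have h5 := hbound f hf
    by_cases h0 : f j = 0
    · have h7 : hgt k (f j) = 0 := by
        rw [h0]
        exact hgt_algebraic (k := k) (K := L) (f := 0) isAlgebraic_zero
      rw [h7]
      positivity
    · have h6 := Pool.Agent.W603.CX.hgt_le_pht (k := k) f (j := j) (l := j0) h0 (by rw [hf.1]; exact one_ne_zero)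
      rw [hf.1, div_one] at h6
      exact h6.trans h5
  -- bend and break
  let z : ℕ ↪ M := hMinf.natEmbedding M
  obtain ⟨g, ⟨j1, hj1⟩, hg1, hg2⟩ := Pool.Agent.TH152.BB.bb_val Pool.Agent.TH152.BB.bb_all c
    (fun m => (z m : Fin (n + 1) → L)) (fun j => x j / x j0) (B * max (canDeg k L) 0)
    (fun a b hab => z.injective (Subtype.ext hab)) (fun m j => hvalues _ (z m).2 j)
    (fun m j => hhgt _ (z m).2 j)
  have hg0 : g j0 = 1 := by
    have h1 := hg1 (X j0 - 1) (fun m => by
      rw [map_sub, aeval_X, map_one, (z m).2.1, sub_self])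
    rw [map_sub, aeval_X, map_one] at h1
    exact sub_eq_zero.1 h1
  have hgne : ∃ j, g j ≠ 0 := ⟨j0, by rw [hg0]; exact one_ne_zero⟩
  have h1 := hB (RatFunc k) g ⟨hgne, fun H hH hyH => hg1 H fun m => (z m).2.2.1 H hH hyH⟩
    (fun h0 => hG1 (hg2 G h0))
  rw [canDeg_ratFunc] at h1
  apply hj1
  apply const_of_hgt
  by_cases h0 : g j1 = 0
  · rw [h0]
    exact (hgt_algebraic (k := k) (K := RatFunc k) (f := 0) isAlgebraic_zero).le
  · have h2 := Pool.Agent.W603.CX.hgt_le_pht (k := k) g (j := j1) (l := j0) h0 (by rw [hg0]; exact one_ne_zero)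
    rw [hg0, div_one] at h2
    simpa using h2.trans h1

end Pool.Agent.Y216
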