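import Pool.Agent.W602.GT.Sys
import Pool.Agent.W602.GT.Loc
import Pool.Agent.W602.GT.Circ

/-!
The determinant with the rows `f`, `D 0 f`, ..., `D (n - 1) f`: general constant fields.
-/

set_option autoImplicit false

open FF Pool.Agent.W603.LV Pool.Agent.W602.GT

namespace Pool.Agent.Y216

variable {k : Type} [Field k] {n : ℕ} {K : Type} [Field K] [Algebra k K]

/-- the matrix with the rows `f`, `D 0 f`, ... -/
noncomputable def mt (D : Fin n → Derivation k K K) (f : Fin (n + 1) → K) :
    Matrix (Fin (n + 1)) (Fin (n + 1)) K :=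
  Matrix.of fun i j : Fin (n + 1) => (Fin.cases (f j) (fun l => D l (f j)) i : K)

/-- its determinant -/
noncomputable def bw (D : Fin n → Derivation k K K) (f : Fin (n + 1) → K) : K := (mt D f).det

theorem mt_zero (D : Fin n → Derivation k K K) (f : Fin (n + 1) → K) (j : Fin (n + 1)) :
    mt D f 0 j = f j := rfl

theorem mt_succ (D : Fin n → Derivation k K K) (f : Fin (n + 1) → K) (l : Fin n)
    (j : Fin (n + 1)) : mt D f l.succ j = D l (f j) := rfl

theorem bw_scale (D : Fin n → Derivation k K K) (lam : K) (f : Fin (n + 1) → K) :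
    bw D (fun j => lam * f j) = lam ^ (n + 1) * bw D f := by
  unfold bw
  by_cases h0 : lam = 0
  · subst h0
    rw [zero_pow (by omega), zero_mul]
    refine Matrix.det_eq_zero_of_row_eq_zero 0 fun j => ?_
    rw [mt_zero, zero_mul]
  · have h1 : mt D (fun j => lam * f j) =
        lam • Matrix.of (fun i j => mt D f i j +
          (Fin.cases 0 (fun l => D l lam / lam) i : K) * mt D f 0 j) := by
      ext i j
      rw [Matrix.smul_apply, Matrix.of_apply, smul_eq_mul]
      refine Fin.cases ?_ (fun l => ?_) i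
      · simp only [Fin.cases_zero, mt_zero, zero_mul, add_zero]
      · simp only [Fin.cases_succ, mt_zero, mt_succ, Derivation.leibniz, smul_eq_mul]
        field_simp
    rw [h1, Matrix.det_smul, Fintype.card_fin]
    congr 1
    refine Matrix.det_eq_of_forall_row_eq_smul_add_const
      (fun i => (Fin.cases 0 (fun l => D l lam / lam) i : K)) 0 rfl (fun i j => rfl)

/-- the bordered matrix -/
def bd (A : Matrix (Fin n) (Fin n) K) : Matrix (Fin (n + 1)) (Fin (n + 1)) K :=
  Matrix.of fun i k => (Fin.cases (Fin.cases 1 (fun _ => 0) k : K)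
    (fun l => (Fin.cases 0 (fun m => A l m) k : K)) i : K)

theorem bd_det (A : Matrix (Fin n) (Fin n) K) : (bd A).det = A.det := by
  rw [Matrix.det_succ_row_zero, Fin.sum_univ_succ]
  have h1 : ∑ i : Fin n, (-1 : K) ^ ((i.succ : Fin (n + 1)) : ℕ) * bd A 0 i.succ *
      ((bd A).submatrix Fin.succ i.succ.succAbove).det = 0 := by
    refine Finset.sum_eq_zero fun i _ => ?_
    have : bd A 0 i.succ = 0 := rfl
    rw [this, mul_zero, zero_mul]
  rw [h1, add_zero]
  have h2 : bd A 0 0 = 1 := rfl
  rw [h2]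
  have h3 : (bd A).submatrix Fin.succ (Fin.succAbove 0) = A := by
    ext i j
    rfl
  rw [h3]
  simp

theorem bw_pluri (A : Matrix (Fin n) (Fin n) K) (D : Fin n → Derivation k K K)
    (f : Fin (n + 1) → K) : bw (fun i => ∑ j, A i j • D j) f = A.det * bw D f := by
  unfold bw
  rw [← bd_det A, ← Matrix.det_mul]
  congr 1
  ext i j
  rw [Matrix.mul_apply, Fin.sum_univ_succ]
  refine Fin.cases ?_ (fun l => ?_) i
  · have h1 : bd A 0 0 = 1 := rfl
    have h2 : ∀ k : Fin n, bd A 0 k.succ = 0 := fun k => rfl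
    rw [h1, one_mul, Finset.sum_eq_zero (fun k _ => by rw [h2, zero_mul]), add_zero, mt_zero,
      mt_zero]
  · have h1 : bd A l.succ 0 = 0 := rfl
    have h2 : ∀ k : Fin n, bd A l.succ k.succ = A l k := fun k => rfl
    rw [h1, zero_mul, zero_add, mt_succ]
    have h3 : ∀ s : Finset (Fin n), (∑ k ∈ s, A l k • D k) (f j) = ∑ k ∈ s, A l k * D k (f j) := by
      intro s
      induction s using Finset.induction_on with
      | empty => simp
      | insert a s ha ih =>
        rw [Finset.sum_insert ha, Finset.sum_insert ha, Derivation.add_apply, ih,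
          Derivation.smul_apply, smul_eq_mul]
    rw [h3]
    exact Finset.sum_congr rfl fun k _ => by rw [h2, mt_succ]

theorem bw_lin (c : Matrix (Fin (n + 1)) (Fin (n + 1)) k) (D : Fin n → Derivation k K K)
    (f : Fin (n + 1) → K) :
    bw D (fun i => ∑ j, algebraMap k K (c i j) * f j) = algebraMap k K c.det * bw D f := by
  unfold bw
  have h1 : mt D (fun i => ∑ j, algebraMap k K (c i j) * f j) =
      mt D f * (c.map (algebraMap k K)).transpose := by
    ext i j
    rw [Matrix.mul_apply]
    refine Fin.cases ?_ (fun l => ?_) i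
    · rw [mt_zero]
      refine Finset.sum_congr rfl fun k _ => ?_
      rw [mt_zero, Matrix.transpose_apply, Matrix.map_apply, mul_comm]
    · rw [mt_succ, map_sum]
      refine Finset.sum_congr rfl fun k _ => ?_
      rw [mt_succ, Matrix.transpose_apply, Matrix.map_apply, Derivation.leibniz,
        Derivation.map_algebraMap, smul_zero, add_zero, smul_eq_mul, mul_comm]
  rw [h1, Matrix.det_mul, Matrix.det_transpose, mul_comm]
  congr 1
  rw [RingHom.map_det]
  rfl

theorem bw_one (D : Fin n → Derivation k K K) (g : Fin (n + 1) → K) (hg : g 0 = 1) :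
    bw D g = (Matrix.of fun i j : Fin n => D i (g j.succ)).det := by
  unfold bw
  rw [Matrix.det_succ_column_zero, Fin.sum_univ_succ]
  have h0 : ∑ i : Fin n, (-1 : K) ^ ((i.succ : Fin (n + 1)) : ℕ) *
      (mt D g) i.succ 0 * ((mt D g).submatrix i.succ.succAbove Fin.succ).det = 0 := by
    refine Finset.sum_eq_zero fun i _ => ?_
    have h1 : (mt D g) i.succ 0 = 0 := by
      rw [mt_succ, hg, (D i).map_one_eq_zero]
    rw [h1, mul_zero, zero_mul]
  rw [h0, add_zero]
  have h2 : (mt D g) 0 0 = 1 := hg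
  rw [h2]
  simp only [Fin.val_zero, pow_zero, one_mul]
  congr 1

theorem bw_eq (D : Fin n → Derivation k K K) (f : Fin (n + 1) → K) (hf : f 0 ≠ 0) :
    bw D f = f 0 ^ (n + 1) * (Matrix.of fun i j : Fin n => D i (f j.succ / f 0)).det := by
  have h1 := bw_scale D (f 0) (fun j => f j / f 0)
  have h2 : (fun j => f 0 * (f j / f 0)) = f := by
    funext j
    rw [mul_div_cancel₀ _ hf]
  rw [h2] at h1
  rw [h1, bw_one D (fun j => f j / f 0) (div_self hf)]

theorem bw_log (D : Fin n → Derivation k K K) (f : Fin (n + 1) → K)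
    (hf : ∀ j, f j ≠ 0) :
    bw D f = (∏ j, f j) *
      (Matrix.of fun i j : Fin n => D i (f j.succ / f 0) / (f j.succ / f 0)).det := by
  rw [bw_eq D f (hf 0)]
  have h1 : (Matrix.of fun i j : Fin n => D i (f j.succ / f 0)).det =
      (∏ j : Fin n, f j.succ / f 0) *
        (Matrix.of fun i j : Fin n => D i (f j.succ / f 0) / (f j.succ / f 0)).det := by
    rw [← Matrix.det_mul_row]
    congr 1
    ext i j
    simp only [Matrix.of_apply]
    rw [mul_div_cancel₀ _ (div_ne_zero (hf j.succ) (hf 0))]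
  rw [h1, ← mul_assoc]
  congr 1
  rw [Fin.prod_univ_succ, Finset.prod_div_distrib, Finset.prod_const, Finset.card_univ,
    Fintype.card_fin, pow_succ]
  have h2 : f 0 ^ n ≠ 0 := pow_ne_zero _ (hf 0)
  field_simp

theorem bw_ge [CharZero k] (P : Place k K) (D : Fin n → Derivation k K K) (f : Fin (n + 1) → K)
    (hD : ∀ i, DerReg P (D i)) (hf : ∀ j, f j ≠ 0) :
    Ge P ((∑ j, P.ord (f j)) - 1) (bw D f) := by
  rw [bw_log D f hf, ← ord_prod' P Finset.univ f (fun j _ => hf j)]
  exact (ge_ord P (∏ j, f j)).mul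
    (det_log (P := P) D hD (fun j => f j.succ / f 0)
      (fun j => div_ne_zero (hf j.succ) (hf 0)))

theorem bw_reg (P : Place k K) (D : Fin n → Derivation k K K) (f : Fin (n + 1) → K)
    (hD : ∀ i, DerReg P (D i)) (hf : ∀ j, P.Reg (f j)) : P.Reg (bw D f) := by
  rw [reg_iff_ge]
  unfold bw
  refine ge_det P _ 0 (fun _ _ => 0) (fun i j => ?_) (fun σ => by simp)
  refine Fin.cases ?_ (fun l => ?_) i
  · exact hf j
  · exact hD l (f j) (hf j)

theorem bw_ne [CharZero k] (f : Fin (n + 1) → K) (hf0 : f 0 ≠ 0)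
    (htb : IsTranscendenceBasis k (fun j : Fin n => f j.succ / f 0)) :
    ∃ D : Fin n → Derivation k K K, bw D f ≠ 0 := by
  obtain ⟨D, hD⟩ := exists_dual (k := k) htb
  refine ⟨D, ?_⟩
  rw [bw_eq D f hf0, hD, Matrix.det_one, mul_one]
  exact pow_ne_zero _ hf0

end Pool.Agent.Y216
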