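import Pool.Agent.W602.RG.TB

/-!
Varieties which are ramified over hyperplanes: the definitions.
-/

set_option autoImplicit false

open Pool.Agent.W602.GT Pool.Agent.W602.RG

namespace Pool.Agent.Y216

variable {k : Type} [Field k] {n q : ℕ}

/-- The hyperplanes `a i` are in general position: each `n + 1` of them have no common point. -/
def GenPos (a : Fin q → Fin (n + 1) → k) : Prop :=
  ∀ s : Fin (n + 1) → Fin q, Function.Injective s → LinearIndependent k (fun i => a (s i))

/-- The ratios of the values of the linear forms `a i` at `c` are `m i`-th powers: for every `i`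
there are at least `n` other indices `j` such that the ratio of the `i`-th and the `j`-th value is
an `m i`-th power. -/
def PowerRatios (a : Fin q → Fin (n + 1) → k) (m : Fin q → ℕ) {K : Type} [Field K] [Algebra k K]
    (c : Fin (n + 1) → K) : Prop :=
  ∀ i, ∃ S : Finset (Fin q), i ∉ S ∧ n ≤ S.card ∧ ∀ j ∈ S, ∃ z : K,
    ∑ l, algebraMap k K (a i l) * c l = z ^ m i * ∑ l, algebraMap k K (a j l) * c l

/-- The projective varieties of dimension `n` with a dominant rational map `c` to projective
`n`-space, such that the ratios of the values of the linear forms `a i` are `m i`-th powers of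
rational functions, are of general type and pseudo-geometrically hyperbolic. -/
def CoversHyperbolic (a : Fin q → Fin (n + 1) → k) (m : Fin q → ℕ) : Prop :=
  ∀ (K : Type) [Field K] [Algebra k K], Algebra.trdeg k K = n → ∀ c : Fin (n + 1) → K, c 0 ≠ 0 →
    AlgebraicIndependent k (fun j : Fin n => c j.succ / c 0) → PowerRatios a m c →
    ∀ (N : ℕ) (y : Fin (N + 1) → K), y ≠ 0 → coords k y = ⊤ →
      GeneralType k K n ∧ PseudoGeomHyp k y

end Pool.Agent.Y216
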