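import Pool.Agent.Y216.RncB
import Pool.Agent.TH143.EL.Fld

/-!
The resultant of a squarefree polynomial without constant roots and its coefficientwise derivative,
over a differential field; binary forms with nonzero discriminant.
-/

set_option autoImplicit false

open Polynomial

namespace Pool.Agent.Y216

section general

variable {k : Type} [Field k] [IsAlgClosed k] {K : Type} [Field K] [Algebra k K] {n : ℕ}

/-- The resultant does not vanish. -/
theorem res_ne_zero' {D : Derivation k K K}
    (hconst : ∀ x, D x = 0 → ∃ c : k, x = algebraMap k K c) {f : Fin (n + 1) → K}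
    (hf : f (Fin.last n) ≠ 0) (hsq : Squarefree (pol f))
    (hroot : ∀ b : k, (pol f).eval (algebraMap k K b) ≠ 0) :
    resultant (pol f) (pol fun j => D (f j)) n n ≠ 0 := by
  intro h0
  have hlast : (pol f).coeff n ≠ 0 := by
    have h := coeff_pol f (Fin.last n)
    rw [Fin.val_last] at h
    rwa [h]
  have hdeg : (pol f).natDegree = n :=
    natDegree_eq_of_le_of_coeff_ne_zero (natDegree_pol_le f) hlast
  obtain ⟨d, hd⟩ := Nat.exists_eq_add_of_le (natDegree_pol_le fun j => D (f j))
  have h1 : resultant (pol f) (pol fun j => D (f j)) n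
      ((pol fun j => D (f j)).natDegree + d) = 0 := by
    rw [← hd]; exact h0
  rw [resultant_add_right_deg _ _ _ _ _ le_rfl] at h1
  have h2 := (mul_eq_zero.1 h1).resolve_left (pow_ne_zero _ hlast)
  have h3 : resultant (pol f) (pol fun j => D (f j)) = 0 := by
    rw [hdeg]; exact h2
  rw [resultant_eq_zero_iff] at h3
  have hF0 : pol f ≠ 0 := fun h => hlast (by rw [h, coeff_zero])
  apply h3.2
  refine isCoprime_of_irreducible_dvd (fun h => hF0 h.1) fun p hp hpF hpG => ?_
  -- a monic irreducible common factor
  obtain ⟨p', hp'⟩ : ∃ p', p' = C p.leadingCoeff⁻¹ * p := ⟨_, rfl⟩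
  have hlc : p.leadingCoeff ≠ 0 := leadingCoeff_ne_zero.2 hp.ne_zero
  have hmon : p'.Monic := by
    rw [hp', Monic, leadingCoeff_mul, leadingCoeff_C, inv_mul_cancel₀ hlc]
  have hu : IsUnit (C p.leadingCoeff⁻¹ : K[X]) := isUnit_C.2 (inv_ne_zero hlc).isUnit
  have hirr : Irreducible p' := by
    rw [hp']
    exact (irreducible_isUnit_mul hu).2 hp
  have hdF : p' ∣ pol f := by
    rw [hp']
    exact hu.mul_left_dvd.2 hpF
  have hdG : p' ∣ dco D (pol f) := by
    rw [dco_pol, hp']
    exact hu.mul_left_dvd.2 hpG
  obtain ⟨Q, hQ⟩ := hdF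
  rw [hQ, dco_mul] at hdG
  have h4 : p' ∣ dco D p' * Q := (dvd_add_left (dvd_mul_right _ _)).1 hdG
  have h5 : p' ∣ dco D p' := by
    rcases hirr.prime.dvd_or_dvd h4 with h | h
    · exact h
    · exfalso
      obtain ⟨Q', rfl⟩ := h
      have := hsq p' ⟨Q', by rw [hQ]; ring⟩
      exact hirr.not_isUnit this
  have h6 : dco D p' = 0 := by
    by_contra hne
    have h7 := natDegree_le_of_dvd h5 hne
    have h8 : (dco D p').coeff (dco D p').natDegree ≠ 0 := by
      rw [coeff_natDegree]
      exact leadingCoeff_ne_zero.2 hne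
    rw [coeff_dco] at h8
    apply h8
    rcases h7.lt_or_eq with h | h
    · rw [coeff_eq_zero_of_natDegree_lt h, map_zero]
    · rw [← h, coeff_natDegree, hmon.leadingCoeff, D.map_one_eq_zero]
  -- the factor has constant coefficients
  have h7 : ∀ i, ∃ c : k, p'.coeff i = algebraMap k K c := fun i => by
    have h := coeff_dco D p' i
    rw [h6, coeff_zero] at h
    exact hconst _ h.symm
  choose c hc using h7
  obtain ⟨p₀, hp₀⟩ : ∃ p₀ : k[X], p₀ = ∑ i ∈ Finset.range (p'.natDegree + 1), monomial i (c i) :=
    ⟨_, rfl⟩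
  have h8 : p₀.map (algebraMap k K) = p' := by
    rw [hp₀, Polynomial.map_sum]
    conv_rhs => rw [p'.as_sum_range]
    exact Finset.sum_congr rfl fun i _ => by rw [map_monomial, hc i]
  have h9 : p₀.degree ≠ 0 := by
    have h10 : p₀.degree = p'.degree := by
      rw [← h8, degree_map]
    rw [h10]
    exact hirr.degree_pos.ne'
  obtain ⟨b, hb⟩ := IsAlgClosed.exists_root p₀ h9
  apply hroot b
  rw [hQ, eval_mul, ← h8, eval_map_algebraMap, aeval_algebraMap_apply, coe_aeval_eq_eval,
    show eval b p₀ = 0 from hb, map_zero, zero_mul]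

end general

/-! ### the discriminant -/

section disc

variable {R : Type*} [CommRing R] {n : ℕ}

/-- the partial derivative with respect to `X` of the binary form `∑ f_l X ^ l Y ^ (n - l)` -/
def parX (f : Fin (n + 2) → R) (l : Fin (n + 1)) : R := (l + 1 : ℕ) * f l.succ

/-- the partial derivative with respect to `Y` of the binary form `∑ f_l X ^ l Y ^ (n - l)` -/
def parY (f : Fin (n + 2) → R) (l : Fin (n + 1)) : R := (n + 1 - l : ℕ) * f l.castSucc

/-- the discriminant of the binary form `∑ f_l X ^ l Y ^ (n + 1 - l)` of degree `n + 1`, up to a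
constant factor: the resultant of the partial derivatives -/
noncomputable def bdisc (f : Fin (n + 2) → R) : R := resultant (pol (parX f)) (pol (parY f)) n n

theorem map_bdisc {S : Type*} [CommRing S] (φ : R →+* S) (f : Fin (n + 2) → R) :
    φ (bdisc f) = bdisc fun j => φ (f j) := by
  unfold bdisc
  have h1 : (fun j => φ (parX f j)) = parX fun j => φ (f j) := by
    funext j
    unfold parX
    rw [map_mul, map_natCast]
  have h2 : (fun j => φ (parY f j)) = parY fun j => φ (f j) := by
    funext j
    unfold parY
    rw [map_mul, map_natCast]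
  rw [← h1, ← h2, ← map_pol, ← map_pol, resultant_map_map]

theorem pol_parX (f : Fin (n + 2) → R) : pol (parX f) = derivative (pol f) := by
  ext i
  rw [coeff_derivative]
  by_cases hi : i < n + 1
  · rw [coeff_pol_lt _ hi, coeff_pol_lt _ (by omega : i + 1 < n + 2)]
    unfold parX
    rw [mul_comm]
    push_cast
    rfl
  · rw [coeff_pol_ge _ (by omega), coeff_pol_ge _ (by omega), zero_mul]

theorem pol_parY (f : Fin (n + 2) → R) :
    pol (parY f) = C ((n + 1 : ℕ) : R) * pol f - X * derivative (pol f) := by
  ext i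
  rw [coeff_sub, coeff_C_mul]
  rcases i with _ | i
  · rw [coeff_X_mul_zero, sub_zero, coeff_pol_lt _ (by omega : 0 < n + 1),
      coeff_pol_lt _ (by omega : 0 < n + 2)]
    unfold parY
    simp
  · rw [coeff_X_mul, coeff_derivative]
    by_cases hi : i + 1 < n + 1
    · rw [coeff_pol_lt _ hi, coeff_pol_lt _ (by omega : i + 1 < n + 2)]
      unfold parY
      have h1 : ((n + 1 - (i + 1) : ℕ) : R) = (n + 1 : ℕ) - ((i : R) + 1) := by
        rw [Nat.cast_sub (by omega)]
        push_cast
        ring
      change ((n + 1 - (i + 1) : ℕ) : R) * _ = _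
      rw [h1]
      change ((n + 1 : ℕ) - ((i : R) + 1)) * f ⟨i + 1, _⟩ = _
      ring
    · rw [coeff_pol_ge _ (by omega)]
      by_cases hi' : i = n
      · subst hi'
        push_cast
        ring
      · rw [coeff_pol_ge _ (by omega)]
        ring

end disc

/-- A binary form with nonzero discriminant is squarefree. -/
theorem sqf_of_bdisc {K : Type} [Field K] {n : ℕ} {f : Fin (n + 2) → K}
    (hf : f ≠ 0) (h : bdisc f ≠ 0) : Squarefree (pol f) ∧ n ≤ (pol f).natDegree := by
  have hpf : pol f ≠ 0 := by
    intro h0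
    apply hf
    funext j
    rw [← coeff_pol f j, h0, coeff_zero]
    rfl
  rcases Nat.eq_zero_or_pos n with rfl | hn
  · refine ⟨?_, Nat.zero_le _⟩
    rintro p ⟨Q, hQ⟩
    have hp : p ≠ 0 := by
      rintro rfl
      exact hpf (by rw [hQ, zero_mul, zero_mul])
    have hQ0 : Q ≠ 0 := by
      rintro rfl
      exact hpf (by rw [hQ, mul_zero])
    have h1 : (pol f).natDegree = p.natDegree + p.natDegree + Q.natDegree := by
      rw [hQ, natDegree_mul (mul_ne_zero hp hp) hQ0, natDegree_mul hp hp]
    have h2 := natDegree_pol_le f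
    have h3 : p.natDegree = 0 := by omega
    rw [natDegree_eq_zero] at h3
    obtain ⟨c, rfl⟩ := h3
    exact isUnit_C.2 (isUnit_iff_ne_zero.2 fun h0 => hp (by rw [h0, C_0]))
  · have hXY : ∀ p : K[X], p * p ∣ pol f → p ∣ pol (parX f) ∧ p ∣ pol (parY f) := by
      rintro p ⟨Q, hQ⟩
      have h1 : p ∣ derivative (pol f) := by
        rw [hQ]
        refine ⟨derivative p * Q + derivative p * Q + p * derivative Q, ?_⟩
        rw [derivative_mul, derivative_mul]
        ring
      have h2 : p ∣ pol f := ⟨p * Q, by rw [hQ]; ring⟩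
      rw [pol_parX, pol_parY]
      exact ⟨h1, (h2.mul_left _).sub (h1.mul_left _)⟩
    constructor
    · intro p hp
      obtain ⟨h1, h2⟩ := hXY p hp
      obtain ⟨a, b, -, -, hab⟩ := exists_mul_add_mul_eq_C_resultant (m := n) (n := n)
        (pol (parX f)) (pol (parY f)) (natDegree_pol_le _) (natDegree_pol_le _)
        (Or.inl (by omega))
      have h3 : p ∣ C (bdisc f) := by
        have : C (bdisc f) = pol (parX f) * a + pol (parY f) * b := hab.symm
        rw [this]
        exact (h1.mul_right _).add (h2.mul_right _)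
      exact isUnit_of_dvd_unit h3 (isUnit_C.2 (isUnit_iff_ne_zero.2 h))
    · by_contra hcon
      push Not at hcon
      apply h
      apply resultant_eq_zero_of_lt_lt
      · rw [pol_parX]
        exact (natDegree_derivative_le _).trans_lt (by omega)
      · rw [pol_parY]
        refine (natDegree_sub_le _ _).trans_lt (max_lt ((natDegree_C_mul_le _ _).trans_lt hcon) ?_)
        by_cases hd : (pol f).natDegree = 0
        · rw [natDegree_eq_zero] at hd
          obtain ⟨c, hc⟩ := hd
          rw [← hc, derivative_C, mul_zero, natDegree_zero]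
          exact hn
        · refine natDegree_mul_le.trans_lt ?_
          have h4 := natDegree_derivative_le (pol f)
          have h5 := natDegree_X_le (R := K)
          omega

end Pool.Agent.Y216
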