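import Pool.Agent.Y216.Bw
import Pool.Agent.W603.PV.Main

/-!
Fields of general type: ramification over hyperplanes in general position.
-/

set_option autoImplicit false

open FF Pool.Agent.W603.LV Pool.Agent.W603.PV Pool.Agent.W602.GT

namespace Pool.Agent.Y216

variable {k : Type} [Field k] {n q : ℕ} {K : Type} [Field K] [Algebra k K]

/-- the value of the linear form with the coefficients `a` -/
noncomputable def lv (a : Fin (n + 1) → k) {M : Type} [Field M] [Algebra k M]
    (x : Fin (n + 1) → M) : M := ∑ j, algebraMap k M (a j) * x j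

theorem lv_scale (a : Fin (n + 1) → k) (c : K) (x : Fin (n + 1) → K) :
    lv a (fun j => c * x j) = c * lv a x := by
  unfold lv
  rw [Finset.mul_sum]
  exact Finset.sum_congr rfl fun j _ => by ring

theorem lv_ge {P : Place k K} {N : ℤ} (a : Fin (n + 1) → k) {x : Fin (n + 1) → K}
    (h : ∀ j, Ge P N (x j)) : Ge P N (lv a x) := by
  refine Ge.sum _ _ fun j _ => ?_
  simpa using (Ge.const (P := P) (a j)).mul (h j)

/-- `n + 1` independent linear forms generate the unit ideal -/
theorem ge_of_indep {P : Place k K} {N : ℤ} {A : Matrix (Fin (n + 1)) (Fin (n + 1)) k}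
    (hA : LinearIndependent k (fun i => A i)) {x : Fin (n + 1) → K}
    (h : ∀ i, Ge P N (lv (A i) x)) : ∀ j, Ge P N (x j) := by
  classical
  intro j
  have hu : IsUnit A := Matrix.linearIndependent_rows_iff_isUnit.1 hA
  have hdet : IsUnit A.det := (Matrix.isUnit_iff_isUnit_det A).1 hu
  have h1 : x j = ∑ i, algebraMap k K (A⁻¹ j i) * lv (A i) x := by
    unfold lv
    simp only [Finset.mul_sum]
    rw [Finset.sum_comm]
    have h2 : ∀ l, ∑ i, algebraMap k K (A⁻¹ j i) * (algebraMap k K (A i l) * x l) =
        algebraMap k K ((A⁻¹ * A) j l) * x l := by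
      intro l
      rw [Matrix.mul_apply, map_sum, Finset.sum_mul]
      refine Finset.sum_congr rfl fun i _ => ?_
      rw [map_mul]
      ring
    rw [Finset.sum_congr rfl fun l _ => h2 l, Matrix.nonsing_inv_mul _ hdet]
    rw [Finset.sum_eq_single j]
    · simp
    · intro b _ hb
      rw [Matrix.one_apply_ne hb.symm]
      simp
    · simp
  rw [h1]
  refine Ge.sum _ _ fun i _ => ?_
  simpa using (Ge.const (P := P) (A⁻¹ j i)).mul (h i)

theorem bw_indep (A : Matrix (Fin (n + 1)) (Fin (n + 1)) k) (D : Fin n → Derivation k K K)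
    (x : Fin (n + 1) → K) : bw D (fun i => lv (A i) x) = algebraMap k K A.det * bw D x :=
  bw_lin A D x

/-- the forms -/
noncomputable def frm (a : Fin q → Fin (n + 1) → k) (M E : ℕ) (w : Fin q → ℕ)
    (c : Fin (n + 1) → K) (j : Fin (n + 1)) (D : Fin n → Derivation k K K) : K :=
  bw D c ^ M * (c 0 ^ E * c j) / ∏ i, lv (a i) c ^ w i

theorem frm_scale (a : Fin q → Fin (n + 1) → k) (M E : ℕ) (w : Fin q → ℕ)
    (hE : (n + 1) * M + (E + 1) = ∑ i, w i) (c : Fin (n + 1) → K) (j : Fin (n + 1))
    (D : Fin n → Derivation k K K) {t : K} (ht : t ≠ 0) :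
    frm a M E w (fun l => t * c l) j D = frm a M E w c j D := by
  unfold frm
  have h1 : ∏ i, lv (a i) (fun l => t * c l) ^ w i = t ^ (∑ i, w i) * ∏ i, lv (a i) c ^ w i := by
    rw [← Finset.prod_pow_eq_pow_sum, ← Finset.prod_mul_distrib]
    exact Finset.prod_congr rfl fun i _ => by rw [lv_scale, mul_pow]
  rw [h1, bw_scale, ← hE]
  have h2 : (t ^ (n + 1) * bw D c) ^ M * ((t * c 0) ^ E * (t * c j)) =
      t ^ ((n + 1) * M + (E + 1)) * (bw D c ^ M * (c 0 ^ E * c j)) := by
    rw [mul_pow, mul_pow t (c 0) E, ← pow_mul]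
    ring
  rw [h2]
  exact mul_div_mul_left _ _ (pow_ne_zero _ ht)

theorem one_le_of_ge {P : Place k K} {f : K} (hf : f ≠ 0) {N : ℤ} (h : Ge P N f) : N ≤ P.ord f :=
  h.resolve_left hf

/-- **General type.** -/
theorem gt_main [CharZero k] {a : Fin q → Fin (n + 1) → k}
    (ha : ∀ s : Fin (n + 1) → Fin q, Function.Injective s →
      LinearIndependent k (fun i => a (s i)))
    {m : Fin q → ℕ} (hm : ∀ i, 1 ≤ m i) (hsum : (n : ℝ) + 1 < ∑ i, (1 - 1 / (m i : ℝ)))
    (htr : Algebra.trdeg k K = n) {c : Fin (n + 1) → K} (hc0 : c 0 ≠ 0)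
    (hc : IsTranscendenceBasis k (fun j : Fin n => c j.succ / c 0))
    (hP : ∀ P : Place k K, Divisorial n P → ∀ i, pord P c < P.ord (lv (a i) c) →
      pord P c + m i ≤ P.ord (lv (a i) c)) : GeneralType k K n := by
  classical
  -- the number of hyperplanes
  have hq : n + 1 < q := by
    have h1 : ∑ i, (1 - 1 / (m i : ℝ)) ≤ ∑ i : Fin q, (1 : ℝ) :=
      Finset.sum_le_sum fun i _ => by
        have : (0 : ℝ) ≤ 1 / (m i : ℝ) := by positivity
        linarith
    rw [Finset.sum_const, Finset.card_univ, Fintype.card_fin, nsmul_eq_mul, mul_one] at h1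
    have h2 : ((n + 1 : ℕ) : ℝ) < (q : ℝ) := by
      push_cast
      linarith
    exact_mod_cast h2
  -- linear forms do not vanish at `c`
  have hlne : ∀ i, lv (a i) c ≠ 0 := by
    intro i h0
    -- `a i` is not zero
    obtain ⟨s, hs, hsi⟩ : ∃ s : Fin (n + 1) → Fin q, Function.Injective s ∧ s 0 = i := by
      let e : Fin (n + 1) → Fin q := fun l => ⟨l, by omega⟩
      have he : Function.Injective e := fun x y h => by
        have := congrArg Fin.val h
        exact Fin.ext this
      refine ⟨Equiv.swap (e 0) i ∘ e, (Equiv.injective _).comp he, ?_⟩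
      simp
    have hne : a i ≠ 0 := by
      have := (ha s hs).ne_zero 0
      simpa [hsi] using this
    -- the relation
    have h1 : algebraMap k K (a i 0) + ∑ j : Fin n, algebraMap k K (a i j.succ) *
        (c j.succ / c 0) = 0 := by
      have h2 : lv (a i) c = c 0 * (algebraMap k K (a i 0) +
          ∑ j : Fin n, algebraMap k K (a i j.succ) * (c j.succ / c 0)) := by
        unfold lv
        rw [Fin.sum_univ_succ, mul_add, Finset.mul_sum]
        congr 1
        · ring
        · refine Finset.sum_congr rfl fun j _ => ?_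
          field_simp
      rw [h2] at h0
      exact (mul_eq_zero.1 h0).resolve_left hc0
    have h3 := hc.1
    rw [algebraicIndependent_iff] at h3
    have h4 := h3 (MvPolynomial.C (a i 0) + ∑ j : Fin n, MvPolynomial.C (a i j.succ) *
      MvPolynomial.X j) (by
        rw [map_add, map_sum, MvPolynomial.aeval_C, ← h1]
        congr 1
        refine Finset.sum_congr rfl fun j _ => ?_
        rw [map_mul, MvPolynomial.aeval_C, MvPolynomial.aeval_X])
    apply hne
    funext l
    refine Fin.cases ?_ (fun j => ?_) l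
    · have h5 := congrArg (MvPolynomial.coeff 0) h4
      simpa [MvPolynomial.coeff_sum, MvPolynomial.coeff_C_mul] using h5
    · have h5 := congrArg (MvPolynomial.coeff (Finsupp.single j 1)) h4
      rw [MvPolynomial.coeff_add, MvPolynomial.coeff_sum, Finset.sum_eq_single j] at h5
      · rw [MvPolynomial.coeff_C_mul, MvPolynomial.coeff_X, MvPolynomial.coeff_C] at h5
        have h6 : ¬ (0 : Fin n →₀ ℕ) = Finsupp.single j 1 := by
          intro h
          have := congrArg (fun f => f j) h
          simp at this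
        rw [if_neg h6] at h5
        simpa using h5
      · intro b _ hb
        rw [MvPolynomial.coeff_C_mul, MvPolynomial.coeff_X, if_neg, mul_zero]
        intro h
        exact hb (Finsupp.single_left_injective one_ne_zero h)
      · simp
  -- the exponents
  obtain ⟨M, hMd⟩ : ∃ M, M = ∏ i, m i := ⟨_, rfl⟩
  have hM0 : 0 < M := by
    rw [hMd]
    exact Finset.prod_pos fun i _ => hm i
  have hdvd : ∀ i, m i ∣ M := fun i => hMd ▸ Finset.dvd_prod_of_mem m (Finset.mem_univ i)
  choose r hr using hdvd
  have hr0 : ∀ i, 1 ≤ r i := fun i => Nat.one_le_iff_ne_zero.2 fun h => by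
    rw [hr i, h, mul_zero] at hM0
    exact lt_irrefl _ hM0
  have hrM : ∀ i, r i ≤ M := fun i => by
    calc r i = 1 * r i := (one_mul _).symm
      _ ≤ m i * r i := Nat.mul_le_mul_right _ (hm i)
      _ = M := (hr i).symm
  have hwr : ∀ i, ((M - r i : ℕ) : ℝ) = M * (1 - 1 / (m i : ℝ)) := by
    intro i
    have h0 : (m i : ℝ) ≠ 0 := by
      have := hm i
      positivity
    rw [Nat.cast_sub (hrM i), hr i]
    push_cast
    field_simp
  obtain ⟨w, hw⟩ : ∃ w : Fin q → ℕ, w = fun i => M - r i := ⟨_, rfl⟩
  have hwsum : (n + 1) * M < ∑ i, w i := by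
    have h1 : ((∑ i, w i : ℕ) : ℝ) = M * ∑ i, (1 - 1 / (m i : ℝ)) := by
      rw [Nat.cast_sum, Finset.mul_sum]
      exact Finset.sum_congr rfl fun i _ => by rw [hw]; exact hwr i
    have h2 : (0 : ℝ) < M := by exact_mod_cast hM0
    have h3 : (((n + 1) * M : ℕ) : ℝ) < ((∑ i, w i : ℕ) : ℝ) := by
      rw [h1]
      push_cast
      nlinarith
    exact_mod_cast h3
  obtain ⟨E, hE⟩ : ∃ E, (n + 1) * M + (E + 1) = ∑ i, w i :=
    ⟨∑ i, w i - (n + 1) * M - 1, by omega⟩
  have hden : ∏ i, lv (a i) c ^ w i ≠ 0 :=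
    Finset.prod_ne_zero_iff.2 fun i _ => pow_ne_zero _ (hlne i)
  refine ⟨htr, M, hM0, frm a M E w c, fun j A D => ?_, fun P hPd j D hD => ?_, ?_⟩
  · unfold frm
    rw [bw_pluri, mul_pow, mul_assoc, mul_div_assoc]
  · -- normalization
    have hcne : ∃ j, c j ≠ 0 := ⟨0, hc0⟩
    set π := unif P with hπd
    have hπ : P.ord π = 1 := ord_unif P
    have hπ0 : π ≠ 0 := by
      intro h
      rw [h, P.ord_zero] at hπ; omega
    set t := π ^ (- pord P c) with ht
    have ht0 : t ≠ 0 := zpow_ne_zero _ hπ0
    have hto : P.ord t = - pord P c := by rw [ht, P.ord_zpow, hπ, mul_one]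
    rw [reg_iff_ge, ← frm_scale a M E w hE c j D ht0]
    set g : Fin (n + 1) → K := fun l => t * c l with hg
    have hg0 : ∀ l, Ge P 0 (g l) := by
      intro l
      have h1 := (ge_ord P t).mul (ge_pord P c l)
      rw [hto] at h1
      exact h1.mono (by omega)
    have hlg : ∀ i, lv (a i) g = t * lv (a i) c := fun i => lv_scale _ _ _
    have hlgne : ∀ i, lv (a i) g ≠ 0 := fun i => by
      rw [hlg]; exact mul_ne_zero ht0 (hlne i)
    have hlo : ∀ i, P.ord (lv (a i) g) = P.ord (lv (a i) c) - pord P c := fun i => by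
      rw [hlg, P.ord_mul ht0 (hlne i), hto]; ring
    have hlge : ∀ i, 0 ≤ P.ord (lv (a i) g) := fun i =>
      one_le_of_ge (hlgne i) (lv_ge (a i) hg0)
    have hmult : ∀ i, 0 < P.ord (lv (a i) g) → (m i : ℤ) ≤ P.ord (lv (a i) g) := by
      intro i h
      have h1 := hP P hPd i (by rw [hlo] at h; omega)
      rw [hlo]; omega
    -- the set of the hyperplanes through the centre
    set J : Finset (Fin q) := Finset.univ.filter fun i => 0 < P.ord (lv (a i) g) with hJ
    have hJcard : J.card ≤ n := by
      by_contra hcon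
      push Not at hcon
      obtain ⟨T, hTJ, hTc⟩ := Finset.exists_subset_card_eq (s := J) (n := n + 1) hcon
      let e : Fin (n + 1) ≃ T := (Fintype.equivFinOfCardEq (by simpa using hTc)).symm
      have h1 := ge_of_indep (P := P) (N := 1) (A := fun i => a (e i : Fin q)) (x := g)
        (ha (fun i => (e i : Fin q)) (fun x y h => e.injective (Subtype.ext h))) (fun i => by
          right
          have h2 : (e i : Fin q) ∈ J := hTJ (e i).2
          have h3 := (Finset.mem_filter.1 h2).2
          omega)
      obtain ⟨l, hl, hlo'⟩ := exists_pord P hcne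
      have h2 := (h1 l).resolve_left (mul_ne_zero ht0 hl)
      rw [hg] at h2
      simp only at h2
      rw [P.ord_mul ht0 hl, hto, hlo'] at h2
      omega
    obtain ⟨T, hJT, hTc⟩ := Finset.exists_superset_card_eq (s := J) (n := n + 1) (by omega)
      (by rw [Fintype.card_fin]; omega)
    let e : Fin (n + 1) ≃ T := (Fintype.equivFinOfCardEq (by simpa using hTc)).symm
    have hinj : Function.Injective fun i => (e i : Fin q) :=
      fun x y h => e.injective (Subtype.ext h)
    have hind := ha (fun i => (e i : Fin q)) hinj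
    have hsumT : ∑ l, P.ord (lv (a (e l)) g) = ∑ i, P.ord (lv (a i) g) := by
      rw [Equiv.sum_comp e (fun i : T => P.ord (lv (a i) g)),
        Finset.sum_coe_sort T (fun i => P.ord (lv (a i) g))]
      refine Finset.sum_subset (Finset.subset_univ _) fun i _ hi => ?_
      have h1 : i ∉ J := fun h => hi (hJT h)
      have h2 : ¬ 0 < P.ord (lv (a i) g) := fun h => h1 (Finset.mem_filter.2
        ⟨Finset.mem_univ _, h⟩)
      have := hlge i
      omega
    set A : Matrix (Fin (n + 1)) (Fin (n + 1)) k := fun i => a (e i : Fin q) with hA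
    have hdet : A.det ≠ 0 := by
      have hu : IsUnit A := Matrix.linearIndependent_rows_iff_isUnit.1 hind
      exact ((Matrix.isUnit_iff_isUnit_det A).1 hu).ne_zero
    have hdet' : algebraMap k K A.det ≠ 0 := (map_ne_zero _).2 hdet
    have hbw : Ge P ((∑ i, P.ord (lv (a i) g)) - 1) (bw D g) := by
      have h1 := bw_ge P D (fun i => lv (A i) g) hD (fun i => hlgne _)
      rw [bw_indep] at h1
      have h2 : ∑ i, P.ord (lv (A i) g) = ∑ i, P.ord (lv (a i) g) := hsumT
      rw [h2] at h1
      have h3 := Ge.of_mul hdet' h1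
      rwa [P.ord_const hdet, sub_zero] at h3
    have hbw0 : Ge P 0 (bw D g) := bw_reg P D g hD hg0
    -- conclusion
    have hprod : P.ord (∏ i, lv (a i) g ^ w i) = ∑ i, w i * P.ord (lv (a i) g) := by
      rw [ord_prod' P _ _ (fun i _ => pow_ne_zero _ (hlgne i))]
      exact Finset.sum_congr rfl fun i _ => P.ord_pow _ _
    have hprodne : ∏ i, lv (a i) g ^ w i ≠ 0 :=
      Finset.prod_ne_zero_iff.2 fun i _ => pow_ne_zero _ (hlgne i)
    have hcoef : Ge P 0 (g 0 ^ E * g j) := by
      have := ((hg0 0).pow E).mul (hg0 j)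
      simpa using this
    have key : Ge P (∑ i, w i * P.ord (lv (a i) g)) (bw D g ^ M) := by
      by_cases hJe : J = ∅
      · have h1 : ∀ i, P.ord (lv (a i) g) = 0 := by
          intro i
          have h2 : i ∉ J := by rw [hJe]; simp
          have h3 : ¬ 0 < P.ord (lv (a i) g) := fun h => h2 (Finset.mem_filter.2
            ⟨Finset.mem_univ _, h⟩)
          have := hlge i
          omega
        simp only [h1, mul_zero, Finset.sum_const_zero]
        simpa using hbw0.pow M
      · obtain ⟨i0, hi0⟩ := Finset.nonempty_iff_ne_empty.2 hJe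
        have hi0' := (Finset.mem_filter.1 hi0).2
        refine (hbw.pow M).mono ?_
        have h1 : ∀ i, (w i : ℤ) = M - r i := fun i => by
          rw [hw]
          push_cast [Nat.cast_sub (hrM i)]
          rfl
        have h2 : ∑ i, (w i : ℤ) * P.ord (lv (a i) g) =
            M * ∑ i, P.ord (lv (a i) g) - ∑ i, (r i : ℤ) * P.ord (lv (a i) g) := by
          rw [Finset.mul_sum, ← Finset.sum_sub_distrib]
          exact Finset.sum_congr rfl fun i _ => by rw [h1]; ring
        rw [h2, mul_sub, mul_one]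
        have h3 : (r i0 : ℤ) * P.ord (lv (a i0) g) ≤ ∑ i, (r i : ℤ) * P.ord (lv (a i) g) :=
          Finset.single_le_sum (f := fun i => (r i : ℤ) * P.ord (lv (a i) g))
            (fun i _ => mul_nonneg (by positivity) (hlge i)) (Finset.mem_univ i0)
        have h4 : (M : ℤ) = m i0 * r i0 := by exact_mod_cast hr i0
        have h5 := hmult i0 hi0'
        have h6 : (m i0 : ℤ) * r i0 ≤ r i0 * P.ord (lv (a i0) g) := by
          rw [mul_comm]
          exact mul_le_mul_of_nonneg_left h5 (by positivity)
        linarith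
    unfold frm
    have h1 := ge_div hprodne (key.mul hcoef)
    rw [hprod] at h1
    simpa using h1
  · obtain ⟨D, hD⟩ := bw_ne c hc0 hc
    have hne : frm a M E w c 0 D ≠ 0 := by
      unfold frm
      exact div_ne_zero (mul_ne_zero (pow_ne_zero _ hD) (mul_ne_zero (pow_ne_zero _ hc0) hc0)) hden
    refine ⟨D, hne, ?_⟩
    have h1 : (fun i : Fin n => frm a M E w c i.succ D / frm a M E w c 0 D) =
        fun j : Fin n => c j.succ / c 0 := by
      funext i
      rw [div_eq_iff hne]
      unfold frm
      field_simp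
    rw [h1]
    exact hc.1

end Pool.Agent.Y216
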