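import Pool.Agent.Y216.Point
import Pool.Agent.W603.PV.Abs

/-!
Specialisation of the relations between finitely many rational functions on a projective variety to
the points of the variety with coordinates in a field, and heights.
-/

set_option autoImplicit false

open FF MvPolynomial Pool.Agent.W603.LV Pool.Agent.W603.PV
open Pool.Agent.W602.GT (val IsForm coords val_smul val_mul)

namespace Pool.Agent.Y216

variable {k : Type} [Field k] {N : ℕ}

/-- homogenization -/
theorem exists_hom (P : MvPolynomial (Fin (N + 1)) k) (j0 : Fin (N + 1)) :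
    ∃ (H : MvPolynomial (Fin (N + 1)) k) (d : ℕ), H.IsHomogeneous d ∧
      ∀ (M : Type) [Field M] [Algebra k M] (z : Fin (N + 1) → M), z j0 ≠ 0 →
        val z H = z j0 ^ d * aeval (fun i => z i / z j0) P := by
  classical
  refine ⟨∑ e ∈ Finset.range (P.totalDegree + 1),
    X j0 ^ (P.totalDegree - e) * homogeneousComponent e P, P.totalDegree, ?_, ?_⟩
  · refine IsHomogeneous.sum _ _ _ fun e he => ?_
    have h1 := ((isHomogeneous_X k j0).pow (P.totalDegree - e)).mul
      (homogeneousComponent_isHomogeneous e P)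
    have h2 : 1 * (P.totalDegree - e) + e = P.totalDegree := by
      rw [Finset.mem_range] at he
      omega
    rwa [h2] at h1
  · intro M _ _ z hz
    have h1 : aeval (fun i => z i / z j0) P = ∑ e ∈ Finset.range (P.totalDegree + 1),
        val (fun i => z i / z j0) (homogeneousComponent e P) := by
      conv_lhs => rw [← sum_homogeneousComponent P, map_sum]
      rfl
    rw [h1]
    unfold Pool.Agent.W602.GT.val
    rw [map_sum, Finset.mul_sum]
    refine Finset.sum_congr rfl fun e he => ?_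
    rw [map_mul, map_pow, aeval_X]
    have h2 : (z : Fin (N + 1) → M) = fun i => z j0 * (z i / z j0) := by
      funext i
      field_simp
    have h3 := val_smul (homogeneousComponent_isHomogeneous e P) (z j0) (fun i => z i / z j0)
    rw [← h2] at h3
    unfold Pool.Agent.W602.GT.val at h3
    rw [h3]
    have h4 : z j0 ^ P.totalDegree = z j0 ^ (P.totalDegree - e) * z j0 ^ e := by
      rw [← pow_add]
      congr 1
      rw [Finset.mem_range] at he
      omega
    rw [h4]
    ring

/-- polynomial relations between the affine coordinates hold at the points -/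
theorem rel_affine {K : Type} [Field K] [Algebra k K] {y : Fin (N + 1) → K} {j0 : Fin (N + 1)}
    (hj0 : y j0 ≠ 0) {L : Type} [Field L] [Algebra k L] {f : Fin (N + 1) → L}
    (hf : OnVar k y f) (hfj : f j0 ≠ 0) (P : MvPolynomial (Fin (N + 1)) k)
    (h : aeval (fun i => y i / y j0) P = 0) : aeval (fun i => f i / f j0) P = 0 := by
  obtain ⟨H, d, hH, hH'⟩ := exists_hom P j0
  have h1 : val y H = 0 := by rw [hH' K y hj0, h, mul_zero]
  have h2 := hf.2 H ⟨d, hH⟩ h1
  rw [hH' L f hfj] at h2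
  exact (mul_eq_zero.1 h2).resolve_left (pow_ne_zero _ hfj)

/-- clearing denominators in a polynomial in fractions -/
theorem exists_clear {ι σ : Type} [Fintype ι] (F : MvPolynomial (ι ⊕ σ) k)
    (r s : ι → MvPolynomial σ k) : ∃ (Q : MvPolynomial σ k) (D : ℕ),
      ∀ (M : Type) [Field M] [Algebra k M] (z : σ → M), (∀ i, aeval z (s i) ≠ 0) →
        aeval z Q = (∏ i, aeval z (s i)) ^ D *
          aeval (Sum.elim (fun i => aeval z (r i) / aeval z (s i)) z) F := by
  classical
  induction F using MvPolynomial.induction_on with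
  | C a =>
    refine ⟨C a, 0, fun M _ _ z hz => ?_⟩
    simp
  | add p q hp hq =>
    obtain ⟨Q1, D1, h1⟩ := hp
    obtain ⟨Q2, D2, h2⟩ := hq
    refine ⟨(∏ i, s i) ^ D2 * Q1 + (∏ i, s i) ^ D1 * Q2, D1 + D2, fun M _ _ z hz => ?_⟩
    rw [map_add, map_mul, map_mul, map_pow, map_pow, map_prod, h1 M z hz, h2 M z hz, map_add]
    ring
  | mul_X p i hp =>
    obtain ⟨Q1, D1, h1⟩ := hp
    cases i with
    | inl i =>
      refine ⟨Q1 * r i * ∏ j ∈ Finset.univ.erase i, s j, D1 + 1, fun M _ _ z hz => ?_⟩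
      rw [map_mul, map_mul, h1 M z hz, map_mul, aeval_X, Sum.elim_inl, map_prod, pow_succ,
        ← Finset.mul_prod_erase Finset.univ (fun j => aeval z (s j)) (Finset.mem_univ i)]
      have := hz i
      field_simp
    | inr i =>
      refine ⟨Q1 * X i, D1, fun M _ _ z hz => ?_⟩
      rw [map_mul, h1 M z hz, map_mul, aeval_X, aeval_X, Sum.elim_inr]
      ring

/-- **Specialisation.** -/
theorem exists_spec {K : Type} [Field K] [Algebra k K] {y : Fin (N + 1) → K} {j0 : Fin (N + 1)}
    (hj0 : y j0 ≠ 0) (hgen : coords k y = ⊤) {ι : Type} [Finite ι] (T : ι → K) :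
    ∃ G : MvPolynomial (Fin (N + 1)) k, IsForm G ∧ val y G ≠ 0 ∧
      ∀ (L : Type) [Field L] [Algebra k L] (f : Fin (N + 1) → L), OnVar k y f → val f G ≠ 0 →
        f j0 ≠ 0 ∧ ∃ τ : ι → L, ∀ F : MvPolynomial (ι ⊕ Fin (N + 1)) k,
          aeval (Sum.elim T fun i => y i / y j0) F = 0 →
            aeval (Sum.elim τ fun i => f i / f j0) F = 0 := by
  classical
  have := Fintype.ofFinite ι
  have htop : IntermediateField.adjoin k (Set.range fun i => y i / y j0) = ⊤ := by
    rw [eq_top_iff, ← hgen]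
    unfold coords
    rw [IntermediateField.adjoin_le_iff]
    rintro z ⟨i, j, hj, rfl⟩
    have h1 : y i / y j = (y i / y j0) / (y j / y j0) := by field_simp
    rw [h1]
    exact div_mem (IntermediateField.subset_adjoin _ _ ⟨i, rfl⟩)
      (IntermediateField.subset_adjoin _ _ ⟨j, rfl⟩)
  have hT : ∀ i, ∃ r s : MvPolynomial (Fin (N + 1)) k, aeval (fun i => y i / y j0) s ≠ 0 ∧
      T i = aeval (fun i => y i / y j0) r / aeval (fun i => y i / y j0) s := by
    intro i
    have h1 : T i ∈ IntermediateField.adjoin k (Set.range fun i => y i / y j0) := by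
      rw [htop]; exact IntermediateField.mem_top
    rw [IntermediateField.mem_adjoin_range_iff] at h1
    obtain ⟨r, s, hrs⟩ := h1
    by_cases hs : aeval (fun i => y i / y j0) s = 0
    · refine ⟨0, 1, by simp, ?_⟩
      rw [hrs, hs, div_zero, map_zero, zero_div]
    · exact ⟨r, s, hs, hrs⟩
  choose r s hs hrs using hT
  obtain ⟨H, d, hH, hH'⟩ := exists_hom (∏ i, s i) j0
  refine ⟨X j0 * H, ⟨1 + d, (isHomogeneous_X k j0).mul hH⟩, ?_, ?_⟩
  · rw [val_mul, hH' K y hj0, map_prod]
    refine mul_ne_zero ?_ (mul_ne_zero (pow_ne_zero _ hj0)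
      (Finset.prod_ne_zero_iff.2 fun i _ => hs i))
    unfold Pool.Agent.W602.GT.val
    rwa [aeval_X]
  · intro L _ _ f hf hfG
    rw [val_mul] at hfG
    have hfj : f j0 ≠ 0 := by
      have := left_ne_zero_of_mul hfG
      unfold Pool.Agent.W602.GT.val at this
      rwa [aeval_X] at this
    have h2 := right_ne_zero_of_mul hfG
    rw [hH' L f hfj, map_prod] at h2
    have hs' : ∀ i, aeval (fun i => f i / f j0) (s i) ≠ 0 := fun i =>
      Finset.prod_ne_zero_iff.1 (right_ne_zero_of_mul h2) i (Finset.mem_univ i)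
    refine ⟨hfj, fun i => aeval (fun i => f i / f j0) (r i) / aeval (fun i => f i / f j0) (s i),
      fun F hF => ?_⟩
    obtain ⟨Q, D, hQ⟩ := exists_clear F r s
    have h3 : aeval (fun i => y i / y j0) Q = 0 := by
      rw [hQ K _ hs]
      have h4 : (fun i => aeval (fun i => y i / y j0) (r i) / aeval (fun i => y i / y j0) (s i)) =
          T := funext fun i => (hrs i).symm
      rw [h4, hF, mul_zero]
    have h4 := rel_affine hj0 hf hfj Q h3
    rw [hQ L _ hs'] at h4
    exact (mul_eq_zero.1 h4).resolve_left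
      (pow_ne_zero _ (Finset.prod_ne_zero_iff.2 fun i _ => hs' i))

section height

variable {n : ℕ}

/-- **From the image to the variety.** A linear bound for the heights of the images under a
generically finite map gives a linear bound for the heights of the points. The functions `T` are
specialised to the functions `τ`, and `T (c 0) : … : T (c n)` is the map. -/
theorem curveBound_of [IsAlgClosed k] [CharZero k] {K : Type} [Field K] [Algebra k K]
    {y : Fin (N + 1) → K} (hy : y ≠ 0) (hgen : coords k y = ⊤) {ι : Type} [Finite ι] (T : ι → K)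
    (c : Fin (n + 1) → ι) (hc0 : T (c 0) ≠ 0)
    (halg : ∀ η : K, IsAlgebraic (IntermediateField.adjoin k
      (Set.range fun j => T (c j) / T (c 0))) η) (B0 : ℕ)
    (hineq : ∀ (L : Type) [Field L] [Algebra k L] [IsFF k L] (τ : ι → L),
      (∀ F : MvPolynomial ι k, aeval T F = 0 → aeval τ F = 0) →
        pht k (fun j => τ (c j)) ≤ B0 * max (canDeg k L) 0) : CurveBound k y := by
  classical
  obtain ⟨j0, hj0⟩ := Function.ne_iff.1 hy
  have hj0 : y j0 ≠ 0 := hj0
  obtain ⟨ξ, hξ⟩ : ∃ ξ : Fin (n + 1) → K, ξ = fun j => T (c j) / T (c 0) := ⟨_, rfl⟩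
  have hrel : ∀ i : Fin (N + 1), ∃ (D : ℕ) (p : ℕ → MvPolynomial (Fin (n + 1)) k),
      aeval ξ (p D) ≠ 0 ∧ ∑ d ∈ Finset.range (D + 1), aeval ξ (p d) * (y i / y j0) ^ d = 0 := by
    intro i
    rw [hξ]
    exact exists_rel' _ _ (halg _)
  choose D p hp0 hp using hrel
  -- the family of functions
  let κ : Type := ι ⊕ (Fin (n + 1) ⊕ (Unit ⊕ Fin (N + 1)))
  let T' : κ → K := Sum.elim T (Sum.elim ξ (Sum.elim (fun _ => (T (c 0))⁻¹)
    fun i => (aeval ξ (p i (D i)))⁻¹))
  obtain ⟨G, hG, hGy, hspec⟩ := exists_spec hj0 hgen T'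
  obtain ⟨C1, hC1⟩ : ∃ C1 : ℕ, C1 = ∑ i, ∑ d ∈ Finset.range (D i + 1), (p i d).totalDegree :=
    ⟨_, rfl⟩
  refine ⟨G, hG, hGy, C1 * (n + 1) * B0, fun L _ _ _ f hf hfG => ?_⟩
  obtain ⟨hfj, τ', hτ'⟩ := hspec L f hf hfG
  -- the inclusions of the variables
  let iT : ι → κ ⊕ Fin (N + 1) := fun i => Sum.inl (Sum.inl i)
  let iξ : Fin (n + 1) → κ ⊕ Fin (N + 1) := fun j => Sum.inl (Sum.inr (Sum.inl j))
  let iu : κ ⊕ Fin (N + 1) := Sum.inl (Sum.inr (Sum.inr (Sum.inl ())))
  let iv : Fin (N + 1) → κ ⊕ Fin (N + 1) := fun i => Sum.inl (Sum.inr (Sum.inr (Sum.inr i)))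
  let iy : Fin (N + 1) → κ ⊕ Fin (N + 1) := fun i => Sum.inr i
  let TT : κ ⊕ Fin (N + 1) → K := Sum.elim T' fun i => y i / y j0
  let tt : κ ⊕ Fin (N + 1) → L := Sum.elim τ' fun i => f i / f j0
  have htt : ∀ F : MvPolynomial (κ ⊕ Fin (N + 1)) k, aeval TT F = 0 → aeval tt F = 0 := hτ'
  obtain ⟨τ, hτd⟩ : ∃ τ : ι → L, τ = fun i => tt (iT i) := ⟨_, rfl⟩
  obtain ⟨ζ, hζd⟩ : ∃ ζ : Fin (n + 1) → L, ζ = fun j => tt (iξ j) := ⟨_, rfl⟩
  have hτ : ∀ F : MvPolynomial ι k, aeval T F = 0 → aeval τ F = 0 := by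
    intro F hF
    have h1 := htt (rename iT F) (by
      rw [aeval_rename]
      exact hF)
    rw [aeval_rename] at h1
    rw [hτd]
    exact h1
  have hcu : τ (c 0) * tt iu = 1 := by
    have h1 := htt (X (iT (c 0)) * X iu - 1) (by
      rw [map_sub, map_mul, aeval_X, aeval_X, map_one]
      change T (c 0) * (T (c 0))⁻¹ - 1 = 0
      rw [mul_inv_cancel₀ hc0, sub_self])
    rw [map_sub, map_mul, aeval_X, aeval_X, map_one] at h1
    rw [hτd]
    exact sub_eq_zero.1 h1
  have hτ0 : τ (c 0) ≠ 0 := left_ne_zero_of_mul_eq_one hcu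
  have hζ : ∀ j, ζ j = τ (c j) / τ (c 0) := by
    intro j
    have h1 := htt (X (iξ j) * X (iT (c 0)) - X (iT (c j))) (by
      rw [map_sub, map_mul, aeval_X, aeval_X, aeval_X]
      change ξ j * T (c 0) - T (c j) = 0
      rw [hξ]
      simp only
      rw [div_mul_cancel₀ _ hc0, sub_self])
    rw [map_sub, map_mul, aeval_X, aeval_X, aeval_X] at h1
    rw [eq_div_iff hτ0, hζd, hτd]
    exact sub_eq_zero.1 h1
  have hζp : ∀ q : MvPolynomial (Fin (n + 1)) k, aeval tt (rename iξ q) = aeval ζ q := by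
    intro q
    rw [aeval_rename, hζd]
    rfl
  have hξp : ∀ q : MvPolynomial (Fin (n + 1)) k, aeval TT (rename iξ q) = aeval ξ q := by
    intro q
    rw [aeval_rename]
    rfl
  have hlead : ∀ i, aeval ζ (p i (D i)) ≠ 0 := by
    intro i
    have h1 := htt (rename iξ (p i (D i)) * X (iv i) - 1) (by
      rw [map_sub, map_mul, hξp, aeval_X, map_one]
      change aeval ξ (p i (D i)) * (aeval ξ (p i (D i)))⁻¹ - 1 = 0
      rw [mul_inv_cancel₀ (hp0 i), sub_self])
    rw [map_sub, map_mul, hζp, aeval_X, map_one] at h1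
    exact left_ne_zero_of_mul_eq_one (sub_eq_zero.1 h1)
  have hroot : ∀ i, ∑ d ∈ Finset.range (D i + 1), aeval ζ (p i d) * (f i / f j0) ^ d = 0 := by
    intro i
    have h1 := htt (∑ d ∈ Finset.range (D i + 1), rename iξ (p i d) * X (iy i) ^ d) (by
      rw [map_sum, ← hp i]
      refine Finset.sum_congr rfl fun d _ => ?_
      rw [map_mul, map_pow, hξp, aeval_X]
      rfl)
    rw [map_sum] at h1
    rw [← h1]
    refine Finset.sum_congr rfl fun d _ => ?_
    rw [map_mul, map_pow, hζp, aeval_X]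
    rfl
  -- heights
  obtain ⟨H, hHd⟩ : ∃ H : ℤ, H = pht k (fun j => τ (c j)) := ⟨_, rfl⟩
  have hH := hineq L τ hτ
  rw [← hHd] at hH
  have hH0 : 0 ≤ H := by
    rw [hHd]
    refine (hgt_nonneg (k := k) _).trans
      (Pool.Agent.W603.CX.hgt_le_pht (k := k) (fun j => τ (c j)) (j := 0) (l := 0) hτ0 hτ0)
  have hζh : ∀ j, hgt k (ζ j) ≤ H := by
    intro j
    rw [hζ]
    by_cases h0 : τ (c j) = 0
    · rw [h0, zero_div, hgt_algebraic (k := k) (K := L) (f := 0) isAlgebraic_zero]
      exact hH0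
    · rw [hHd]
      exact Pool.Agent.W603.CX.hgt_le_pht (k := k) (fun j => τ (c j)) h0 hτ0
  have hsum : ∑ j, hgt k (ζ j) ≤ (n + 1) * H := by
    refine (Finset.sum_le_sum fun j _ => hζh j).trans ?_
    rw [Finset.sum_const, nsmul_eq_mul, Finset.card_univ, Fintype.card_fin]
    push_cast
    exact le_rfl
  have hpoly : ∀ q : MvPolynomial (Fin (n + 1)) k,
      hgt k (aeval ζ q) ≤ q.totalDegree * ((n + 1) * H) := by
    intro q
    have h1 := hgt_mvpolyF (k := k) ζ q
    have h2 : ∑ α ∈ q.support, hgt k (algebraMap k L (q.coeff α)) = 0 :=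
      Finset.sum_eq_zero fun α _ => hgt_algebraic (isAlgebraic_algebraMap _)
    rw [h2, add_zero] at h1
    exact h1.trans (mul_le_mul_of_nonneg_left hsum (by positivity))
  have hi : ∀ i, hgt k (f i / f j0) ≤
      (∑ d ∈ Finset.range (D i + 1), (p i d).totalDegree : ℕ) * ((n + 1) * H) := by
    intro i
    have h1 := hgt_root (k := k) (fun d => aeval ζ (p i d)) (hlead i) _ (hroot i)
    have h2 : hgt k (aeval ζ (p i (D i))) + ∑ d ∈ Finset.range (D i), hgt k (aeval ζ (p i d)) =
        ∑ d ∈ Finset.range (D i + 1), hgt k (aeval ζ (p i d)) := by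
      rw [Finset.sum_range_succ, add_comm]
    rw [h2] at h1
    refine h1.trans ((Finset.sum_le_sum fun d _ => hpoly (p i d)).trans (le_of_eq ?_))
    push_cast
    rw [Finset.sum_mul]
  have hfin : pht k f ≤ C1 * ((n + 1) * H) := by
    refine (pht_le (k := k) f hfj).trans ((Finset.sum_le_sum fun i _ => hi i).trans (le_of_eq ?_))
    rw [hC1]
    push_cast
    rw [Finset.sum_mul]
  refine hfin.trans ?_
  have h1 : (0 : ℤ) ≤ (C1 : ℤ) * (n + 1) := by positivity
  have h2 := mul_le_mul_of_nonneg_left hH h1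
  push_cast
  linarith

end height

end Pool.Agent.Y216
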