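import Pool.Agent.Y216.Defs
import Pool.Agent.Y216.GT
import Pool.Agent.Y216.Spec

/-!
Multiplicities along hyperplanes in general position, and the main reduction: from an inequality for
curves in projective space to general type and the finiteness of pointed maps.
-/

set_option autoImplicit false

open FF MvPolynomial Pool.Agent.W603.LV Pool.Agent.W603.PV Pool.Agent.W602.GT
open Pool.Agent.W602.RG

namespace Pool.Agent.Y216

variable {k : Type} [Field k] {n q : ℕ}

theorem lv_def {M : Type} [Field M] [Algebra k M] (a : Fin (n + 1) → k) (x : Fin (n + 1) → M) :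
    lv a x = ∑ l, algebraMap k M (a l) * x l := rfl

/-- the multiplicities -/
theorem mult_of_powers {a : Fin q → Fin (n + 1) → k} (ha : GenPos a) {m : Fin q → ℕ}
    {M : Type} [Field M] [Algebra k M] {c : Fin (n + 1) → M} (hc : ∃ j, c j ≠ 0)
    (hne : ∀ i, lv (a i) c ≠ 0) (hpow : PowerRatios a m c) (P : Place k M) (i : Fin q)
    (hi : pord P c < P.ord (lv (a i) c)) : pord P c + m i ≤ P.ord (lv (a i) c) := by
  classical
  obtain ⟨S, hiS, hSn, hS⟩ := hpow i
  -- one of the hyperplanes does not contain the centre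
  obtain ⟨j, hjS, hj⟩ : ∃ j ∈ S, P.ord (lv (a j) c) = pord P c := by
    by_contra hcon
    push Not at hcon
    have hge : ∀ j, pord P c ≤ P.ord (lv (a j) c) := fun j =>
      one_le_of_ge (hne j) (lv_ge (a j) fun l => ge_pord P c l)
    obtain ⟨T, hTS, hTc⟩ := Finset.exists_subset_card_eq (s := insert i S) (n := n + 1) (by
      rw [Finset.card_insert_of_notMem hiS]
      omega)
    let e : Fin (n + 1) ≃ T := (Fintype.equivFinOfCardEq (by simpa using hTc)).symm
    have h1 := ge_of_indep (P := P) (N := pord P c + 1) (A := fun i => a (e i : Fin q)) (x := c)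
      (ha (fun i => (e i : Fin q)) (fun x y h => e.injective (Subtype.ext h))) (fun l => by
        right
        have h2 : (e l : Fin q) ∈ insert i S := hTS (e l).2
        rcases Finset.mem_insert.1 h2 with h3 | h3
        · rw [h3]
          omega
        · have h4 := hcon _ h3
          have h5 := hge (e l : Fin q)
          omega)
    obtain ⟨l, hl, hlo⟩ := exists_pord P hc
    have h2 := (h1 l).resolve_left hl
    omega
  obtain ⟨z, hz⟩ := hS j hjS
  rw [← lv_def, ← lv_def] at hz
  have hz0 : z ^ m i ≠ 0 := by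
    intro h0
    apply hne i
    rw [hz, h0, zero_mul]
  have h1 : P.ord (lv (a i) c) = m i * P.ord z + pord P c := by
    rw [hz, P.ord_mul hz0 (hne j), P.ord_pow, hj]
  have h2 : 0 < (m i : ℤ) * P.ord z := by omega
  have h3 : 0 < P.ord z := by
    by_contra hcon
    push Not at hcon
    have := mul_nonpos_of_nonneg_of_nonpos (by positivity : (0 : ℤ) ≤ m i) hcon
    omega
  nlinarith [mul_le_mul_of_nonneg_left (show (1 : ℤ) ≤ P.ord z by omega)
    (by positivity : (0 : ℤ) ≤ (m i : ℤ))]

/-- The inequality for curves in projective space: the height of a curve whose intersection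
multiplicities with the hyperplanes `a i` are at least `m i`, and which is not contained in the
hypersurface `Δ = 0`, is at most `B * max (2 * g - 2) 0`. -/
def CurveIneq (a : Fin q → Fin (n + 1) → k) (m : Fin q → ℕ) (Δ : MvPolynomial (Fin (n + 1)) k)
    (B : ℕ) : Prop :=
  ∀ (L : Type) [Field L] [Algebra k L] [IsFF k L] (f : Fin (n + 1) → L), (∃ j, f j ≠ 0) →
    (∀ i, lv (a i) f ≠ 0) → aeval f Δ ≠ 0 →
    (∀ (P : Place k L) (i : Fin q), pord P f < P.ord (lv (a i) f) →
      pord P f + m i ≤ P.ord (lv (a i) f)) → pht k f ≤ B * max (canDeg k L) 0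

variable [IsAlgClosed k] [CharZero k]

/-- algebraically independent elements are not zeros of a nonzero form -/
theorem aeval_form_ne {K : Type} [Field K] [Algebra k K] {c : Fin (n + 1) → K} (hc0 : c 0 ≠ 0)
    (hc : AlgebraicIndependent k (fun j : Fin n => c j.succ / c 0))
    {Δ : MvPolynomial (Fin (n + 1)) k} (hΔ : Δ ≠ 0) {d : ℕ} (hd : Δ.IsHomogeneous d) :
    aeval c Δ ≠ 0 := by
  classical
  intro h0
  -- a point where the form does not vanish
  obtain ⟨D', hD'⟩ : ∃ P : MvPolynomial (Fin n) k, P = aeval (Fin.cases (1 : MvPolynomial (Fin n) k)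
    (fun j => X j)) Δ := ⟨_, rfl⟩
  have h1 : c = fun i => c 0 * (Fin.cases (1 : K) (fun j => c (Fin.succ j) / c 0) i : K) := by
    funext i
    refine Fin.cases ?_ (fun j => ?_) i
    · simp
    · simp only [Fin.cases_succ]
      field_simp
  have h2 : aeval (fun j : Fin n => c j.succ / c 0) D' = 0 := by
    rw [hD', ← AlgHom.comp_apply, comp_aeval]
    have h3 : (fun i => (aeval (fun j : Fin n => c j.succ / c 0) : MvPolynomial (Fin n) k →ₐ[k] K)
        ((Fin.cases (1 : MvPolynomial (Fin n) k) (fun j => X j) i : MvPolynomial (Fin n) k))) =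
        fun i => (Fin.cases (1 : K) (fun j => c (Fin.succ j) / c 0) i : K) := by
      funext i
      refine Fin.cases ?_ (fun j => ?_) i
      · simp
      · simp
    rw [h3]
    have h4 := val_smul hd (c 0) (fun i => (Fin.cases (1 : K) (fun j => c (Fin.succ j) / c 0) i : K))
    rw [← h1] at h4
    unfold Pool.Agent.W602.GT.val at h4
    rw [h0] at h4
    exact (mul_eq_zero.1 h4.symm).resolve_left (pow_ne_zero _ hc0)
  have h3 := (algebraicIndependent_iff.1 hc) _ h2
  apply hΔ
  -- all values vanish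
  have hinf : Infinite k := IsAlgClosed.instInfinite
  have h5 : ∀ z : Fin (n + 1) → k, z 0 ≠ 0 → eval z Δ = 0 := by
    intro z hz
    have h6 : z = fun i => z 0 * (Fin.cases (1 : k) (fun j => z (Fin.succ j) / z 0) i : k) := by
      funext i
      refine Fin.cases ?_ (fun j => ?_) i
      · simp
      · simp only [Fin.cases_succ]
        field_simp
    have h7 : eval (fun i => (Fin.cases (1 : k) (fun j => z (Fin.succ j) / z 0) i : k)) Δ = 0 := by
      have h8 : eval (fun j : Fin n => z j.succ / z 0) D' = 0 := by rw [h3, map_zero]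
      rw [hD'] at h8
      rw [← h8, ← MvPolynomial.aeval_eq_eval, ← MvPolynomial.aeval_eq_eval]
      change _ = (aeval (fun j : Fin n => z j.succ / z 0) : MvPolynomial (Fin n) k →ₐ[k] k) _
      rw [← AlgHom.comp_apply, comp_aeval]
      congr 2
      funext i
      refine Fin.cases ?_ (fun j => ?_) i
      · simp
      · simp
    have h9 := val_smul hd (z 0) (fun i => (Fin.cases (1 : k) (fun j => z (Fin.succ j) / z 0) i : k))
    rw [← h6] at h9
    unfold Pool.Agent.W602.GT.val at h9
    rw [MvPolynomial.aeval_eq_eval, MvPolynomial.aeval_eq_eval] at h9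
    change eval z Δ = z 0 ^ d * eval _ Δ at h9
    rw [h9, h7, mul_zero]
  have h6 : X 0 * Δ = 0 := by
    apply MvPolynomial.funext
    intro z
    rw [map_mul, eval_X, map_zero]
    by_cases hz : z 0 = 0
    · rw [hz, zero_mul]
    · rw [h5 z hz, mul_zero]
  exact (mul_eq_zero.1 h6).resolve_left (X_ne_zero 0)

theorem lv_form_ne {K : Type} [Field K] [Algebra k K] {c : Fin (n + 1) → K} (hc0 : c 0 ≠ 0)
    (hc : AlgebraicIndependent k (fun j : Fin n => c j.succ / c 0)) {a : Fin (n + 1) → k}
    (ha : a ≠ 0) : lv a c ≠ 0 := by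
  classical
  have h1 : (∑ j, C (a j) * X j : MvPolynomial (Fin (n + 1)) k).IsHomogeneous 1 :=
    IsHomogeneous.sum _ _ _ fun j _ => by
      simpa using (isHomogeneous_C (Fin (n + 1)) (a j)).mul (isHomogeneous_X k j)
  have h2 : (∑ j, C (a j) * X j : MvPolynomial (Fin (n + 1)) k) ≠ 0 := by
    intro h0
    apply ha
    funext l
    have h5 := congrArg (MvPolynomial.coeff (Finsupp.single l 1)) h0
    rw [MvPolynomial.coeff_sum, Finset.sum_eq_single l] at h5
    · rw [MvPolynomial.coeff_C_mul, MvPolynomial.coeff_X] at h5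
      simpa using h5
    · intro b _ hb
      rw [MvPolynomial.coeff_C_mul, MvPolynomial.coeff_X, if_neg, mul_zero]
      intro h
      exact hb (Finsupp.single_left_injective one_ne_zero h)
    · simp
  have h3 := aeval_form_ne hc0 hc h2 h1
  rw [map_sum] at h3
  unfold lv
  intro h0
  apply h3
  rw [← h0]
  exact Finset.sum_congr rfl fun j _ => by rw [map_mul, aeval_C, aeval_X]

/-- **The main reduction.** -/
theorem main_reduction {a : Fin q → Fin (n + 1) → k} (ha : GenPos a) {m : Fin q → ℕ}
    (hm : ∀ i, 1 ≤ m i) (hsum : (n : ℝ) + 1 < ∑ i, (1 - 1 / (m i : ℝ)))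
    {Δ : MvPolynomial (Fin (n + 1)) k} (hΔ : Δ ≠ 0) {d : ℕ} (hd : Δ.IsHomogeneous d) {B : ℕ}
    (hB : CurveIneq a m Δ B) {K : Type} [Field K] [Algebra k K] {N : ℕ} {y : Fin (N + 1) → K}
    (hy : y ≠ 0) (hgen : coords k y = ⊤) (htr : Algebra.trdeg k K = n) {c : Fin (n + 1) → K}
    (hc0 : c 0 ≠ 0) (hc : AlgebraicIndependent k (fun j : Fin n => c j.succ / c 0))
    (hpow : PowerRatios a m c) : GeneralType k K n ∧ PseudoGeomHyp k y := by
  classical
  -- the number of hyperplanes
  have hq : n + 1 < q := by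
    have h1 : ∑ i, (1 - 1 / (m i : ℝ)) ≤ ∑ i : Fin q, (1 : ℝ) :=
      Finset.sum_le_sum fun i _ => by
        have : (0 : ℝ) ≤ 1 / (m i : ℝ) := by positivity
        linarith
    rw [Finset.sum_const, Finset.card_univ, Fintype.card_fin, nsmul_eq_mul, mul_one] at h1
    have h2 : ((n + 1 : ℕ) : ℝ) < (q : ℝ) := by
      push_cast
      linarith
    exact_mod_cast h2
  have hane : ∀ i, a i ≠ 0 := by
    intro i
    obtain ⟨s, hs, hsi⟩ : ∃ s : Fin (n + 1) → Fin q, Function.Injective s ∧ s 0 = i := by
      let e : Fin (n + 1) → Fin q := fun l => ⟨l, by omega⟩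
      have he : Function.Injective e := fun x y h => by
        have := congrArg Fin.val h
        exact Fin.ext this
      refine ⟨Equiv.swap (e 0) i ∘ e, (Equiv.injective _).comp he, ?_⟩
      simp
    have := (ha s hs).ne_zero 0
    simpa [hsi] using this
  have hlne : ∀ i, lv (a i) c ≠ 0 := fun i => lv_form_ne hc0 hc (hane i)
  have hbasis : IsTranscendenceBasis k (fun j : Fin n => c j.succ / c 0) := by
    refine hc.isTranscendenceBasis_of_lift_trdeg_le_of_finite ?_
    rw [htr]
    simp
  have hcne : ∃ j, c j ≠ 0 := ⟨0, hc0⟩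
  refine ⟨gt_main ha hm hsum htr hc0 hbasis fun P _ i hi => mult_of_powers ha hcne hlne hpow P i hi,
    pointed_of_bound ?_⟩
  -- the functions
  have hΔc := aeval_form_ne hc0 hc hΔ hd
  choose S hS1 hS2 hS3 using hpow
  choose z hz using hS3
  let ι : Type := Fin (n + 1) ⊕ ((Σ i : Fin q, {j // j ∈ S i}) ⊕ (Unit ⊕ (Unit ⊕ Fin q)))
  let T : ι → K := Sum.elim c (Sum.elim (fun p => z p.1 p.2.1 p.2.2)
    (Sum.elim (fun _ => (c 0)⁻¹) (Sum.elim (fun _ => (aeval c Δ)⁻¹) fun i => (lv (a i) c)⁻¹)))
  refine curveBound_of hy hgen T (fun j => Sum.inl j) hc0 (fun η => ?_) B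
    fun L _ _ _ τ hτ => ?_
  · have h1 := hbasis.isAlgebraic_field
    have h2 : IntermediateField.adjoin k (Set.range fun j : Fin n => c j.succ / c 0) ≤
        IntermediateField.adjoin k (Set.range fun j : Fin (n + 1) => T (Sum.inl j) / T (Sum.inl 0)) := by
      apply IntermediateField.adjoin.mono
      rintro _ ⟨j, rfl⟩
      exact ⟨j.succ, rfl⟩
    have h3 : IsAlgebraic (IntermediateField.adjoin k (Set.range fun j : Fin n => c j.succ / c 0)) η :=
      h1.isAlgebraic η
    letI := (IntermediateField.inclusion h2).toAlgebra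
    haveI : IsScalarTower (IntermediateField.adjoin k (Set.range fun j : Fin n => c j.succ / c 0))
        (IntermediateField.adjoin k
          (Set.range fun j : Fin (n + 1) => T (Sum.inl j) / T (Sum.inl 0))) K :=
      IsScalarTower.of_algebraMap_eq fun _ => rfl
    exact h3.tower_top _
  · obtain ⟨f, hf⟩ : ∃ f : Fin (n + 1) → L, f = fun j => τ (Sum.inl j) := ⟨_, rfl⟩
    -- the values of polynomials
    have hcp : ∀ F : MvPolynomial (Fin (n + 1)) k, aeval T (rename Sum.inl F) = aeval c F := by
      intro F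
      rw [aeval_rename]
      rfl
    have hfp : ∀ F : MvPolynomial (Fin (n + 1)) k, aeval τ (rename Sum.inl F) = aeval f F := by
      intro F
      rw [aeval_rename, hf]
      rfl
    have hlp : ∀ {M : Type} [Field M] [Algebra k M] (b : Fin (n + 1) → k) (x : Fin (n + 1) → M),
        aeval x (∑ j, C (b j) * X j : MvPolynomial (Fin (n + 1)) k) = lv b x := by
      intro M _ _ b x
      rw [map_sum]
      exact Finset.sum_congr rfl fun j _ => by rw [map_mul, aeval_C, aeval_X]
    have hf0 : f 0 ≠ 0 := by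
      have h1 := hτ (X (Sum.inl 0) * X (Sum.inr (Sum.inr (Sum.inl ()))) - 1) (by
        rw [map_sub, map_mul, aeval_X, aeval_X, map_one]
        change c 0 * (c 0)⁻¹ - 1 = 0
        rw [mul_inv_cancel₀ hc0, sub_self])
      rw [map_sub, map_mul, aeval_X, aeval_X, map_one] at h1
      rw [hf]
      exact left_ne_zero_of_mul_eq_one (sub_eq_zero.1 h1)
    have hfΔ : aeval f Δ ≠ 0 := by
      have h1 := hτ (rename Sum.inl Δ * X (Sum.inr (Sum.inr (Sum.inr (Sum.inl ())))) - 1) (by
        rw [map_sub, map_mul, hcp, aeval_X, map_one]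
        change aeval c Δ * (aeval c Δ)⁻¹ - 1 = 0
        rw [mul_inv_cancel₀ hΔc, sub_self])
      rw [map_sub, map_mul, hfp, aeval_X, map_one] at h1
      exact left_ne_zero_of_mul_eq_one (sub_eq_zero.1 h1)
    have hfl : ∀ i, lv (a i) f ≠ 0 := by
      intro i
      have h1 := hτ (rename Sum.inl (∑ j, C (a i j) * X j) *
        X (Sum.inr (Sum.inr (Sum.inr (Sum.inr i)))) - 1) (by
        rw [map_sub, map_mul, hcp, hlp, aeval_X, map_one]
        change lv (a i) c * (lv (a i) c)⁻¹ - 1 = 0
        rw [mul_inv_cancel₀ (hlne i), sub_self])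
      rw [map_sub, map_mul, hfp, hlp, aeval_X, map_one] at h1
      exact left_ne_zero_of_mul_eq_one (sub_eq_zero.1 h1)
    have hfpow : PowerRatios a m f := by
      intro i
      refine ⟨S i, hS1 i, hS2 i, fun j hj => ⟨τ (Sum.inr (Sum.inl ⟨i, ⟨j, hj⟩⟩)), ?_⟩⟩
      have h1 := hτ (rename Sum.inl (∑ l, C (a i l) * X l) -
        X (Sum.inr (Sum.inl ⟨i, ⟨j, hj⟩⟩)) ^ m i * rename Sum.inl (∑ l, C (a j l) * X l)) (by
        rw [map_sub, map_mul, map_pow, hcp, hcp, hlp, hlp, aeval_X]
        change lv (a i) c - z i j hj ^ m i * lv (a j) c = 0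
        rw [lv_def, lv_def, ← hz i j hj, sub_self])
      rw [map_sub, map_mul, map_pow, hfp, hfp, hlp, hlp, aeval_X] at h1
      exact sub_eq_zero.1 h1
    have hfne : ∃ j, f j ≠ 0 := ⟨0, hf0⟩
    have h1 := hB L f hfne hfl hfΔ fun P i hi => mult_of_powers ha hfne hfl hfpow P i hi
    rw [hf] at h1
    exact h1

end Pool.Agent.Y216
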