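import Pool.Agent.Y216.EcA
import Pool.Agent.Y216.RncC
import Pool.Agent.W601.SM.Curve

/-!
The resultant of a family of binary forms and its derivative: pointwise bounds and vanishing orders.
-/

set_option autoImplicit false

open Polynomial

namespace Pool.Agent.Y216

open Pool.Agent.W601.SM (Ent dF det_diff norm_det_le le_order_det)

variable {n q : ℕ}

/-- the resultant of two binary forms of degree `n` -/
noncomputable def Rs {R : Type*} [CommRing R] (x y : Fin (n + 1) → R) : R :=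
  resultant (pol x) (pol y) n n

theorem Rs_smul {R : Type*} [CommRing R] (x y : Fin (n + 1) → R) (t : R) :
    Rs x (t • y) = Rs x y * t ^ n := by
  unfold Rs
  have h : (t • y) = fun j => t * y j := rfl
  rw [h, pol_smul, resultant_C_mul_right]
  ring

theorem Rs_shift {R : Type*} [CommRing R] (x y : Fin (n + 1) → R) (t : R) :
    Rs x (y + t • x) = Rs x y := by
  unfold Rs
  have h : (y + t • x) = fun j => y j + (fun j => t * x j) j := rfl
  rw [h, pol_add, pol_smul, mul_comm, resultant_add_mul_right _ _ _ _ _ (by simp)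
    (natDegree_pol_le x)]

/-- the evaluation matrix -/
noncomputable def Wm {R : Type*} [CommRing R] (u v : Fin q → R) (σ : Fin (n + n) → Fin q) :
    Matrix (Fin (n + n)) (Fin (n + n)) R :=
  Matrix.projVandermonde (fun r => v (σ r)) (fun r => u (σ r))

/-- the matrix of the values -/
def Mm {R : Type*} [CommRing R] (u v : Fin q → R) (σ : Fin (n + n) → Fin q)
    (x y : Fin (n + 1) → R) : Matrix (Fin (n + n)) (Fin (n + n)) R :=
  Matrix.of fun r c => Fin.addCases (motive := fun _ => R)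
    (fun j : Fin n => v (σ r) ^ (j : ℕ) * u (σ r) ^ (n - 1 - j) * bev (u (σ r)) (v (σ r)) y)
    (fun j : Fin n => v (σ r) ^ (j : ℕ) * u (σ r) ^ (n - 1 - j) * bev (u (σ r)) (v (σ r)) x) c

theorem Wm_mul {R : Type*} [CommRing R] (u v : Fin q → R) (σ : Fin (n + n) → Fin q)
    (x y : Fin (n + 1) → R) :
    Wm u v σ * sylvester (pol x) (pol y) n n = Mm u v σ x y := by
  ext r c
  rw [Matrix.mul_apply]
  have hrow : ∀ i, Wm u v σ r i = v (σ r) ^ (i : ℕ) *
      u (σ r) ^ ((Fin.rev i : Fin (n + n)) : ℕ) := fun i => by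
    unfold Wm
    rw [Matrix.projVandermonde_apply]
  simp only [hrow]
  induction c using Fin.addCases with
  | left j =>
    rw [row_left, Mm, Matrix.of_apply, Fin.addCases_left]
  | right j =>
    rw [row_right, Mm, Matrix.of_apply, Fin.addCases_right]

theorem Wm_det {R : Type*} [CommRing R] (u v : Fin q → R) (σ : Fin (n + n) → Fin q)
    (x y : Fin (n + 1) → R) : (Wm u v σ).det * Rs x y = (Mm u v σ x y).det := by
  rw [← Wm_mul, Matrix.det_mul]
  rfl

theorem Wm_ne {K : Type*} [Field K] {u v : Fin q → K}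
    (huv : ∀ i j, i ≠ j → u i * v j ≠ u j * v i) {σ : Fin (n + n) → Fin q}
    (hσ : Function.Injective σ) : (Wm u v σ).det ≠ 0 :=
  projVandermonde_ne fun i j hij => by
    have := huv (σ i) (σ j) fun h => hij (hσ h)
    rwa [mul_comm, mul_comm (v (σ i))]

/-- the value of the `i`-th linear form -/
def evi (u v : Fin q → ℂ) (i : Fin q) (x : Fin (n + 1) → ℂ) : ℂ := bev (u i) (v i) x

theorem evi_eq (u v : Fin q → ℂ) (i : Fin q) (x : Fin (n + 1) → ℂ) :
    evi u v i x = ∑ l, rnc n u v i l * x l := rfl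

theorem evi_add (u v : Fin q → ℂ) (i : Fin q) (x y : Fin (n + 1) → ℂ) :
    evi u v i (x + y) = evi u v i x + evi u v i y := by
  simp only [evi_eq, Pi.add_apply, mul_add, Finset.sum_add_distrib]

theorem evi_smul (u v : Fin q → ℂ) (i : Fin q) (t : ℂ) (x : Fin (n + 1) → ℂ) :
    evi u v i (t • x) = t * evi u v i x := by
  simp only [evi_eq, Pi.smul_apply, smul_eq_mul, Finset.mul_sum]
  exact Finset.sum_congr rfl fun l _ => by ring

/-- the inverse of the evaluation at `n + 1` points -/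
theorem evi_inv {u v : Fin q → ℂ} (huv : ∀ i j, i ≠ j → u i * v j ≠ u j * v i)
    {σ : Fin (n + 1) → Fin q} (hσ : Function.Injective σ) :
    ∃ B : Matrix (Fin (n + 1)) (Fin (n + 1)) ℂ, ∀ x : Fin (n + 1) → ℂ, ∀ j,
      x j = ∑ r, B j r * evi u v (σ r) x := by
  classical
  obtain ⟨A, hA⟩ : ∃ A : Matrix (Fin (n + 1)) (Fin (n + 1)) ℂ, A = fun r => rnc n u v (σ r) :=
    ⟨_, rfl⟩
  have hind := rnc_genPos (n := n) huv σ hσ
  rw [← hA] at hind
  have hu : IsUnit A := Matrix.linearIndependent_rows_iff_isUnit.1 hind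
  have hdet : IsUnit A.det := (Matrix.isUnit_iff_isUnit_det A).1 hu
  refine ⟨A⁻¹, fun x j => ?_⟩
  have h1 : ∀ r, evi u v (σ r) x = A.mulVec x r := fun r => by
    rw [evi_eq, Matrix.mulVec, dotProduct, hA]
  have h2 : ∑ r, A⁻¹ j r * evi u v (σ r) x = (A⁻¹.mulVec (A.mulVec x)) j := by
    rw [Matrix.mulVec, dotProduct]
    exact Finset.sum_congr rfl fun r _ => by rw [h1]
  rw [h2, Matrix.mulVec_mulVec, Matrix.nonsing_inv_mul _ hdet, Matrix.one_mulVec]

theorem evi_zero {u v : Fin q → ℂ} (huv : ∀ i j, i ≠ j → u i * v j ≠ u j * v i)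
    {σ : Fin (n + 1) → Fin q} (hσ : Function.Injective σ) {x : Fin (n + 1) → ℂ}
    (h : ∀ r, evi u v (σ r) x = 0) : x = 0 := by
  obtain ⟨B, hB⟩ := evi_inv huv hσ
  funext j
  rw [hB x j]
  simp [h]

/-- quantitative general position -/
theorem evi_gen {u v : Fin q → ℂ} (huv : ∀ i j, i ≠ j → u i * v j ≠ u j * v i) :
    ∃ C : ℝ, 1 ≤ C ∧ ∀ σ : Fin (n + 1) → Fin q, Function.Injective σ →
      ∀ (x : Fin (n + 1) → ℂ) (B : ℝ), (∀ r, ‖evi u v (σ r) x‖ ≤ B) → ∀ i,
        ‖evi u v i x‖ ≤ C * B := by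
  classical
  have h1 : ∀ p : (Fin (n + 1) → Fin q) × Fin q, ∃ C : ℝ, Function.Injective p.1 →
      ∀ (x : Fin (n + 1) → ℂ) (B : ℝ), (∀ r, ‖evi u v (p.1 r) x‖ ≤ B) →
        ‖evi u v p.2 x‖ ≤ C * B := by
    rintro ⟨σ, i⟩
    by_cases hσ : Function.Injective σ
    · obtain ⟨A, hA⟩ := evi_inv huv hσ
      refine ⟨∑ l, ∑ r, ‖rnc n u v i l‖ * ‖A l r‖, fun _ x B hB => ?_⟩
      rw [evi_eq, Finset.sum_mul]
      refine (norm_sum_le _ _).trans (Finset.sum_le_sum fun l _ => ?_)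
      rw [norm_mul, hA x l, Finset.sum_mul]
      refine (mul_le_mul_of_nonneg_left (norm_sum_le _ _) (norm_nonneg _)).trans ?_
      rw [Finset.mul_sum]
      refine Finset.sum_le_sum fun r _ => ?_
      rw [norm_mul, mul_assoc]
      exact mul_le_mul_of_nonneg_left (mul_le_mul_of_nonneg_left (hB r) (norm_nonneg _))
        (norm_nonneg _)
    · exact ⟨0, fun h => absurd h hσ⟩
  choose C hC using h1
  obtain ⟨D, hD⟩ := (Set.finite_range C).bddAbove
  refine ⟨max 1 D, le_max_left _ _, fun σ hσ x B hB i => ?_⟩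
  have hB0 : 0 ≤ B := (norm_nonneg _).trans (hB 0)
  exact (hC (σ, i) hσ x B hB).trans (mul_le_mul_of_nonneg_right
    ((hD ⟨(σ, i), rfl⟩).trans (le_max_right _ _)) hB0)

/-- enumeration of a superset -/
theorem exists_enum {m : ℕ} (J : Finset (Fin q)) (hJ : J.card ≤ m) (hm : m ≤ q) :
    ∃ σ : Fin m → Fin q, Function.Injective σ ∧ ∀ i ∈ J, ∃ r, σ r = i := by
  classical
  obtain ⟨J', hJJ', -, hJ'c⟩ := Finset.exists_subsuperset_card_eq (Finset.subset_univ J) hJ
    (by rw [Finset.card_univ, Fintype.card_fin]; exact hm)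
  refine ⟨fun r => J'.orderEmbOfFin hJ'c r, (J'.orderEmbOfFin hJ'c).injective, fun i hi => ?_⟩
  have h10 : i ∈ Set.range (J'.orderEmbOfFin hJ'c) := by
    rw [Finset.range_orderEmbOfFin]
    exact hJJ' hi
  exact h10

/-- The pointwise bound. -/
theorem Rs_bound {u v : Fin q → ℂ} (huv : ∀ i j, i ≠ j → u i * v j ≠ u j * v i)
    (hq : n + n ≤ q) : ∃ C : ℝ, 1 ≤ C ∧ ∀ (x y : Fin (n + 1) → ℂ) (s E : ℝ), 0 < s → 1 ≤ E →
      (∀ i, ‖evi u v i x‖ ≤ s) → (∃ i, ‖evi u v i x‖ = s) →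
      (∀ i, ‖evi u v i y‖ ≤ E * ‖evi u v i x‖) →
      ‖Rs x y‖ * s ^ q ≤ C * E ^ (n + n) * s ^ (n + n) * ∏ i, ‖evi u v i x‖ := by
  classical
  obtain ⟨C0, hC01, hC0⟩ := evi_gen (n := n) huv
  have hC0pos : 0 < C0 := by linarith
  -- the matrix entries
  obtain ⟨K, hK1, hK⟩ : ∃ K : ℝ, 1 ≤ K ∧ ∀ (i : Fin q) (j : Fin n),
      ‖v i ^ (j : ℕ) * u i ^ (n - 1 - j)‖ ≤ K := by
    obtain ⟨D, hD⟩ := (Set.finite_range fun p : Fin q × Fin n =>
      ‖v p.1 ^ (p.2 : ℕ) * u p.1 ^ (n - 1 - p.2)‖).bddAbove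
    exact ⟨max 1 D, le_max_left _ _, fun i j => (hD ⟨(i, j), rfl⟩).trans (le_max_right _ _)⟩
  -- the determinants
  obtain ⟨w, hw0, hw⟩ : ∃ w : ℝ, 0 < w ∧ ∀ σ : Fin (n + n) → Fin q, Function.Injective σ →
      w ≤ ‖(Wm u v σ).det‖ := by
    obtain ⟨D, hD⟩ := (Set.finite_range fun σ : Fin (n + n) → Fin q =>
      ‖(Wm u v σ).det‖⁻¹).bddAbove
    refine ⟨(max 1 D)⁻¹, by positivity, fun σ hσ => ?_⟩
    have h1 : 0 < ‖(Wm u v σ).det‖ := norm_pos_iff.2 (Wm_ne huv hσ)
    have h2 : ‖(Wm u v σ).det‖⁻¹ ≤ max 1 D := (hD ⟨σ, rfl⟩).trans (le_max_right _ _)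
    exact inv_le_of_inv_le₀ h1 h2
  obtain ⟨C, hC⟩ : ∃ C : ℝ, C = w⁻¹ * ((Fintype.card (Fin (n + n))).factorial *
      K ^ (n + n)) * C0 ^ (q - (n + n)) := ⟨_, rfl⟩
  have hCnn : 0 ≤ C := by rw [hC]; positivity
  refine ⟨max 1 C, le_max_left _ _, fun x y s E hs hE hxs hxe hy => ?_⟩
  have hE0 : 0 < E := by linarith
  obtain ⟨i0, hi0⟩ := hxe
  -- the small values
  obtain ⟨J, hJ⟩ : ∃ J : Finset (Fin q), J = Finset.univ.filter fun i =>
    C0 * ‖evi u v i x‖ < s := ⟨_, rfl⟩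
  have hJc : J.card ≤ n := by
    by_contra hcon
    push Not at hcon
    obtain ⟨T, hTJ, hTc⟩ := Finset.exists_subset_card_eq (s := J) (n := n + 1) hcon
    obtain ⟨r0, -, hr0⟩ := Finset.exists_mem_eq_sup' (Finset.univ_nonempty (α := Fin (n + 1)))
      fun r => ‖evi u v (T.orderEmbOfFin hTc r) x‖
    have h1 := hC0 (fun r => T.orderEmbOfFin hTc r) (T.orderEmbOfFin hTc).injective x
      ‖evi u v (T.orderEmbOfFin hTc r0) x‖ (fun r => by
        rw [← hr0]
        exact Finset.le_sup' (fun r => ‖evi u v (T.orderEmbOfFin hTc r) x‖)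
          (Finset.mem_univ r)) i0
    have h2 := hTJ (T.orderEmbOfFin_mem hTc r0)
    rw [hJ, Finset.mem_filter] at h2
    rw [hi0] at h1
    linarith [h2.2]
  obtain ⟨σ, hσ, hσJ⟩ := exists_enum J (m := n + n) (by omega) hq
  have h1 := Wm_det u v σ x y
  have h2 : ‖(Mm u v σ x y).det‖ ≤ (Fintype.card (Fin (n + n))).factorial *
      ∏ r, (K * E * ‖evi u v (σ r) x‖) := by
    refine norm_det_le _ _ fun r c => ?_
    have hnn : 0 ≤ ‖evi u v (σ r) x‖ := norm_nonneg _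
    induction c using Fin.addCases with
    | left j =>
      rw [Mm, Matrix.of_apply, Fin.addCases_left, norm_mul]
      calc _ ≤ K * (E * ‖evi u v (σ r) x‖) :=
            mul_le_mul (hK _ _) (hy (σ r)) (norm_nonneg _) (by linarith)
        _ = _ := by ring
    | right j =>
      rw [Mm, Matrix.of_apply, Fin.addCases_right, norm_mul]
      calc _ ≤ K * ‖evi u v (σ r) x‖ :=
            mul_le_mul_of_nonneg_right (hK _ _) (norm_nonneg _)
        _ = K * 1 * ‖evi u v (σ r) x‖ := by ring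
        _ ≤ _ := mul_le_mul_of_nonneg_right (mul_le_mul_of_nonneg_left hE (by linarith)) hnn
  have h3 : ∏ r, (K * E * ‖evi u v (σ r) x‖) =
      (K * E) ^ (n + n) * ∏ r, ‖evi u v (σ r) x‖ := by
    rw [Finset.prod_mul_distrib, Finset.prod_const, Finset.card_univ, Fintype.card_fin]
  rw [← h1, norm_mul, h3] at h2
  have h4 : w * ‖Rs x y‖ ≤ (Fintype.card (Fin (n + n))).factorial *
      ((K * E) ^ (n + n) * ∏ r, ‖evi u v (σ r) x‖) :=
    (mul_le_mul_of_nonneg_right (hw σ hσ) (norm_nonneg _)).trans h2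
  -- the product over all indices
  have h5 : s ^ (q - (n + n)) * ∏ r, ‖evi u v (σ r) x‖ ≤
      C0 ^ (q - (n + n)) * ∏ i, ‖evi u v i x‖ := by
    have h6 : ∏ r, ‖evi u v (σ r) x‖ = ∏ i ∈ Finset.univ.map ⟨σ, hσ⟩, ‖evi u v i x‖ := by
      rw [Finset.prod_map]
      rfl
    have h7 : (Finset.univ \ Finset.univ.map ⟨σ, hσ⟩).card = q - (n + n) := by
      rw [Finset.card_sdiff_of_subset (Finset.subset_univ _), Finset.card_univ, Fintype.card_fin,
        Finset.card_map, Finset.card_univ, Fintype.card_fin]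
    have h8 : s ^ (q - (n + n)) ≤ C0 ^ (q - (n + n)) *
        ∏ i ∈ Finset.univ \ Finset.univ.map ⟨σ, hσ⟩, ‖evi u v i x‖ := by
      rw [← h7, ← Finset.prod_const, ← Finset.prod_const, ← Finset.prod_mul_distrib]
      refine Finset.prod_le_prod (fun _ _ => hs.le) fun i hi => ?_
      rw [Finset.mem_sdiff] at hi
      have h9 : i ∉ J := by
        intro h
        obtain ⟨r, hr⟩ := hσJ i h
        exact hi.2 (Finset.mem_map.2 ⟨r, Finset.mem_univ _, hr⟩)
      rw [hJ, Finset.mem_filter, not_and, not_lt] at h9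
      exact h9 (Finset.mem_univ _)
    rw [h6, ← Finset.prod_sdiff (Finset.subset_univ (Finset.univ.map ⟨σ, hσ⟩)), ← mul_assoc]
    exact mul_le_mul_of_nonneg_right h8 (Finset.prod_nonneg fun _ _ => norm_nonneg _)
  have h6 : s ^ q = s ^ (n + n) * s ^ (q - (n + n)) := by
    rw [← pow_add]
    congr 1
    omega
  have hfac : (0 : ℝ) ≤ (Fintype.card (Fin (n + n))).factorial := by positivity
  have h7 : ‖Rs x y‖ ≤ w⁻¹ * ((Fintype.card (Fin (n + n))).factorial *
      ((K * E) ^ (n + n) * ∏ r, ‖evi u v (σ r) x‖)) := by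
    rw [← div_eq_inv_mul, le_div_iff₀ hw0, mul_comm]
    exact h4
  have hprod : 0 ≤ ∏ i, ‖evi u v i x‖ := Finset.prod_nonneg fun _ _ => norm_nonneg _
  calc ‖Rs x y‖ * s ^ q ≤ (w⁻¹ * ((Fintype.card (Fin (n + n))).factorial *
      ((K * E) ^ (n + n) * ∏ r, ‖evi u v (σ r) x‖))) * s ^ q :=
        mul_le_mul_of_nonneg_right h7 (by positivity)
    _ = w⁻¹ * ((Fintype.card (Fin (n + n))).factorial * K ^ (n + n)) * E ^ (n + n) *
        s ^ (n + n) * (s ^ (q - (n + n)) * ∏ r, ‖evi u v (σ r) x‖) := by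
        rw [h6, mul_pow]; ring
    _ ≤ w⁻¹ * ((Fintype.card (Fin (n + n))).factorial * K ^ (n + n)) * E ^ (n + n) *
        s ^ (n + n) * (C0 ^ (q - (n + n)) * ∏ i, ‖evi u v i x‖) :=
        mul_le_mul_of_nonneg_left h5 (by positivity)
    _ = C * E ^ (n + n) * s ^ (n + n) * ∏ i, ‖evi u v i x‖ := by rw [hC]; ring
    _ ≤ max 1 C * E ^ (n + n) * s ^ (n + n) * ∏ i, ‖evi u v i x‖ := by
        apply mul_le_mul_of_nonneg_right _ hprod
        apply mul_le_mul_of_nonneg_right _ (by positivity)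
        exact mul_le_mul_of_nonneg_right (le_max_right _ _) (by positivity)

end Pool.Agent.Y216
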