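import Pool.Agent.Y216.EcB
import Pool.Agent.W601.SM.Core

/-!
Entire curves in the space of binary forms which are ramified over the forms that vanish at given
points, if the resultant of the curve and its derivative does not vanish identically.
-/

set_option autoImplicit false

open Polynomial

namespace Pool.Agent.Y216

open Filter Metric Real Set Topology Pool.Agent.H159R3.NV Pool.Agent.W602.NC Pool.Agent.W602.TL
open Pool.Agent.W601.SM (Ent dF det_diff norm_det_le le_order_det)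

/-- from a pointwise bound to a bound for the mean, with weights -/
theorem circleW {p : ℕ} {d κ : ℕ} (c : Fin (p + 1) → ℕ) (hκ : 0 < κ) {C : ℝ} (hC : 1 ≤ C)
    {U : Fin (p + 1) → ℂ → ℂ}
    (hU : ∀ i, Differentiable ℂ (U i)) (hU0 : ∀ i, U i 0 ≠ 0) {P : ℂ → ℂ}
    (hP : Differentiable ℂ P) (hP0 : P 0 ≠ 0)
    (hord : ∀ z, analyticOrderAt (fun z => ∏ i, U i z ^ c i) z ≤ analyticOrderAt P z)
    (hpt : ∀ z ε, 0 < ε → ε ≤ 1 → GoodAt U z ε →
      ‖P z‖ * sup U z ^ κ ≤ C * (1 / ε) ^ d * ∏ i, ‖U i z‖ ^ c i) :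
    ∃ A B : ℝ, 0 ≤ A ∧ 0 ≤ B ∧ ∀ s ε : ℝ, 0 < s → 0 < ε → ε ≤ 1 →
      (∀ z, ‖z‖ = s → GoodAt U z ε) → tau U s ≤ A + B * Real.log (1 / ε) := by
  set Q : ℂ → ℂ := fun z => ∏ i, U i z ^ c i with hQdef
  have hQ : Differentiable ℂ Q := Differentiable.fun_finsetProd fun i _ => (hU i).pow (c i)
  have hQ0 : Q 0 ≠ 0 := Finset.prod_ne_zero_iff.mpr fun i _ => pow_ne_zero _ (hU0 i)
  refine ⟨Real.log C + |Real.log ‖P 0 / Q 0‖|, d, ?_, Nat.cast_nonneg _, ?_⟩
  · have := Real.log_nonneg hC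
    positivity
  intro s ε hs hε hε1 hgood
  have hne : ∀ z, ‖z‖ = s → ∀ i, U i z ≠ 0 :=
    fun z hz i => (hgood z hz).1 i z (mem_closedBall_self hε.le)
  have hlogε : 0 ≤ Real.log (1 / ε) := Real.log_nonneg (by rw [le_div_iff₀ hε]; linarith)
  -- Jensen
  have h1 : Real.log ‖P 0 / Q 0‖ ≤ L P s - L Q s := by
    have h2 := jensen_ge (f := fun z => P z / Q z) hs (quot_mero hQ hP)
      (fun z _ => quot_order (hP.analyticAt z) (hQ.analyticAt z) (finite_order hQ hQ0 z) (hord z))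
      ((hP.analyticAt 0).div (hQ.analyticAt 0) hQ0) (div_ne_zero hP0 hQ0)
    rwa [L_quot hQ hP (x := 0) (y := 0) hQ0 hP0 hs.ne'] at h2
  have hLQ : L Q s = ∑ i, c i * L (U i) s := by
    have e1 := L_prod Finset.univ (fun i z => U i z ^ c i) (fun i => (hU i).pow (c i))
      (fun i => pow_ne_zero _ (hU0 i)) hs.ne'
    have e2 : L Q s = ∑ i, L (fun z => U i z ^ c i) s := e1
    rw [e2]
    exact Finset.sum_congr rfl fun i _ => L_pow (c i) s
  -- the upper bound
  have hGint : CircleIntegrable (fun z => Real.log (sup U z)) 0 s :=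
    tau_int hU hs fun z hz => ⟨0, hne z hz 0⟩
  have hci : ∀ i, CircleIntegrable (fun z => (c i : ℝ) * Real.log ‖U i z‖) 0 s := fun i =>
    (ci_log (mero_of_diff (hU i)) s).const_fun_smul (a := (c i : ℝ))
  have hsumint' : CircleIntegrable (fun z => ∑ i, (c i : ℝ) * Real.log ‖U i z‖) 0 s :=
    CircleIntegrable.fun_sum _ (fun i _ => hci i)
  have hGint' : CircleIntegrable (fun z => (κ : ℝ) * Real.log (sup U z)) 0 s :=
    hGint.const_fun_smul (a := (κ : ℝ))
  have i3 : CircleIntegrable (fun z => (Real.log C + d * Real.log (1 / ε))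
      + ∑ i, (c i : ℝ) * Real.log ‖U i z‖) 0 s := (circleIntegrable_const _ _ _).add hsumint'
  have e1 : (Real.log C + d * Real.log (1 / ε)) + ∑ i, c i * L (U i) s - κ * tau U s
      = Real.circleAverage (fun z => ((Real.log C + d * Real.log (1 / ε))
        + ∑ i, (c i : ℝ) * Real.log ‖U i z‖) - (κ : ℝ) * Real.log (sup U z)) 0 s := by
    rw [Real.circleAverage_fun_sub i3 hGint', Real.circleAverage_fun_add
      (circleIntegrable_const _ _ _) hsumint', Real.circleAverage_const]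
    have e2 : Real.circleAverage (fun z => ∑ i, (c i : ℝ) * Real.log ‖U i z‖) 0 s
        = ∑ i, c i * L (U i) s := by
      rw [Real.circleAverage_fun_sum (fun i _ => hci i)]
      refine Finset.sum_congr rfl fun i _ => ?_
      have e3 := Real.circleAverage_fun_smul (a := (c i : ℝ))
        (f := fun z => Real.log ‖U i z‖) (c := (0 : ℂ)) (R := s)
      simp only [smul_eq_mul] at e3 ⊢
      rw [e3]
      rfl
    have e4 : Real.circleAverage (fun z => (κ : ℝ) * Real.log (sup U z)) 0 s = κ * tau U s := by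
      have e3 := Real.circleAverage_fun_smul (a := (κ : ℝ))
        (f := fun z => Real.log (sup U z)) (c := (0 : ℂ)) (R := s)
      simp only [smul_eq_mul] at e3
      rw [e3]
      rfl
    rw [e2, e4]
  have h2 : L P s ≤ (Real.log C + d * Real.log (1 / ε)) + ∑ i, c i * L (U i) s -
      κ * tau U s := by
    rw [e1]
    apply avg_le_cod (ci_log (mero_of_diff hP) s) (i3.sub hGint') hs.ne'
    filter_upwards [ne_cod hP hP0 s, self_mem_codiscreteWithin _] with z hz hzs
    have hz' := sph_norm hs hzs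
    have h3 := hpt z ε hε hε1 (hgood z hz')
    have hsp : 0 < sup U z := sup_pos (hne z hz' 0)
    have hPp : 0 < ‖P z‖ := norm_pos_iff.mpr hz
    have hprod : (∏ i, ‖U i z‖ ^ c i) ≠ 0 :=
      Finset.prod_ne_zero_iff.mpr fun i _ => pow_ne_zero _ (norm_ne_zero_iff.mpr (hne z hz' i))
    have hCe : C * (1 / ε) ^ d ≠ 0 := mul_ne_zero (by linarith) (pow_ne_zero _ (by positivity))
    have h4 := Real.log_le_log (mul_pos hPp (pow_pos hsp κ)) h3
    rw [Real.log_mul hPp.ne' (pow_pos hsp κ).ne', Real.log_mul hCe hprod,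
      Real.log_mul (by linarith) (pow_ne_zero _ (by positivity)), Real.log_pow, Real.log_pow,
      Real.log_prod (fun i _ => pow_ne_zero _ (norm_ne_zero_iff.mpr (hne z hz' i)))] at h4
    simp only [Real.log_pow] at h4
    change Real.log ‖P z‖ ≤ ((Real.log C + d * Real.log (1 / ε))
        + ∑ i, (c i : ℝ) * Real.log ‖U i z‖) - (κ : ℝ) * Real.log (sup U z)
    linarith
  have hκ1 : (1 : ℝ) ≤ κ := by exact_mod_cast hκ
  have h5 : κ * tau U s ≤ (Real.log C + |Real.log ‖P 0 / Q 0‖|) + d * Real.log (1 / ε) := by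
    rw [hLQ] at h1
    have := neg_abs_le (Real.log ‖P 0 / Q 0‖)
    linarith
  have hX : 0 ≤ (Real.log C + |Real.log ‖P 0 / Q 0‖|) + d * Real.log (1 / ε) := by
    have := Real.log_nonneg hC
    positivity
  by_cases ht : 0 ≤ tau U s
  · nlinarith
  · push Not at ht
    linarith

theorem real_pow_ineqW {X σ C e : ℝ} {q b A κ N : ℕ} (hX : 0 ≤ X) (hσ : 0 < σ)
    (hC : 0 ≤ C) (he : 0 ≤ e) {r : Fin q → ℝ} (hr : ∀ i, 0 ≤ r i) (hrσ : ∀ i, r i ≤ σ)
    {c : Fin q → ℕ} (hc : ∀ i, c i ≤ A) (hκ : κ + 2 * b * A = ∑ i, c i)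
    (h : X * σ ^ q ≤ C * e ^ N * σ ^ (b + b) * ∏ i, r i) :
    X ^ A * σ ^ κ ≤ C ^ A * e ^ (N * A) * ∏ i, r i ^ c i := by
  have h1 : (X * σ ^ q) ^ A ≤ (C * e ^ N * σ ^ (b + b) * ∏ i, r i) ^ A :=
    pow_le_pow_left₀ (by positivity) h A
  have hprod : 0 ≤ ∏ i, r i ^ c i := Finset.prod_nonneg fun i _ => pow_nonneg (hr i) _
  have h2 : (∏ i, r i) ^ A ≤ (∏ i, r i ^ c i) * σ ^ (∑ i, (A - c i)) := by
    rw [← Finset.prod_pow, ← Finset.prod_pow_eq_pow_sum, ← Finset.prod_mul_distrib]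
    refine Finset.prod_le_prod (fun i _ => pow_nonneg (hr i) _) fun i _ => ?_
    calc r i ^ A = r i ^ c i * r i ^ (A - c i) := by
          rw [← pow_add, Nat.add_sub_cancel' (hc i)]
      _ ≤ r i ^ c i * σ ^ (A - c i) :=
          mul_le_mul_of_nonneg_left (pow_le_pow_left₀ (hr i) (hrσ i) _) (pow_nonneg (hr i) _)
  have hsum : ∑ i, (A - c i) + ∑ i, c i = A * q := by
    rw [← Finset.sum_add_distrib, Finset.sum_congr rfl fun i _ => Nat.sub_add_cancel (hc i),
      Finset.sum_const, Finset.card_univ, Fintype.card_fin, smul_eq_mul, mul_comm]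
  have hpos : 0 < σ ^ (2 * b * A + ∑ i, (A - c i)) := pow_pos hσ _
  have h3 : (X ^ A * σ ^ κ) * σ ^ (2 * b * A + ∑ i, (A - c i))
      ≤ (C ^ A * e ^ (N * A) * ∏ i, r i ^ c i) * σ ^ (2 * b * A + ∑ i, (A - c i)) := by
    calc (X ^ A * σ ^ κ) * σ ^ (2 * b * A + ∑ i, (A - c i)) = (X * σ ^ q) ^ A := by
          rw [mul_assoc, ← pow_add, ← add_assoc, hκ, add_comm (∑ i, c i), hsum, mul_pow,
            ← pow_mul, mul_comm A q]
      _ ≤ (C * e ^ N * σ ^ (b + b) * ∏ i, r i) ^ A := h1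
      _ = (C ^ A * e ^ (N * A) * σ ^ (2 * b * A)) * (∏ i, r i) ^ A := by
          rw [mul_pow, mul_pow, mul_pow, ← pow_mul, ← pow_mul, ← two_mul]
      _ ≤ (C ^ A * e ^ (N * A) * σ ^ (2 * b * A)) *
          ((∏ i, r i ^ c i) * σ ^ (∑ i, (A - c i))) :=
          mul_le_mul_of_nonneg_left h2 (by positivity)
      _ = _ := by rw [pow_add]; ring
  exact le_of_mul_le_mul_right h3 hpos

variable {n p : ℕ} {u v : Fin (p + 1) → ℂ}

/-- the linear forms along the curve -/
def Uf (u v : Fin (p + 1) → ℂ) (F : ℂ → Fin (n + 1) → ℂ) : Fin (p + 1) → ℂ → ℂ :=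
  fun i z => evi u v i (F z)

theorem evi_diff {F : ℂ → Fin (n + 1) → ℂ} (hF : Ent F) (i : Fin (p + 1)) :
    Differentiable ℂ fun z => evi u v i (F z) := by
  simp only [evi_eq]
  exact Differentiable.fun_sum fun l _ => (hF l).const_mul _

theorem evi_deriv {F : ℂ → Fin (n + 1) → ℂ} (hF : Ent F) (i : Fin (p + 1)) (z : ℂ) :
    deriv (fun z => evi u v i (F z)) z = evi u v i (dF F z) := by
  simp only [evi_eq]
  rw [deriv_fun_sum fun l _ => ((hF l).const_mul _).differentiableAt]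
  exact Finset.sum_congr rfl fun l _ => deriv_const_mul _ (hF l).differentiableAt

/-- the auxiliary function -/
noncomputable def Pf (F : ℂ → Fin (n + 1) → ℂ) (z : ℂ) : ℂ := Rs (F z) (dF F z)

theorem coeff_pol_diff {F : ℂ → Fin (n + 1) → ℂ} (hF : Ent F) (i : ℕ) :
    Differentiable ℂ fun z => (pol (F z)).coeff i := by
  by_cases hi : i < n + 1
  · have h : (fun z => (pol (F z)).coeff i) = fun z => F z ⟨i, hi⟩ :=
      funext fun z => coeff_pol_lt _ hi
    rw [h]
    exact hF _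
  · have h : (fun z => (pol (F z)).coeff i) = fun _ => 0 :=
      funext fun z => coeff_pol_ge _ (by omega)
    rw [h]
    exact differentiable_const _

theorem Rs_diff {F G : ℂ → Fin (n + 1) → ℂ} (hF : Ent F) (hG : Ent G) :
    Differentiable ℂ fun z => Rs (F z) (G z) := by
  unfold Rs resultant
  refine det_diff _ fun i j => ?_
  induction j using Fin.addCases with
  | left j =>
    simp only [sylvester, Matrix.of_apply, Fin.addCases_left]
    split_ifs
    · exact coeff_pol_diff hG _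
    · exact differentiable_const _
  | right j =>
    simp only [sylvester, Matrix.of_apply, Fin.addCases_right]
    split_ifs
    · exact coeff_pol_diff hF _
    · exact differentiable_const _

theorem Pf_diff {F : ℂ → Fin (n + 1) → ℂ} (hF : Ent F) : Differentiable ℂ (Pf F) :=
  Rs_diff hF hF.dF

/-- the order of vanishing -/
theorem Pf_order (huv : ∀ i j, i ≠ j → u i * v j ≠ u j * v i) (hq : n + n ≤ p + 1)
    {F : ℂ → Fin (n + 1) → ℂ} (hF : Ent F) (hnz : ∀ z, F z ≠ 0) (z : ℂ) (o : Fin (p + 1) → ℕ)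
    (h0 : ∀ i, evi u v i (F z) ≠ 0 → o i = 0)
    (h1 : ∀ i, (o i : ℕ∞) ≤ analyticOrderAt (fun z => evi u v i (F z)) z)
    (h2 : ∀ i, (o i : ℕ∞) ≤ analyticOrderAt (fun z => evi u v i (dF F z)) z) :
    ((∑ i, o i : ℕ) : ℕ∞) ≤ analyticOrderAt (Pf F) z := by
  classical
  obtain ⟨J, hJ⟩ : ∃ J : Finset (Fin (p + 1)), J = Finset.univ.filter fun i =>
    evi u v i (F z) = 0 := ⟨_, rfl⟩
  have hJc : J.card ≤ n := by
    by_contra hcon
    push Not at hcon
    obtain ⟨T, hTJ, hTc⟩ := Finset.exists_subset_card_eq (s := J) (n := n + 1) hcon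
    refine hnz z (evi_zero huv (T.orderEmbOfFin hTc).injective fun r => ?_)
    have h3 := hTJ (T.orderEmbOfFin_mem hTc r)
    rw [hJ, Finset.mem_filter] at h3
    exact h3.2
  obtain ⟨σ, hσ, hσJ⟩ := exists_enum J (m := n + n) (by omega) hq
  obtain ⟨w, hw⟩ : ∃ w, w = (Wm u v σ).det := ⟨_, rfl⟩
  have hw0 : w ≠ 0 := by
    rw [hw]
    exact Wm_ne huv hσ
  have e1 : (fun _ => w) * Pf F = fun z => (Mm u v σ (F z) (dF F z)).det := by
    funext x
    rw [Pi.mul_apply, hw]
    exact Wm_det u v σ (F x) (dF F x)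
  have e2 : analyticOrderAt (fun _ : ℂ => w) z = 0 :=
    analyticAt_const.analyticOrderAt_eq_zero.mpr hw0
  have e3 : analyticOrderAt (Pf F) z
      = analyticOrderAt (fun z => (Mm u v σ (F z) (dF F z)).det) z := by
    rw [← e1, analyticOrderAt_mul analyticAt_const ((Pf_diff hF).analyticAt z), e2, zero_add]
  have hs : ∑ r, o (σ r) = ∑ i, o i := by
    have h9 : ∑ r, o (σ r) = ∑ i ∈ Finset.univ.map ⟨σ, hσ⟩, o i := by
      rw [Finset.sum_map]
      rfl
    rw [h9]
    refine Finset.sum_subset (Finset.subset_univ _) fun i _ hi => h0 i fun h => hi ?_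
    obtain ⟨r, hr⟩ := hσJ i (by rw [hJ, Finset.mem_filter]; exact ⟨Finset.mem_univ _, h⟩)
    exact Finset.mem_map.2 ⟨r, Finset.mem_univ _, hr⟩
  rw [e3, ← hs]
  refine le_order_det _ z (fun r => o (σ r)) (fun r c => ?_) fun r c => ?_
  · induction c using Fin.addCases with
    | left j =>
      simp only [Mm, Matrix.of_apply, Fin.addCases_left]
      exact ((evi_diff (u := u) (v := v) hF.dF (σ r)).const_mul _).analyticAt z
    | right j =>
      simp only [Mm, Matrix.of_apply, Fin.addCases_right]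
      exact ((evi_diff (u := u) (v := v) hF (σ r)).const_mul _).analyticAt z
  · induction c using Fin.addCases with
    | left j =>
      simp only [Mm, Matrix.of_apply, Fin.addCases_left]
      have e : (fun w => v (σ r) ^ (j : ℕ) * u (σ r) ^ (n - 1 - j) *
          bev (u (σ r)) (v (σ r)) (dF F w)) = (fun _ => v (σ r) ^ (j : ℕ) *
          u (σ r) ^ (n - 1 - j)) * fun w => evi u v (σ r) (dF F w) := rfl
      rw [e, analyticOrderAt_mul analyticAt_const ((evi_diff hF.dF (σ r)).analyticAt z)]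
      exact (h2 _).trans le_add_self
    | right j =>
      simp only [Mm, Matrix.of_apply, Fin.addCases_right]
      have e : (fun w => v (σ r) ^ (j : ℕ) * u (σ r) ^ (n - 1 - j) *
          bev (u (σ r)) (v (σ r)) (F w)) = (fun _ => v (σ r) ^ (j : ℕ) *
          u (σ r) ^ (n - 1 - j)) * fun w => evi u v (σ r) (F w) := rfl
      rw [e, analyticOrderAt_mul analyticAt_const ((evi_diff hF (σ r)).analyticAt z)]
      exact (h1 _).trans le_add_self

/-- the pointwise bound at good points -/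
theorem Pf_point (huv : ∀ i j, i ≠ j → u i * v j ≠ u j * v i) (hq : n + n ≤ p + 1) :
    ∃ C : ℝ, 1 ≤ C ∧ ∀ F : ℂ → Fin (n + 1) → ℂ, Ent F → ∀ (z : ℂ) (ε : ℝ),
      0 < ε → ε ≤ 1 → GoodAt (Uf u v F) z ε →
      ‖Pf F z‖ * sup (Uf u v F) z ^ (p + 1)
        ≤ C * (1 / ε) ^ (n + n) * sup (Uf u v F) z ^ (n + n) * ∏ i, ‖Uf u v F i z‖ := by
  obtain ⟨C, hC1, hC⟩ := Rs_bound huv hq
  have he1 : (1 : ℝ) ≤ Real.exp 1 ^ (n + n) := one_le_pow₀ (Real.one_le_exp zero_le_one)
  refine ⟨C * Real.exp 1 ^ (n + n), one_le_mul_of_one_le_of_one_le hC1 he1, ?_⟩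
  intro F hF z ε hε hε1 hg
  have hzz : z ∈ closedBall z ε := mem_closedBall_self hε.le
  obtain ⟨i0, hi0⟩ := sup_attained (Uf u v F) z
  have hU0 : Uf u v F i0 z ≠ 0 := hg.1 i0 z hzz
  set t : ℂ := -(deriv (Uf u v F i0) z / Uf u v F i0 z) with ht
  have hE : 1 ≤ Real.exp 1 * (1 / ε) :=
    one_le_mul_of_one_le_of_one_le (Real.one_le_exp zero_le_one)
      (by rw [le_div_iff₀ hε]; linarith)
  have h := hC (F z) (dF F z + t • F z) (sup (Uf u v F) z) (Real.exp 1 * (1 / ε))
    (sup_pos (hg.1 0 z hzz)) hE (fun i => le_sup (Uf u v F) z i) ⟨i0, hi0.symm⟩ (by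
      intro i
      have h1 := wr_pair (evi_diff (u := u) (v := v) hF i0) (evi_diff (u := u) (v := v) hF i) hε
        (fun w hw => hg.1 i0 w hw) (fun w hw => hg.2 i0 i w hw)
      have h2 : evi u v i (dF F z + t • F z)
          = (Uf u v F i0 z * deriv (Uf u v F i) z - deriv (Uf u v F i0) z * Uf u v F i z) /
            Uf u v F i0 z := by
        have h3 : evi u v i (dF F z) = deriv (Uf u v F i) z := (evi_deriv hF i z).symm
        have h4 : evi u v i (F z) = Uf u v F i z := rfl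
        rw [evi_add, evi_smul, h3, h4, ht]
        field_simp
        ring
      have hp : 0 < ‖Uf u v F i0 z‖ := norm_pos_iff.mpr hU0
      rw [h2, norm_div, div_le_iff₀ hp]
      refine h1.trans (le_of_eq ?_)
      change Real.exp 1 * (1 / ε) * (‖evi u v i0 (F z)‖ * ‖evi u v i (F z)‖) =
        Real.exp 1 * (1 / ε) * ‖evi u v i (F z)‖ * ‖evi u v i0 (F z)‖
      ring)
  rw [Rs_shift] at h
  refine h.trans (le_of_eq ?_)
  have h4 : ∀ i, evi u v i (F z) = Uf u v F i z := fun _ => rfl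
  simp only [h4]
  rw [mul_pow]
  ring

theorem exists_ratio' (huv : ∀ i j, i ≠ j → u i * v j ≠ u j * v i) (hq : n + 1 ≤ p + 1)
    {F : ℂ → Fin (n + 1) → ℂ} (hnz : ∀ z, F z ≠ 0)
    (hnc : ∃ z z', ∀ t : ℂ, F z' ≠ t • F z) :
    ∃ j1, ∀ c : ℂ, ∃ z, Uf u v F j1 z - c * Uf u v F 0 z ≠ 0 := by
  have hspan : ∀ x : Fin (n + 1) → ℂ, (∀ i, evi u v i x = 0) → x = 0 := fun x hx =>
    evi_zero huv (σ := Fin.castLE hq) (Fin.castLE_injective hq) fun r => hx _
  by_contra hcon
  push Not at hcon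
  choose c hc using hcon
  obtain ⟨z, z', h⟩ := hnc
  have h1 : ∀ j w, evi u v j (F w) = c j * evi u v 0 (F w) := fun j w => sub_eq_zero.mp (hc j w)
  by_cases h0 : evi u v 0 (F z) = 0
  · exact hnz z (hspan _ fun j => by rw [h1, h0, mul_zero])
  · apply h (evi u v 0 (F z') / evi u v 0 (F z))
    rw [← sub_eq_zero]
    apply hspan
    intro j
    have h2 : F z' - (evi u v 0 (F z') / evi u v 0 (F z)) • F z =
        F z' + (-(evi u v 0 (F z') / evi u v 0 (F z))) • F z := by
      rw [neg_smul, sub_eq_add_neg]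
    rw [h2, evi_add, evi_smul, h1 j z', h1 j z]
    field_simp
    ring

theorem dF_comp' {F : ℂ → Fin (n + 1) → ℂ} (hF : Ent F) {φ : ℂ → ℂ} (hφ : Differentiable ℂ φ)
    (z : ℂ) : dF (fun z => F (φ z)) z = deriv φ z • dF F (φ z) := by
  funext j
  have h := (((hF j) (φ z)).hasDerivAt.comp z (hφ z).hasDerivAt).deriv
  simp only [dF, Pi.smul_apply, smul_eq_mul]
  rw [mul_comm]
  exact h

/-- There are no ramified curves for which the resultant does not vanish identically. -/
theorem no_curve (huv : ∀ i j, i ≠ j → u i * v j ≠ u j * v i) {A : ℕ} {c : Fin (p + 1) → ℕ}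
    (hc : ∀ i, c i ≤ A) (hsum : 2 * n * A < ∑ i, c i)
    {F : ℂ → Fin (n + 1) → ℂ} (hF : Ent F) (hnz : ∀ z, F z ≠ 0)
    (hne : ∀ i, ∃ z, evi u v i (F z) ≠ 0) (hP : ∃ z, Pf F z ≠ 0)
    (hM : ∀ z, ∀ a : Fin (p + 1) → ℕ,
      (∀ i, analyticOrderAt (fun z => evi u v i (F z)) z = a i) →
      ∑ i, c i * a i ≤ A * ∑ i, (a i - 1)) (hn : 1 ≤ n) : False := by
  classical
  have hA : 0 < A := by
    rcases Nat.eq_zero_or_pos A with h | h
    · exfalso
      have h1 : ∑ i, c i = 0 := Finset.sum_eq_zero fun i _ => by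
        have := hc i
        omega
      omega
    · exact h
  have hq : n + n ≤ p + 1 := by
    have h1 : ∑ i, c i ≤ (p + 1) * A := by
      calc ∑ i, c i ≤ ∑ _i : Fin (p + 1), A := Finset.sum_le_sum fun i _ => hc i
        _ = (p + 1) * A := by simp
    have h2 : 2 * n * A < (p + 1) * A := lt_of_lt_of_le hsum h1
    have := lt_of_mul_lt_mul_right h2 (Nat.zero_le _)
    omega
  -- the curve is not constant
  have hnc : ∃ z z', ∀ t : ℂ, F z' ≠ t • F z := by
    by_contra hcon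
    push Not at hcon
    obtain ⟨z0, hz0⟩ := hP
    apply hz0
    choose t ht using hcon z0
    obtain ⟨j, hj⟩ := Function.ne_iff.1 (hnz z0)
    have h1 : ∀ z, t z = F z j / F z0 j := fun z => by
      have h2 := congrFun (ht z) j
      rw [Pi.smul_apply, smul_eq_mul] at h2
      rw [h2, mul_div_cancel_right₀ _ hj]
    have h2 : dF F z0 = deriv t z0 • F z0 := by
      funext l
      have h3 : (fun z => F z l) = fun z => t z * F z0 l := by
        funext z
        have h2 := congrFun (ht z) l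
        rwa [Pi.smul_apply, smul_eq_mul] at h2
      have h4 : DifferentiableAt ℂ t z0 := by
        have h5 : t = fun z => F z j / F z0 j := funext h1
        rw [h5]
        exact ((hF j).div_const _).differentiableAt
      unfold dF
      rw [h3, deriv_mul_const h4]
      rfl
    unfold Pf
    have h3 : (deriv t z0 • F z0 : Fin (n + 1) → ℂ) = 0 + deriv t z0 • F z0 := by
      rw [zero_add]
    rw [h2, h3, Rs_shift]
    have h4 : (0 : Fin (n + 1) → ℂ) = (0 : ℂ) • 0 := by simp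
    rw [h4, Rs_smul, zero_pow (by omega), mul_zero]
  obtain ⟨j1, hj1⟩ := exists_ratio' huv (by omega) hnz hnc
  obtain ⟨κ, hκ0, hκ⟩ : ∃ κ, 0 < κ ∧ κ + 2 * n * A = ∑ i, c i :=
    ⟨∑ i, c i - 2 * n * A, by omega, by omega⟩
  obtain ⟨C, hC1, hC⟩ := Pf_point huv hq
  refine contra (Uf u v F) (fun i => evi_diff hF i) hne j1 hj1 (P := Pf F) (Pf_diff hF) hP ?_
  intro z0 h0 hP0
  set F' : ℂ → Fin (n + 1) → ℂ := fun z => F (ex z0 z) with hF'
  have hF'e : Ent F' := fun j => (hF j).comp (ex_diff z0)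
  have hF'nz : ∀ z, F' z ≠ 0 := fun z => hnz _
  have hF'ne : ∀ i, ∃ z, evi u v i (F' z) ≠ 0 := fun i => ⟨0, h0 i⟩
  have hord : ∀ i z, analyticOrderAt (fun z => evi u v i (F' z)) z =
      analyticOrderAt (fun z => evi u v i (F z)) (ex z0 z) := by
    intro i z
    have e1 : (fun z => evi u v i (F' z)) = (fun z => evi u v i (F z)) ∘ ex z0 := rfl
    rw [e1, analyticOrderAt_comp_of_deriv_ne_zero ((ex_diff z0).analyticAt z)]
    rw [ex_deriv]
    exact ex_ne z0 z
  have hP'0 : Pf F' 0 ≠ 0 := by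
    have e1 : Pf F' 0 = Pf F (ex z0 0) * (deriv (ex z0) 0) ^ n := by
      unfold Pf
      rw [hF', dF_comp' hF (ex_diff z0), Rs_smul]
    rw [e1, ex_deriv]
    exact mul_ne_zero hP0 (pow_ne_zero _ (ex_ne _ _))
  have hPd : Differentiable ℂ fun z => Pf F' z ^ A := (Pf_diff hF'e).pow A
  have hCA : 1 ≤ C ^ A := one_le_pow₀ hC1
  refine circleW (d := (n + n) * A) c hκ0 hCA (fun i => evi_diff hF'e i) h0 hPd
    (pow_ne_zero _ hP'0) ?_ ?_
  · intro z
    set a : Fin (p + 1) → ℕ := fun i =>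
      (analyticOrderAt (fun z => evi u v i (F' z)) z).toNat with ha
    have hai : ∀ i, analyticOrderAt (fun z => evi u v i (F' z)) z = a i := fun i =>
      ord_fin (evi_diff hF'e i) (hF'ne i) z
    have h1 : analyticOrderAt (fun z => ∏ i, evi u v i (F' z) ^ c i) z
        = ((∑ i, c i * a i : ℕ) : ℕ∞) := by
      rw [Pool.Agent.W602.NC.ord_prod _ (fun i z => evi u v i (F' z) ^ c i) z
        (fun i _ => ((evi_diff hF'e i).analyticAt z).pow (c i))]
      push_cast
      refine Finset.sum_congr rfl fun i _ => ?_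
      have e : (fun z => evi u v i (F' z) ^ c i) = (fun z => evi u v i (F' z)) ^ c i := rfl
      rw [e, analyticOrderAt_pow ((evi_diff hF'e i).analyticAt z), nsmul_eq_mul, hai i]
    have h2 : ((∑ i, (a i - 1) : ℕ) : ℕ∞) ≤ analyticOrderAt (Pf F') z := by
      apply Pf_order huv hq hF'e hF'nz z (fun i => a i - 1)
      · intro i hi
        have h3 := ((evi_diff (u := u) (v := v) hF'e i).analyticAt z).analyticOrderAt_eq_zero.2 hi
        rw [hai i] at h3
        have h4 : a i = 0 := by exact_mod_cast h3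
        omega
      · intro i
        have : ((a i - 1 : ℕ) : ℕ∞) ≤ (a i : ℕ∞) := by exact_mod_cast Nat.sub_le _ _
        exact this.trans (hai i).ge
      · intro i
        have h3 := ord_deriv ((evi_diff (u := u) (v := v) hF'e i).analyticAt z)
        have e2 : deriv (fun z => evi u v i (F' z)) = fun z => evi u v i (dF F' z) :=
          funext fun z => evi_deriv hF'e i z
        rw [e2] at h3
        rw [ENat.natCast_sub, Nat.cast_one, tsub_le_iff_right]
        exact (hai i).ge.trans h3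
    have h3 := hM (ex z0 z) a (fun i => by rw [← hord, hai i])
    have e3 : (fun z => Pf F' z ^ A) = Pf F' ^ A := rfl
    have h1' : analyticOrderAt (fun z => ∏ i, (fun i z => Uf u v F i (ex z0 z)) i z ^ c i) z
        = ((∑ i, c i * a i : ℕ) : ℕ∞) := h1
    rw [h1', e3, analyticOrderAt_pow ((Pf_diff hF'e).analyticAt z)]
    calc ((∑ i, c i * a i : ℕ) : ℕ∞) ≤ ((A * ∑ i, (a i - 1) : ℕ) : ℕ∞) := by
          exact_mod_cast h3
      _ = A • ((∑ i, (a i - 1) : ℕ) : ℕ∞) := by rw [nsmul_eq_mul]; push_cast; rfl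
      _ ≤ _ := nsmul_le_nsmul_right h2 _
  · intro z ε hε hε1 hg
    have hg' : GoodAt (Uf u v F') z ε := hg
    have h1 := hC F' hF'e z ε hε hε1 hg'
    have hsp : 0 < sup (Uf u v F') z := sup_pos (hg'.1 0 z (mem_closedBall_self hε.le))
    have h2 := real_pow_ineqW (norm_nonneg (Pf F' z)) hsp
      (by linarith : (0 : ℝ) ≤ C) (by positivity : (0 : ℝ) ≤ 1 / ε)
      (fun i => norm_nonneg (Uf u v F' i z)) (fun i => le_sup (Uf u v F') z i) hc hκ h1
    rw [norm_pow]
    exact h2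

end Pool.Agent.Y216
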