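import Mathlib

/-!
The resultant of a polynomial of degree at most `n` with another one, and values at points of the
projective line.
-/

set_option autoImplicit false

open Polynomial

namespace Pool.Agent.Y216

variable {R : Type*} [CommRing R] {n : ℕ}

/-- the polynomial with given coefficients -/
noncomputable def pol (f : Fin (n + 1) → R) : R[X] := ∑ j, C (f j) * X ^ (j : ℕ)

theorem coeff_pol (f : Fin (n + 1) → R) (j : Fin (n + 1)) : (pol f).coeff (j : ℕ) = f j := by
  classical
  unfold pol
  rw [finsetSum_coeff, Finset.sum_eq_single j]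
  · simp
  · intro l _ hl
    rw [coeff_C_mul_X_pow, if_neg fun h => hl (Fin.ext h.symm)]
  · simp

theorem coeff_pol_lt (f : Fin (n + 1) → R) {i : ℕ} (hi : i < n + 1) :
    (pol f).coeff i = f ⟨i, hi⟩ := coeff_pol f ⟨i, hi⟩

theorem coeff_pol_ge (f : Fin (n + 1) → R) {i : ℕ} (hi : n + 1 ≤ i) : (pol f).coeff i = 0 := by
  unfold pol
  rw [finsetSum_coeff]
  refine Finset.sum_eq_zero fun l _ => ?_
  rw [coeff_C_mul_X_pow, if_neg]
  have := l.2
  omega

theorem natDegree_pol_le (f : Fin (n + 1) → R) : (pol f).natDegree ≤ n := by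
  rw [natDegree_le_iff_coeff_eq_zero]
  intro i hi
  exact coeff_pol_ge f (by omega)

theorem eq_pol {F : R[X]} (hF : F.natDegree ≤ n) : F = pol (fun j : Fin (n + 1) => F.coeff j) := by
  ext i
  by_cases hi : i < n + 1
  · rw [coeff_pol_lt _ hi]
  · rw [coeff_pol_ge _ (by omega), coeff_eq_zero_of_natDegree_lt (by omega)]

theorem pol_smul (c : R) (f : Fin (n + 1) → R) : pol (fun j => c * f j) = C c * pol f := by
  unfold pol
  rw [Finset.mul_sum]
  exact Finset.sum_congr rfl fun j _ => by rw [C_mul, mul_assoc]

theorem pol_add (f g : Fin (n + 1) → R) : pol (fun j => f j + g j) = pol f + pol g := by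
  unfold pol
  rw [← Finset.sum_add_distrib]
  exact Finset.sum_congr rfl fun j _ => by rw [C_add, add_mul]

theorem map_pol {S : Type*} [CommRing S] (φ : R →+* S) (f : Fin (n + 1) → R) :
    (pol f).map φ = pol (fun j => φ (f j)) := by
  unfold pol
  rw [Polynomial.map_sum]
  exact Finset.sum_congr rfl fun j _ => by
    rw [Polynomial.map_mul, map_C, Polynomial.map_pow, map_X]

/-- the value of the binary form with coefficients `f` at `(u, v)` -/
def bev (u v : R) (f : Fin (n + 1) → R) : R := ∑ l : Fin (n + 1), u ^ (n - l) * v ^ (l : ℕ) * f l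

/-- the rows of the product of the evaluation matrix and the Sylvester matrix -/
theorem row_left (u v : R) (f g : Fin (n + 1) → R) (j : Fin n) :
    ∑ i : Fin (n + n), v ^ (i : ℕ) * u ^ ((Fin.rev i : Fin (n + n)) : ℕ) *
      sylvester (pol f) (pol g) n n i (j.castAdd n) =
      v ^ (j : ℕ) * u ^ (n - 1 - j) * bev u v g := by
  classical
  unfold bev
  rw [Finset.mul_sum]
  have hj := j.2
  symm
  refine Fintype.sum_of_injective
    (fun l : Fin (n + 1) => (⟨j + l, by have := l.2; omega⟩ : Fin (n + n)))
    (fun a b h => by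
      have := congrArg Fin.val h
      simp only at this
      exact Fin.ext (by omega)) _ _ (fun i hi => ?_) fun l => ?_
  · rw [sylvester, Matrix.of_apply, Fin.addCases_left, if_neg, mul_zero]
    intro h
    rw [Set.mem_Icc] at h
    exact hi ⟨⟨i - j, by omega⟩, Fin.ext (by simp only; omega)⟩
  · have hl := l.2
    rw [sylvester, Matrix.of_apply, Fin.addCases_left, if_pos (by rw [Set.mem_Icc]; simp only; omega)]
    simp only [Fin.val_rev]
    rw [Nat.add_sub_cancel_left, coeff_pol,
      show n + n - (↑j + ↑l + 1) = (n - 1 - j) + (n - l) by omega, pow_add, pow_add]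
    ring

theorem row_right (u v : R) (f g : Fin (n + 1) → R) (j : Fin n) :
    ∑ i : Fin (n + n), v ^ (i : ℕ) * u ^ ((Fin.rev i : Fin (n + n)) : ℕ) *
      sylvester (pol f) (pol g) n n i (j.natAdd n) =
      v ^ (j : ℕ) * u ^ (n - 1 - j) * bev u v f := by
  classical
  unfold bev
  rw [Finset.mul_sum]
  have hj := j.2
  symm
  refine Fintype.sum_of_injective
    (fun l : Fin (n + 1) => (⟨j + l, by have := l.2; omega⟩ : Fin (n + n)))
    (fun a b h => by
      have := congrArg Fin.val h
      simp only at this
      exact Fin.ext (by omega)) _ _ (fun i hi => ?_) fun l => ?_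
  · rw [sylvester, Matrix.of_apply, Fin.addCases_right, if_neg, mul_zero]
    intro h
    rw [Set.mem_Icc] at h
    exact hi ⟨⟨i - j, by omega⟩, Fin.ext (by simp only; omega)⟩
  · have hl := l.2
    rw [sylvester, Matrix.of_apply, Fin.addCases_right, if_pos (by rw [Set.mem_Icc]; simp only; omega)]
    simp only [Fin.val_rev]
    rw [Nat.add_sub_cancel_left, coeff_pol,
      show n + n - (↑j + ↑l + 1) = (n - 1 - j) + (n - l) by omega, pow_add, pow_add]
    ring

/-- the scaling of the resultant -/
theorem res_scale (f g : Fin (n + 1) → R) (t w s : R) :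
    resultant (pol fun j => t * f j) (pol fun j => (t * w) * g j + s * (t * f j)) n n =
      t ^ n * (t * w) ^ n * resultant (pol f) (pol g) n n := by
  rw [pol_add, pol_smul t f, pol_smul (t * w) g,
    show (fun j => s * (t * f j)) = fun j => (s * t) * f j by funext j; ring, pol_smul (s * t) f,
    show C (t * w) * pol g + C (s * t) * pol f = C (t * w) * pol g + C t * pol f * C s by
      simp only [C_mul]; ring,
    resultant_add_mul_right _ _ _ _ _ (by simp) ((natDegree_C_mul_le _ _).trans
      (natDegree_pol_le f)), resultant_C_mul_left, resultant_C_mul_right]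
  ring

/-- coefficients of the product with a linear polynomial -/
def mulLin (b : R) (g : Fin (n + 1) → R) : Fin (n + 2) → R :=
  fun l => Fin.cases (motive := fun _ => R) 0 g l - b * Fin.lastCases (motive := fun _ => R) 0 g l

theorem pol_mulLin (b : R) (g : Fin (n + 1) → R) : pol (mulLin b g) = (X - C b) * pol g := by
  have h1 : pol (mulLin b g) =
      pol (fun l : Fin (n + 2) => Fin.cases (motive := fun _ => R) 0 g l) +
        C (-b) * pol (fun l : Fin (n + 2) => Fin.lastCases (motive := fun _ => R) 0 g l) := by
    rw [← pol_smul, ← pol_add]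
    congr 1
    funext l
    unfold mulLin
    ring
  have h2 : pol (fun l : Fin (n + 2) => Fin.cases (motive := fun _ => R) 0 g l) = X * pol g := by
    unfold pol
    rw [Fin.sum_univ_succ, Finset.mul_sum]
    simp only [Fin.cases_zero, map_zero, zero_mul, zero_add, Fin.cases_succ, Fin.val_succ]
    exact Finset.sum_congr rfl fun j _ => by ring
  have h3 : pol (fun l : Fin (n + 2) => Fin.lastCases (motive := fun _ => R) 0 g l) = pol g := by
    unfold pol
    rw [Fin.sum_univ_castSucc]
    simp only [Fin.lastCases_last, map_zero, zero_mul, add_zero, Fin.lastCases_castSucc,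
      Fin.val_castSucc]
  rw [h1, h2, h3, C_neg]
  ring

theorem bev_mulLin (u v b : R) (g : Fin (n + 1) → R) :
    bev u v (mulLin b g) = (v - b * u) * bev u v g := by
  have h1 : bev u v (mulLin b g) =
      bev u v (fun l : Fin (n + 2) => Fin.cases (motive := fun _ => R) 0 g l) -
        b * bev u v (fun l : Fin (n + 2) => Fin.lastCases (motive := fun _ => R) 0 g l) := by
    unfold bev
    rw [Finset.mul_sum, ← Finset.sum_sub_distrib]
    refine Finset.sum_congr rfl fun l _ => ?_
    unfold mulLin
    ring
  have h2 : bev u v (fun l : Fin (n + 2) => Fin.cases (motive := fun _ => R) 0 g l) =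
      v * bev u v g := by
    unfold bev
    rw [Fin.sum_univ_succ, Finset.mul_sum]
    simp only [Fin.cases_zero, mul_zero, zero_add, Fin.cases_succ, Fin.val_succ]
    refine Finset.sum_congr rfl fun j _ => ?_
    rw [Nat.add_sub_add_right]
    ring
  have h3 : bev u v (fun l : Fin (n + 2) => Fin.lastCases (motive := fun _ => R) 0 g l) =
      u * bev u v g := by
    unfold bev
    rw [Fin.sum_univ_castSucc, Finset.mul_sum]
    simp only [Fin.lastCases_last, mul_zero, add_zero, Fin.lastCases_castSucc, Fin.val_castSucc]
    refine Finset.sum_congr rfl fun j _ => ?_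
    have := j.2
    rw [show n + 1 - (j : ℕ) = (n - j) + 1 by omega]
    ring
  rw [h1, h2, h3]
  ring

end Pool.Agent.Y216
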