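import Pool.Agent.Y216.RncA
import Pool.Agent.W603.PV.Main

/-!
The resultant of a squarefree polynomial without constant roots and its coefficientwise derivative.
-/

set_option autoImplicit false

open Polynomial FF Pool.Agent.W603.LV Pool.Agent.W603.PV

namespace Pool.Agent.Y216

section

variable {k : Type} [Field k] {K : Type} [Field K] [Algebra k K] {n : ℕ}

/-- the coefficientwise derivation -/
noncomputable def dco (D : Derivation k K K) (F : K[X]) : K[X] := F.sum fun i a => monomial i (D a)

theorem coeff_dco (D : Derivation k K K) (F : K[X]) (i : ℕ) :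
    (dco D F).coeff i = D (F.coeff i) := by
  classical
  unfold dco
  rw [Polynomial.sum_def, finsetSum_coeff]
  by_cases hi : i ∈ F.support
  · rw [Finset.sum_eq_single i]
    · rw [coeff_monomial, if_pos rfl]
    · intro j _ hj
      rw [coeff_monomial, if_neg hj]
    · exact fun h => absurd hi h
  · rw [Finset.sum_eq_zero, notMem_support_iff.1 hi, map_zero]
    intro j hj
    rw [coeff_monomial, if_neg]
    rintro rfl
    exact hi hj

theorem dco_mul (D : Derivation k K K) (F G : K[X]) :
    dco D (F * G) = dco D F * G + F * dco D G := by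
  ext i
  rw [coeff_dco, coeff_mul, map_sum, coeff_add, coeff_mul, coeff_mul, ← Finset.sum_add_distrib]
  refine Finset.sum_congr rfl fun x _ => ?_
  rw [D.leibniz, coeff_dco, coeff_dco, smul_eq_mul, smul_eq_mul]
  ring

theorem dco_pol (D : Derivation k K K) (f : Fin (n + 1) → K) :
    dco D (pol f) = pol fun j => D (f j) := by
  ext i
  rw [coeff_dco]
  by_cases hi : i < n + 1
  · rw [coeff_pol_lt _ hi, coeff_pol_lt _ hi]
  · rw [coeff_pol_ge _ (by omega), coeff_pol_ge _ (by omega), map_zero]

end

variable {k : Type} [Field k] [IsAlgClosed k] [CharZero k] {K : Type} [Field K] [Algebra k K]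
  [IsFF k K] {n : ℕ}

theorem natDegree_pol {f : Fin (n + 1) → K} (hf : f (Fin.last n) ≠ 0) : (pol f).natDegree = n := by
  refine natDegree_eq_of_le_of_coeff_ne_zero (natDegree_pol_le f) ?_
  have h := coeff_pol f (Fin.last n)
  rw [Fin.val_last] at h
  rwa [h]

/-- The resultant does not vanish. -/
theorem res_ne_zero {D : Derivation k K K} (hD : D ≠ 0) {f : Fin (n + 1) → K}
    (hf : f (Fin.last n) ≠ 0) (hsq : Squarefree (pol f))
    (hroot : ∀ b : k, (pol f).eval (algebraMap k K b) ≠ 0) :
    resultant (pol f) (pol fun j => D (f j)) n n ≠ 0 := by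
  intro h0
  have hdeg := natDegree_pol hf
  obtain ⟨d, hd⟩ := Nat.exists_eq_add_of_le (natDegree_pol_le fun j => D (f j))
  have hlast : (pol f).coeff n ≠ 0 := by
    have h := coeff_pol f (Fin.last n)
    rw [Fin.val_last] at h
    rwa [h]
  have h1 : resultant (pol f) (pol fun j => D (f j)) n
      ((pol fun j => D (f j)).natDegree + d) = 0 := by
    rw [← hd]; exact h0
  rw [resultant_add_right_deg _ _ _ _ _ le_rfl] at h1
  have h2 := (mul_eq_zero.1 h1).resolve_left (pow_ne_zero _ hlast)
  have h3 : resultant (pol f) (pol fun j => D (f j)) = 0 := by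
    rw [hdeg]; exact h2
  rw [resultant_eq_zero_iff] at h3
  have hF0 : pol f ≠ 0 := fun h => hlast (by rw [h, coeff_zero])
  apply h3.2
  refine isCoprime_of_irreducible_dvd (fun h => hF0 h.1) fun p hp hpF hpG => ?_
  -- a monic irreducible common factor
  obtain ⟨p', hp'⟩ : ∃ p', p' = C p.leadingCoeff⁻¹ * p := ⟨_, rfl⟩
  have hlc : p.leadingCoeff ≠ 0 := leadingCoeff_ne_zero.2 hp.ne_zero
  have hmon : p'.Monic := by
    rw [hp', Monic, leadingCoeff_mul, leadingCoeff_C, inv_mul_cancel₀ hlc]
  have hu : IsUnit (C p.leadingCoeff⁻¹ : K[X]) := isUnit_C.2 (inv_ne_zero hlc).isUnit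
  have hirr : Irreducible p' := by
    rw [hp']
    exact (irreducible_isUnit_mul hu).2 hp
  have hdF : p' ∣ pol f := by
    rw [hp']
    exact hu.mul_left_dvd.2 hpF
  have hdG : p' ∣ dco D (pol f) := by
    rw [dco_pol, hp']
    exact hu.mul_left_dvd.2 hpG
  obtain ⟨Q, hQ⟩ := hdF
  rw [hQ, dco_mul] at hdG
  have h4 : p' ∣ dco D p' * Q := (dvd_add_left (dvd_mul_right _ _)).1 hdG
  have h5 : p' ∣ dco D p' := by
    rcases hirr.prime.dvd_or_dvd h4 with h | h
    · exact h
    · exfalso
      obtain ⟨Q', rfl⟩ := h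
      have := hsq p' ⟨Q', by rw [hQ]; ring⟩
      exact hirr.not_isUnit this
  have h6 : dco D p' = 0 := by
    by_contra hne
    have h7 := natDegree_le_of_dvd h5 hne
    have h8 : (dco D p').coeff (dco D p').natDegree ≠ 0 := by
      rw [coeff_natDegree]
      exact leadingCoeff_ne_zero.2 hne
    rw [coeff_dco] at h8
    apply h8
    rcases h7.lt_or_eq with h | h
    · rw [coeff_eq_zero_of_natDegree_lt h, map_zero]
    · rw [← h, coeff_natDegree, hmon.leadingCoeff, D.map_one_eq_zero]
  -- the factor has constant coefficients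
  have h7 : ∀ i, ∃ c : k, p'.coeff i = algebraMap k K c := fun i => by
    have h := coeff_dco D p' i
    rw [h6, coeff_zero] at h
    exact const_of_der hD h.symm
  choose c hc using h7
  obtain ⟨p₀, hp₀⟩ : ∃ p₀ : k[X], p₀ = ∑ i ∈ Finset.range (p'.natDegree + 1), monomial i (c i) :=
    ⟨_, rfl⟩
  have h8 : p₀.map (algebraMap k K) = p' := by
    rw [hp₀, Polynomial.map_sum]
    conv_rhs => rw [p'.as_sum_range]
    exact Finset.sum_congr rfl fun i _ => by rw [map_monomial, hc i]
  have h9 : p₀.degree ≠ 0 := by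
    have h10 : p₀.degree = p'.degree := by
      rw [← h8, degree_map]
    rw [h10]
    exact hirr.degree_pos.ne'
  obtain ⟨b, hb⟩ := IsAlgClosed.exists_root p₀ h9
  apply hroot b
  rw [hQ, eval_mul, ← h8, eval_map_algebraMap, aeval_algebraMap_apply, coe_aeval_eq_eval,
    show eval b p₀ = 0 from hb, map_zero, zero_mul]

end Pool.Agent.Y216
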