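import Pool.Agent.Y216.RncD

/-!
Hyperplanes which are dual to points of a rational normal curve: the inequality with weights and
truncated counting functions.
-/

set_option autoImplicit false

open Polynomial FF Pool.Agent.W603.LV Pool.Agent.W603.PV Pool.Agent.W601.VF

namespace Pool.Agent.Y216

variable {k : Type} [Field k] [IsAlgClosed k] [CharZero k] {L : Type} [Field L] [Algebra k L]
  [IsFF k L] {n q : ℕ}

open Classical in
/-- From local estimates to an inequality for the height, with weights and bad places. -/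
theorem glob_trunc {b : ℕ} {D : Derivation k L L} (hD : D ≠ 0) {f : Fin (n + 1) → L}
    (hf : ∃ j, f j ≠ 0) {a : Fin q → Fin (n + 1) → k} (hne : ∀ i, lv (a i) f ≠ 0) {W : L}
    (hloc : ∀ P : Place k L, 2 * b * pord P f + b * vo P D +
      ∑ i, max (P.ord (lv (a i) f) - pord P f - 1) 0 ≤ P.ord W)
    {w : Fin q → ℝ} (hw : ∀ i, w i ≤ 1) (B : Finset (Place k L))
    (hB : ∀ P ∉ B, ((Finset.univ.filter fun i => pord P f < P.ord (lv (a i) f)).card : ℝ) ≤
      ∑ i, (1 - w i) * ((P.ord (lv (a i) f) - pord P f : ℤ) : ℝ)) :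
    (∑ i, w i - 2 * b) * (pht k f : ℝ) ≤
      ∑ P ∈ B, ((Finset.univ.filter fun i => pord P f < P.ord (lv (a i) f)).card : ℝ)
        + b * (canDeg k L : ℝ) := by
  obtain ⟨T1, hT1⟩ := exists_supp (k := k) Finset.univ f
  obtain ⟨T2, hT2⟩ := exists_supp (k := k) Finset.univ fun i => lv (a i) f
  obtain ⟨T3, hT3⟩ := exists_supp (k := k) (Finset.univ : Finset (Fin 1)) ![W]
  set T : Finset (Place k L) := T1 ∪ T2 ∪ T3 ∪ (vo_finite hD).toFinset ∪ B with hT
  have hTp : ∀ P, pord P f ≠ 0 → P ∈ T := by
    intro P hP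
    obtain ⟨j, _, hj⟩ := exists_pord P hf
    rw [← hj] at hP
    have := hT1 j (Finset.mem_univ _) P hP
    simp [hT, this]
  have hTv : ∀ P, vo P D ≠ 0 → P ∈ T := by
    intro P hP
    simp [hT, hP]
  have hTl : ∀ i, ∀ P : Place k L, P.ord (lv (a i) f) ≠ 0 → P ∈ T := by
    intro i P hP
    have := hT2 i (Finset.mem_univ _) P hP
    simp [hT, this]
  have hTW : ∀ P : Place k L, P.ord W ≠ 0 → P ∈ T := by
    intro P hP
    have := hT3 0 (Finset.mem_univ _) P hP
    simp [hT, this]
  have hBT : B ⊆ T := by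
    intro P hP
    simp [hT, hP]
  have hs3 : ∑ P ∈ T, vo P D = - canDeg k L := canDeg_finset hD T hTv
  have hs4 : ∑ P ∈ T, pord P f = - pht k f := by
    unfold pht
    rw [neg_neg, finsum_eq_sum_of_support_subset (s := T)]
    intro P hP
    exact Finset.mem_coe.2 (hTp P hP)
  have hsa : ∀ i, ∑ P ∈ T, (P.ord (lv (a i) f) - pord P f) = pht k f := by
    intro i
    rw [Finset.sum_sub_distrib, hs4, sum_ord_finset _ T (hTl i)]
    ring
  have hge : ∀ (P : Place k L) i, pord P f ≤ P.ord (lv (a i) f) := fun P i =>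
    one_le_of_ge (hne i) (lv_ge (a i) fun l => ge_pord P f l)
  have h1 := Finset.sum_le_sum fun P (_ : P ∈ T) => hloc P
  rw [sum_ord_finset W T hTW, Finset.sum_add_distrib, Finset.sum_add_distrib, ← Finset.mul_sum,
    ← Finset.mul_sum, hs3, hs4] at h1
  have h2 : ∑ P ∈ T, ∑ i, w i * ((P.ord (lv (a i) f) - pord P f : ℤ) : ℝ) =
      (∑ i, w i) * (pht k f : ℝ) := by
    rw [Finset.sum_comm, Finset.sum_mul]
    refine Finset.sum_congr rfl fun i _ => ?_
    rw [← Finset.mul_sum, ← hsa i]
    push_cast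
    rfl
  have h3 : ∀ P ∈ T, ∑ i, w i * ((P.ord (lv (a i) f) - pord P f : ℤ) : ℝ) ≤
      ((∑ i, max (P.ord (lv (a i) f) - pord P f - 1) 0 : ℤ) : ℝ) +
        (if P ∈ B then ((Finset.univ.filter fun i => pord P f < P.ord (lv (a i) f)).card : ℝ)
          else 0) := by
    intro P _
    have h4 : ∑ i, max (P.ord (lv (a i) f) - pord P f - 1) 0 =
        ∑ i, (P.ord (lv (a i) f) - pord P f) -
          ((Finset.univ.filter fun i => pord P f < P.ord (lv (a i) f)).card : ℤ) := by
      rw [Finset.card_filter]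
      push_cast
      rw [← Finset.sum_sub_distrib]
      refine Finset.sum_congr rfl fun i _ => ?_
      have := hge P i
      split_ifs with h
      · rw [max_eq_left (by omega)]
      · rw [max_eq_right (by omega)]; omega
    have h4' : ((∑ i, max (P.ord (lv (a i) f) - pord P f - 1) 0 : ℤ) : ℝ) =
        ∑ i, ((P.ord (lv (a i) f) - pord P f : ℤ) : ℝ) -
          ((Finset.univ.filter fun i => pord P f < P.ord (lv (a i) f)).card : ℝ) := by
      rw [h4]
      push_cast
      rfl
    have h5 : ∑ i, (1 - w i) * ((P.ord (lv (a i) f) - pord P f : ℤ) : ℝ) =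
        ∑ i, ((P.ord (lv (a i) f) - pord P f : ℤ) : ℝ) -
          ∑ i, w i * ((P.ord (lv (a i) f) - pord P f : ℤ) : ℝ) := by
      rw [← Finset.sum_sub_distrib]
      exact Finset.sum_congr rfl fun i _ => by ring
    have h6 : 0 ≤ ∑ i, (1 - w i) * ((P.ord (lv (a i) f) - pord P f : ℤ) : ℝ) :=
      Finset.sum_nonneg fun i _ => mul_nonneg (sub_nonneg.2 (hw i)) (by
        exact_mod_cast sub_nonneg.2 (hge P i))
    rw [h4']
    split_ifs with h
    · linarith
    · have := hB P h
      linarith
  have h7 := Finset.sum_le_sum h3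
  rw [h2, Finset.sum_add_distrib, Finset.sum_ite_mem, Finset.inter_eq_right.2 hBT] at h7
  have h8 : (∑ P ∈ T, ((∑ i, max (P.ord (lv (a i) f) - pord P f - 1) 0 : ℤ) : ℝ)) ≤
      2 * b * (pht k f : ℝ) + b * (canDeg k L : ℝ) := by
    have h9 : ∑ P ∈ T, ∑ i, max (P.ord (lv (a i) f) - pord P f - 1) 0 ≤
        2 * b * pht k f + b * canDeg k L := by linarith
    exact_mod_cast h9
  linarith

open Classical in
/-- The inequality with weights and truncated counting functions. -/
theorem rnc_trunc {u v : Fin q → k} (huv : ∀ i j, i ≠ j → u i * v j ≠ u j * v i) {w : Fin q → ℝ}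
    (hw : ∀ i, w i ≤ 1) {c : ℝ} (hc : 0 ≤ c) (hcan : 0 ≤ (canDeg k L : ℝ) + c)
    (B : Finset (Place k L)) {n : ℕ} (hsum : 2 * (n : ℝ) < ∑ i, w i)
    {f : Fin (n + 1) → L} (hlast : f (Fin.last n) ≠ 0) (hsq : Squarefree (pol f))
    (hne : ∀ i, lv (rnc n u v i) f ≠ 0)
    (hB : ∀ P ∉ B,
      ((Finset.univ.filter fun i => pord P f < P.ord (lv (rnc n u v i) f)).card : ℝ) ≤
      ∑ i, (1 - w i) * ((P.ord (lv (rnc n u v i) f) - pord P f : ℤ) : ℝ)) :
    (∑ i, w i - 2 * n) * (pht k f : ℝ) ≤
      ∑ P ∈ B, ((Finset.univ.filter fun i => pord P f < P.ord (lv (rnc n u v i) f)).card : ℝ) +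
        n * ((canDeg k L : ℝ) + c) := by
  induction n with
  | zero =>
    have h1 : pht k f = 0 := Pool.Agent.W601.VF.pht_const (l := 0) (by simpa using hlast)
      (c := fun _ => 1) fun j => by
        rw [show j = 0 from Fin.ext (by have := j.2; omega), map_one, mul_one]
    rw [h1]
    have h2 : (0 : ℝ) ≤ ∑ P ∈ B,
        ((Finset.univ.filter fun i => pord P f < P.ord (lv (rnc 0 u v i) f)).card : ℝ) :=
      Finset.sum_nonneg fun _ _ => by positivity
    simpa using h2
  | succ n ih =>
    by_cases hroot : ∃ b : k, (pol f).eval (algebraMap k L b) = 0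
    · obtain ⟨b, hb⟩ := hroot
      obtain ⟨G, hG⟩ := dvd_iff_isRoot.2 (show (pol f).IsRoot (algebraMap k L b) from hb)
      have hF0 : pol f ≠ 0 := hsq.ne_zero
      have hG0 : G ≠ 0 := by
        rintro rfl
        exact hF0 (by rw [hG, mul_zero])
      have hGd : G.natDegree ≤ n := by
        have h1 := natDegree_pol_le f
        rw [hG, natDegree_mul (X_sub_C_ne_zero _) hG0, natDegree_X_sub_C] at h1
        omega
      obtain ⟨g, hg⟩ : ∃ g : Fin (n + 1) → L, g = fun j : Fin (n + 1) => G.coeff (j : ℕ) :=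
        ⟨_, rfl⟩
      have hGg : G = pol g := by
        rw [hg]
        exact eq_pol hGd
      have hfg : f = mulLin (algebraMap k L b) g := by
        apply pol_inj
        rw [pol_mulLin, ← hGg, hG]
      have hglast : g (Fin.last n) ≠ 0 := by
        rwa [hfg, mulLin_last] at hlast
      have hgsq : Squarefree (pol g) := by
        rw [hG, hGg] at hsq
        exact hsq.of_mul_right
      have hlv : ∀ i, lv (rnc (n + 1) u v i) f =
          algebraMap k L (v i - b * u i) * lv (rnc n u v i) g := by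
        intro i
        rw [lv_rnc, lv_rnc, hfg, bev_mulLin, map_sub, map_mul]
      have hc' : ∀ i, v i - b * u i ≠ 0 := by
        intro i h0
        apply hne i
        rw [hlv, h0, map_zero, zero_mul]
      have hgne : ∀ i, lv (rnc n u v i) g ≠ 0 := by
        intro i h0
        apply hne i
        rw [hlv, h0, mul_zero]
      have hord : ∀ (P : Place k L) i, P.ord (lv (rnc (n + 1) u v i) f) =
          P.ord (lv (rnc n u v i) g) := by
        intro P i
        rw [hlv, P.ord_mul ((_root_.map_ne_zero _).2 (hc' i)) (hgne i), P.ord_const (hc' i),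
          zero_add]
      have hpord : ∀ P : Place k L, pord P f = pord P g := fun P => by
        rw [hfg]
        exact pord_mulLin P hglast
      have hpht : pht k f = pht k g := by
        unfold pht
        simp only [hpord]
      simp only [hord, hpord] at hB ⊢
      have h1 := ih (by push_cast at hsum; linarith) hglast hgsq hgne hB
      have h2 : (0 : ℝ) ≤ (pht k g : ℝ) := by
        exact_mod_cast pht_nonneg' (k := k) ⟨_, hglast⟩
      have e : ((n + 1 : ℕ) : ℝ) = n + 1 := by push_cast; ring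
      rw [hpht, e]
      nlinarith
    · push Not at hroot
      obtain ⟨D, hD⟩ := exists_der (k := k) (K := L)
      have hR := res_ne_zero hD hlast hsq hroot
      have hq : n + 1 + (n + 1) ≤ q := by
        have h1 : ∑ i, w i ≤ q := by
          calc ∑ i, w i ≤ ∑ _i : Fin q, (1 : ℝ) := Finset.sum_le_sum fun i _ => hw i
            _ = q := by simp
        have h2 : ((n + 1 + (n + 1) : ℕ) : ℝ) < q := by
          push_cast at hsum ⊢
          linarith
        exact_mod_cast h2.le
      have h1 := glob_trunc (b := n + 1) hD ⟨_, hlast⟩ hne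
        (fun P => rnc_local P hD ⟨_, hlast⟩ huv hq hne hR) hw B hB
      refine h1.trans (add_le_add_right (mul_le_mul_of_nonneg_left ?_ (by positivity)) _)
      linarith

end Pool.Agent.Y216
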