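import Pool.Agent.W601.VF.Cov4

/-!
Varieties over a function field with a generically finite map to a projective space: from an
inequality for the image points outside a hypersurface to Vojta's height inequality.
-/

set_option autoImplicit false

namespace Pool.Agent.Y216

open FF MvPolynomial Pool.Agent.W603.LV Pool.Agent.W603.PV Pool.Agent.W601.VF

universe u v w

variable {k : Type u} [Field k] {F : Type v} [Field F] [Algebra k F] {N n : ℕ}

/-- The height inequality with truncated counting functions for the image `img φ x` of the points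
`x`, outside the divisor `Q = 0`, of the projective variety with the ideal `p`, whose image is
outside the hypersurface `Δ = 0`, with weights `w i` of the hyperplanes `ℓ i` and the constant
`b`. -/
def ImageBoundOut (p : Ideal (MvPolynomial (Fin (N + 1)) F)) (Q : MvPolynomial (Fin (N + 1)) F)
    (e : ℕ) (φ : Fin (n + 1) → MvPolynomial (Fin (N + 1)) F) {q : ℕ}
    (ℓ : Fin q → Fin (n + 1) → k) (w : Fin q → ℝ) (b : ℕ) (Δ : MvPolynomial (Fin (n + 1)) k) :
    Prop :=
  ∃ C : ℕ, ∀ (L : Type w) [Field L] [Algebra k L] [Algebra F L] [IsScalarTower k F L]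
    [FiniteDimensional F L] (x : Fin (N + 1) → L), IsPt p x → aeval x Q ≠ 0 →
    (∀ i, aeval x (lform φ (ℓ i)) ≠ 0) → aeval (img φ x) Δ ≠ 0 →
    (∑ i, w i - 2 * (b : ℝ)) * (pht k (img φ x) : ℝ) ≤
      ∑ i, ((meets (k := k) Q e x ∩ {P | 0 < cont P φ (ℓ i) x}).ncard : ℝ) +
        (b : ℝ) * (canDeg k L : ℝ) + C * (Module.finrank F L : ℝ)

variable [IsAlgClosed k] [CharZero k] [IsFF k F]

/-- The affine form of the height inequality. -/
theorem affine_out {q : ℕ} {ℓ : Fin q → Fin (n + 1) → k}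
    {w : Fin q → ℝ} {b : ℕ} (hb1 : 1 ≤ b)
    (hq : 2 * (b : ℝ) < ∑ i, w i)
    {p : Ideal (MvPolynomial (Fin (N + 1)) F)} [p.IsPrime] (hx : ∃ j, X j ∉ p)
    {Q : MvPolynomial (Fin (N + 1)) F} {e : ℕ}
    {φ : Fin (n + 1) → MvPolynomial (Fin (N + 1)) F} {Δ : MvPolynomial (Fin (n + 1)) k}
    (hR : ImageBoundOut.{u, v, w} p Q e φ ℓ w b Δ) (hgen : GenFin p φ) :
    ∃ g : MvPolynomial (Fin (N + 1)) F, g ∉ p ∧ ∃ (B C : ℕ), ∀ (L : Type w) [Field L] [Algebra k L]
      [Algebra F L] [IsScalarTower k F L] [FiniteDimensional F L] (x : Fin (N + 1) → L),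
      IsPt p x → aeval x Q ≠ 0 → (∀ i, aeval x (lform φ (ℓ i)) ≠ 0) → aeval (img φ x) Δ ≠ 0 →
        aeval x g ≠ 0 →
        pht k x ≤ B * (canDeg k L + (meets (k := k) Q e x).ncard) + C * Module.finrank F L := by
  classical
  obtain ⟨C1, hC1⟩ := hR
  obtain ⟨l, hl⟩ := hx
  obtain ⟨t, ht⟩ := IsFF.exists_transcendental (k := k) (K := F)
  have hq0 : 1 ≤ q := by
    by_contra hcon
    have h0 : q = 0 := by omega
    subst h0
    rw [Finset.univ_eq_empty, Finset.sum_empty] at hq
    have : (0 : ℝ) ≤ (b : ℝ) := by positivity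
    linarith
  set A := MvPolynomial (Fin (N + 1)) F ⧸ p with hA
  set mk : MvPolynomial (Fin (N + 1)) F →+* A := Ideal.Quotient.mk p with hmk
  have hmk0 : ∀ H : MvPolynomial (Fin (N + 1)) F, mk H = 0 ↔ H ∈ p := fun H =>
    Ideal.Quotient.eq_zero_iff_mem
  set s : Fin (n + 1) × Fin (n + 1) → A := fun a => if φ a.2 ∈ p then 0 else mk (φ a.1) with hs
  set t' : Fin (n + 1) × Fin (n + 1) → A := fun a => if φ a.2 ∈ p then 1 else mk (φ a.2) with ht'
  have ht'0 : ∀ a, t' a ≠ 0 := by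
    intro a
    simp only [ht']
    split_ifs with h
    · exact one_ne_zero
    · exact fun h0 => h ((hmk0 _).1 h0)
  have hst : (fun a => algebraMap A (FractionRing A) (s a) / algebraMap A (FractionRing A) (t' a)) =
      fun a : Fin (n + 1) × Fin (n + 1) => algebraMap A (FractionRing A) (mk (φ a.1)) /
        algebraMap A (FractionRing A) (mk (φ a.2)) := by
    funext a
    simp only [hs, ht']
    split_ifs with h
    · rw [(hmk0 _).2 h, map_zero, map_one, div_one, div_zero]
    · rfl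
  obtain ⟨g', hg', B0, E, hbound⟩ := alg_bound.{u, v, w, 0, 0, v} (k := k) s t' ht'0
    (fun j : Fin (N + 1) => mk (X j)) (fun _ => mk (X l)) (fun _ h0 => hl ((hmk0 _).1 h0)) (by
      intro j
      rw [hst]
      exact hgen j l)
  obtain ⟨g, rfl⟩ := Ideal.Quotient.mk_surjective g'
  have hgp : g ∉ p := fun h => hg' ((hmk0 _).2 h)
  -- the constants
  obtain ⟨K0, hK0⟩ : ∃ K0 : ℕ, 1 ≤ (K0 : ℝ) * (∑ i, w i - 2 * (b : ℝ)) := by
    have hc : 0 < ∑ i, w i - 2 * (b : ℝ) := by linarith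
    obtain ⟨K0, hK0⟩ := exists_nat_ge (1 / (∑ i, w i - 2 * (b : ℝ)))
    refine ⟨K0, ?_⟩
    rwa [div_le_iff₀ hc] at hK0
  set HE := (∑ c ∈ E, hgt k c).toNat with hHE
  set h0 := (hgt k t).toNat with hh0
  refine ⟨g * X l, ?_, (N + 1) * B0 * (K0 * (q * b)),
    (N + 1) * B0 * (K0 * (2 * q * b * h0 + C1) + HE), ?_⟩
  · intro h
    rcases Ideal.IsPrime.mem_or_mem inferInstance h with h | h
    · exact hgp h
    · exact hl h
  intro L _ _ _ _ _ x hxp hxQ hxℓ hxΔ hxg
  have hL : IsFF k L := isFF_of_finite (F := F)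
  rw [map_mul, aeval_X] at hxg
  have hxl : x l ≠ 0 := right_ne_zero_of_mul hxg
  have hxg' := left_ne_zero_of_mul hxg
  have h1 := hC1 L x hxp hxQ hxℓ hxΔ
  -- the homomorphism
  set θ : A →ₐ[F] L := Ideal.Quotient.liftₐ p (aeval x) hxp.2 with hθ
  have hθmk : ∀ H, θ (mk H) = aeval x H := fun H => rfl
  -- lower bound for the canonical degree
  have hcan := canDeg_ge (k := k) (K := L) (t := algebraMap F L t)
    ((transcendental_algebraMap_iff (algebraMap F L).injective).2 ht)
  rw [hgt_algebraMap t] at hcan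
  have ht0 : 0 ≤ hgt k t := hgt_nonneg _
  have htn : (h0 : ℤ) = hgt k t := Int.toNat_of_nonneg ht0
  rw [← htn] at hcan
  set m : ℤ := (Module.finrank F L : ℤ) with hm
  have hm0 : 0 ≤ m := by positivity
  set M : ℤ := ((meets (k := k) Q e x).ncard : ℤ) with hM
  have hM0 : 0 ≤ M := by positivity
  have hx0 : ∃ j, x j ≠ 0 := ⟨l, hxl⟩
  have hMfin : (meets (k := k) Q e x).Finite := meets_finite Q e hx0
  -- the bound for the height of the image
  set Y : ℤ := K0 * (q * M + b * (canDeg k L + 2 * h0 * m) + C1 * m) with hY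
  have hcan2 : 0 ≤ canDeg k L + 2 * h0 * m := by linarith
  have hY0 : 0 ≤ Y := by
    rw [hY]
    have : 0 ≤ (b : ℤ) * (canDeg k L + 2 * h0 * m) := mul_nonneg (by positivity) hcan2
    have h2 : 0 ≤ (C1 : ℤ) * m := mul_nonneg (by positivity) hm0
    have h3 : 0 ≤ (q : ℤ) * M := mul_nonneg (by positivity) hM0
    exact mul_nonneg (by positivity) (by linarith)
  have hf0 : ∃ j, img φ x j ≠ 0 := by
    by_contra hcon
    push Not at hcon
    apply hxℓ ⟨0, hq0⟩
    unfold lform
    rw [map_sum]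
    refine Finset.sum_eq_zero fun j _ => ?_
    have h2 : aeval x (φ j) = 0 := hcon j
    rw [map_mul, h2, mul_zero]
  have hpos := pht_nonneg (k := k) hf0
  have hYb : pht k (img φ x) ≤ Y := by
    have h2 : ∑ i, ((meets (k := k) Q e x ∩ {P | 0 < cont P φ (ℓ i) x}).ncard : ℝ) ≤
        (q : ℝ) * (M : ℝ) := by
      have h3 : ∀ i ∈ (Finset.univ : Finset (Fin q)),
          ((meets (k := k) Q e x ∩ {P | 0 < cont P φ (ℓ i) x}).ncard : ℝ) ≤ (M : ℝ) := by
        intro i _
        have h4 : (meets (k := k) Q e x ∩ {P | 0 < cont P φ (ℓ i) x}).ncard ≤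
            (meets (k := k) Q e x).ncard := Set.ncard_le_ncard Set.inter_subset_left hMfin
        rw [hM]
        exact_mod_cast h4
      refine (Finset.sum_le_sum h3).trans ?_
      rw [Finset.sum_const, nsmul_eq_mul, Finset.card_univ, Fintype.card_fin]
    have h5 : (pht k (img φ x) : ℝ) ≤ (K0 : ℝ) * ((∑ i, w i - 2 * (b : ℝ)) *
        (pht k (img φ x) : ℝ)) := by
      have h6 : (0 : ℝ) ≤ (pht k (img φ x) : ℝ) := by exact_mod_cast hpos
      calc (pht k (img φ x) : ℝ) = 1 * (pht k (img φ x) : ℝ) := (one_mul _).symm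
        _ ≤ ((K0 : ℝ) * (∑ i, w i - 2 * (b : ℝ))) * (pht k (img φ x) : ℝ) :=
            mul_le_mul_of_nonneg_right hK0 h6
        _ = _ := by ring
    have h7 : (∑ i, w i - 2 * (b : ℝ)) * (pht k (img φ x) : ℝ) ≤
        (q : ℝ) * (M : ℝ) + (b : ℝ) * (canDeg k L : ℝ) + C1 * (Module.finrank F L : ℝ) := by
      linarith
    have h8 : (0 : ℝ) ≤ (b : ℝ) * (2 * h0 * (m : ℝ)) := by
      have : (0 : ℝ) ≤ (m : ℝ) := by exact_mod_cast hm0
      positivity
    have h9 : (pht k (img φ x) : ℝ) ≤ (Y : ℝ) := by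
      refine (h5.trans (mul_le_mul_of_nonneg_left h7 (by positivity))).trans ?_
      rw [hY]
      push_cast
      apply mul_le_mul_of_nonneg_left _ (by positivity)
      have h10 : ((Module.finrank F L : ℕ) : ℝ) = (m : ℝ) := by rw [hm]; push_cast; rfl
      rw [h10]
      nlinarith
    exact_mod_cast h9
  -- the heights of the coordinates
  have h2 : θ (mk g) ≠ 0 := by rw [hθmk]; exact hxg'
  have h3 := hbound L θ h2 Y hY0 (by
    intro a
    simp only [hs, ht']
    split_ifs with h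
    · rw [map_zero, zero_div, hgt_zero]; exact hY0
    · rw [hθmk, hθmk]
      by_cases h4 : aeval x (φ a.2) = 0
      · rw [h4, div_zero, hgt_zero]; exact hY0
      · exact (ratio_le (k := k) (f := img φ x) h4 a.1).trans hYb)
  have h4 : ∑ c ∈ E, hgt k (algebraMap F L c) = m * ∑ c ∈ E, hgt k c := by
    rw [Finset.mul_sum]
    exact Finset.sum_congr rfl fun c _ => hgt_algebraMap c
  have hHE0 : (HE : ℤ) = ∑ c ∈ E, hgt k c :=
    Int.toNat_of_nonneg (Finset.sum_nonneg fun _ _ => hgt_nonneg _)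
  have h5 : pht k x ≤ ∑ j : Fin (N + 1), (B0 * Y + B0 * (m * HE)) := by
    refine (pht_le (k := k) x hxl).trans (Finset.sum_le_sum fun j _ => ?_)
    have h6 := (h3 j).2
    rw [hθmk, hθmk, aeval_X, aeval_X, h4, ← hHE0] at h6
    exact h6
  rw [Finset.sum_const, Finset.card_univ, Fintype.card_fin, nsmul_eq_mul] at h5
  refine h5.trans ?_
  have h6 : Y ≤ K0 * ((q * b) * (canDeg k L + M) + (2 * q * b * h0 + C1) * m) := by
    rw [hY]
    apply mul_le_mul_of_nonneg_left _ (by positivity)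
    have hb1' : (1 : ℤ) ≤ b := by exact_mod_cast hb1
    have hq1' : (1 : ℤ) ≤ q := by exact_mod_cast hq0
    have h7 : (b : ℤ) * (canDeg k L + 2 * h0 * m) ≤ (q * b) * (canDeg k L + 2 * h0 * m) := by
      apply mul_le_mul_of_nonneg_right _ hcan2
      nlinarith
    have h8 : (q : ℤ) * M ≤ (q * b) * M := by
      apply mul_le_mul_of_nonneg_right _ hM0
      nlinarith
    have h9 : (q * b) * (canDeg k L + M) + (2 * q * b * h0 + C1) * m =
        (q * b) * M + (q * b) * (canDeg k L + 2 * h0 * m) + C1 * m := by ring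
    rw [h9]
    linarith
  have h7 : (0 : ℤ) ≤ B0 := by positivity
  have h8 : (B0 : ℤ) * Y ≤ B0 * (K0 * ((q * b) * (canDeg k L + M) + (2 * q * b * h0 + C1) * m)) :=
    mul_le_mul_of_nonneg_left h6 h7
  push_cast
  have h9 : ((N : ℤ) + 1) * (B0 * Y + B0 * (m * HE)) ≤ ((N : ℤ) + 1) *
      (B0 * (K0 * ((q * b) * (canDeg k L + M) + (2 * q * b * h0 + C1) * m)) + B0 * (m * HE)) :=
    mul_le_mul_of_nonneg_left (by linarith) (by positivity)
  refine h9.trans (le_of_eq ?_)
  ring

omit [IsAlgClosed k] [CharZero k] [IsFF k F] in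
theorem aeval_img {L : Type w} [Field L] [Algebra k L] [Algebra F L] [IsScalarTower k F L]
    (φ : Fin (n + 1) → MvPolynomial (Fin (N + 1)) F) (x : Fin (N + 1) → L)
    (Δ : MvPolynomial (Fin (n + 1)) k) :
    aeval (img φ x) Δ = aeval x (aeval φ Δ) := by
  have h : (((aeval x : MvPolynomial (Fin (N + 1)) F →ₐ[F] L).restrictScalars k).comp
      (aeval φ : MvPolynomial (Fin (n + 1)) k →ₐ[k] MvPolynomial (Fin (N + 1)) F)) =
      (aeval (img φ x) : MvPolynomial (Fin (n + 1)) k →ₐ[k] L) := by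
    apply MvPolynomial.algHom_ext
    intro j
    simp [img]
  exact (DFunLike.congr_fun h Δ).symm

omit [IsAlgClosed k] [CharZero k] [IsFF k F] in
theorem aeval_forms_hom {φ : Fin (n + 1) → MvPolynomial (Fin (N + 1)) F} {δ : ℕ}
    (hφ : ∀ j, (φ j).IsHomogeneous δ) {Δ : MvPolynomial (Fin (n + 1)) k} {m : ℕ}
    (hΔ : Δ.IsHomogeneous m) : (aeval φ Δ).IsHomogeneous (m * δ) := by
  rw [aeval_def, eval₂_eq']
  refine IsHomogeneous.sum _ _ _ fun d hd => ?_
  have h1 := hΔ (mem_support_iff.1 hd)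
  have h2 := IsHomogeneous.prod Finset.univ (fun j => φ j ^ d j) (fun j => d j * δ) fun j _ => by
    rw [mul_comm]
    exact (hφ j).pow (d j)
  have h3 : ∑ j, d j * δ = m * δ := by
    rw [← Finset.sum_mul, ← h1, Finsupp.weight_apply, Finsupp.sum_fintype]
    · simp
    · simp
  rw [h3] at h2
  have h4 := (isHomogeneous_C (Fin (N + 1)) (algebraMap k F (coeff d Δ))).mul h2
  rw [zero_add] at h4
  exact h4

/-- Vojta's height inequality from an inequality for the image points outside a hypersurface. -/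
theorem vojta_out {q : ℕ} {ℓ : Fin q → Fin (n + 1) → k}
    {w : Fin q → ℝ} {b : ℕ} (hb1 : 1 ≤ b)
    (hq : 2 * (b : ℝ) < ∑ i, w i)
    {p : Ideal (MvPolynomial (Fin (N + 1)) F)} [p.IsPrime]
    {Q : MvPolynomial (Fin (N + 1)) F} {e : ℕ}
    {φ : Fin (n + 1) → MvPolynomial (Fin (N + 1)) F} (hA : Admissible p Q e φ ℓ)
    {Δ : MvPolynomial (Fin (n + 1)) k} {m : ℕ} (hΔ : Δ.IsHomogeneous m) (hΔp : aeval φ Δ ∉ p)
    (hR : ImageBoundOut.{u, v, w} p Q e φ ℓ w b Δ) : Vojta.{u, v, w} k p Q e := by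
  obtain ⟨hp, hx, hQ, hQp, ⟨δ, hφ⟩, hℓp, hgen⟩ := hA
  obtain ⟨g, hg, B, C, h⟩ := affine_out hb1 hq hx hR hgen
  obtain ⟨l, hl⟩ := hx
  obtain ⟨r, hr⟩ := exists_component hp hg
  refine ⟨r + e + 1 + q * δ + m * δ,
    homogeneousComponent r g * Q * X l * (∏ i, lform φ (ℓ i)) * aeval φ Δ, ?_, ?_,
    (((Dvd.intro_left _ rfl).mul_right _).mul_right _).mul_right _, B, C, ?_⟩
  · refine ((((homogeneousComponent_isHomogeneous r g).mul hQ).mul (isHomogeneous_X _ _)).mul
      ?_).mul (aeval_forms_hom hφ hΔ)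
    have h1 := IsHomogeneous.prod Finset.univ (fun i => lform φ (ℓ i)) (fun _ => δ)
      fun i _ => lform_hom hφ (ℓ i)
    simpa using h1
  · intro h
    rcases Ideal.IsPrime.mem_or_mem inferInstance h with h | h
    · rcases Ideal.IsPrime.mem_or_mem inferInstance h with h | h
      · rcases Ideal.IsPrime.mem_or_mem inferInstance h with h | h
        · rcases Ideal.IsPrime.mem_or_mem inferInstance h with h | h
          · exact hr h
          · exact hQp h
        · exact hl h
      · obtain ⟨i, _, hi⟩ := (Ideal.IsPrime.prod_mem_iff (hp := inferInstance)).1 h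
        exact hℓp i hi
    · exact hΔp h
  · intro L _ _ _ _ _ x hxp hxG
    rw [map_mul, map_mul, map_mul, map_mul, aeval_X, map_prod] at hxG
    have hxΔ := right_ne_zero_of_mul hxG
    have hxG := left_ne_zero_of_mul hxG
    have hxℓ : ∀ i, aeval x (lform φ (ℓ i)) ≠ 0 := fun i =>
      Finset.prod_ne_zero_iff.1 (right_ne_zero_of_mul hxG) i (Finset.mem_univ i)
    have hxG' := left_ne_zero_of_mul hxG
    have hxl : x l ≠ 0 := right_ne_zero_of_mul hxG'
    have hxQ : aeval x Q ≠ 0 := right_ne_zero_of_mul (left_ne_zero_of_mul hxG')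
    have hxg := left_ne_zero_of_mul (left_ne_zero_of_mul hxG')
    have hL : IsFF k L := isFF_of_finite (F := F)
    have hinf : Infinite L := by
      have : CharZero L := charZero_of_injective_algebraMap (algebraMap k L).injective
      infer_instance
    obtain ⟨c, hc, hcG⟩ := exists_scale g x r hxg
    have h1 := h L (fun j => c * x j) ⟨fun h0 => ?_, fun H hH => ?_⟩ ?_ (fun i => ?_) ?_ hcG
    · rwa [pht_scale ⟨l, hxl⟩ hc, meets_scale hQ ⟨l, hxl⟩ hxQ hc] at h1
    · exact mul_ne_zero hc hxl (congrFun h0 l)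
    · rw [aeval_scale_sum]
      refine Finset.sum_eq_zero fun e' _ => ?_
      rw [hxp _ (hp H hH e'), mul_zero]
    · rw [aeval_scale hQ]
      exact mul_ne_zero (pow_ne_zero _ hc) hxQ
    · rw [aeval_scale (lform_hom hφ (ℓ i))]
      exact mul_ne_zero (pow_ne_zero _ hc) (hxℓ i)
    · rw [aeval_img, aeval_scale (aeval_forms_hom hφ hΔ)]
      exact mul_ne_zero (pow_ne_zero _ hc) hxΔ

end Pool.Agent.Y216
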