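import Pool.Agent.Y216.VfA
import Pool.Agent.Y216.VfB

/-!
Varieties over a function field with a generically finite map to the space of binary forms, ramified
over the forms which vanish at given points: Vojta's height inequality.
-/

set_option autoImplicit false

namespace Pool.Agent.Y216

open FF MvPolynomial Pool.Agent.W603.LV Pool.Agent.W603.PV Pool.Agent.W601.VF

variable {k : Type} [Field k] {F : Type} [Field F] [Algebra k F] {N n q : ℕ}

theorem aeval_lform_lv {L : Type} [Field L] [Algebra k L] [Algebra F L] [IsScalarTower k F L]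
    (φ : Fin (n + 1) → MvPolynomial (Fin (N + 1)) F) (a : Fin (n + 1) → k)
    (x : Fin (N + 1) → L) : aeval x (lform φ a) = lv a (img φ x) := by
  unfold lform lv img
  rw [map_sum]
  refine Finset.sum_congr rfl fun j _ => ?_
  rw [map_mul, aeval_C, ← IsScalarTower.algebraMap_apply]

variable [IsAlgClosed k] [CharZero k] [IsFF k F]

/-- The height inequality for the image point. -/
theorem rnc_image {u v : Fin q → k} (huv : ∀ i j, i ≠ j → u i * v j ≠ u j * v i)
    {w : Fin q → ℝ} (hw : ∀ i, w i ≤ 1) (hq : 2 * (n : ℝ) < ∑ i, w i)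
    {p : Ideal (MvPolynomial (Fin (N + 1)) F)} {Q : MvPolynomial (Fin (N + 1)) F} {e : ℕ}
    {φ : Fin (n + 1) → MvPolynomial (Fin (N + 1)) F} {S : Finset (Place k F)}
    (hR : Ramified.{0, 0, 0} p Q e φ (rnc n u v) w S) :
    ∃ C : ℕ, ∀ (L : Type) [Field L] [Algebra k L] [Algebra F L] [IsScalarTower k F L]
      [FiniteDimensional F L] (x : Fin (N + 1) → L), IsPt p x → aeval x Q ≠ 0 →
      (∀ i, aeval x (lform φ (rnc n u v i)) ≠ 0) → img φ x (Fin.last n) ≠ 0 →
      Squarefree (pol (img φ x)) →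
      (∑ i, w i - 2 * (n : ℝ)) * (pht k (img φ x) : ℝ) ≤
        ∑ i, ((meets (k := k) Q e x ∩ {P | 0 < cont P φ (rnc n u v i) x}).ncard : ℝ) +
          (n : ℝ) * (canDeg k L : ℝ) + C * (Module.finrank F L : ℝ) := by
  classical
  obtain ⟨C2, hC2⟩ := over_card.{0, 0, 0} (k := k) S
  obtain ⟨t, ht⟩ := IsFF.exists_transcendental (k := k) (K := F)
  refine ⟨q * C2 + 2 * n * (hgt k t).toNat, ?_⟩
  intro L _ _ _ _ _ x hx hxQ hxℓ hlast hsq
  have hL : IsFF k L := isFF_of_finite (F := F)
  obtain ⟨hSfin, hScard⟩ := hC2 L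
  obtain ⟨f, hf⟩ : ∃ f, f = img φ x := ⟨_, rfl⟩
  rw [← hf] at hlast hsq ⊢
  have hne : ∀ i, lv (rnc n u v i) f ≠ 0 := fun i => by
    rw [hf, ← aeval_lform_lv]
    exact hxℓ i
  have hx0 : ∃ j, x j ≠ 0 := by
    by_contra hcon
    push Not at hcon
    exact hx.1 (funext hcon)
  -- lower bound for the canonical degree
  have hcan := canDeg_ge (k := k) (K := L) (t := algebraMap F L t)
    ((transcendental_algebraMap_iff (algebraMap F L).injective).2 ht)
  rw [hgt_algebraMap t] at hcan
  have ht0 : 0 ≤ hgt k t := hgt_nonneg _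
  have htn : ((hgt k t).toNat : ℤ) = hgt k t := Int.toNat_of_nonneg ht0
  have hcan' : 0 ≤ (canDeg k L : ℝ) + 2 * ((hgt k t).toNat : ℝ) * (Module.finrank F L : ℝ) := by
    rw [← htn] at hcan
    have : ((-2 * ((Module.finrank F L : ℤ) * ((hgt k t).toNat : ℤ)) : ℤ) : ℝ) ≤
      (canDeg k L : ℝ) := by exact_mod_cast hcan
    push_cast at this
    linarith
  have hMfin : (meets (k := k) Q e x).Finite := meets_finite Q e hx0
  obtain ⟨B, hB⟩ : ∃ B : Finset (Place k L), B = hMfin.toFinset ∪ hSfin.toFinset := ⟨_, rfl⟩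
  have hcnt : ∀ (P : Place k L) i, pord P f < P.ord (lv (rnc n u v i) f) ↔
      0 < cont P φ (rnc n u v i) x := by
    intro P i
    unfold cont
    rw [aeval_lform_lv, sub_pos, hf]
  have h1 := rnc_trunc huv hw (c := 2 * ((hgt k t).toNat : ℝ) * (Module.finrank F L : ℝ))
    (by positivity) hcan' B hq hlast hsq hne (by
      intro P hP
      rw [hB, Finset.mem_union, not_or, Set.Finite.mem_toFinset, Set.Finite.mem_toFinset] at hP
      have h2 := hR L x hx hxQ hxℓ P (fun v hv h => hP.2 ⟨v, hv, h⟩) hP.1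
      have h3 : (Finset.univ.filter fun i => pord P f < P.ord (lv (rnc n u v i) f)) =
          Finset.univ.filter fun i => 0 < cont P φ (rnc n u v i) x := by
        ext i
        simp only [Finset.mem_filter, Finset.mem_univ, true_and]
        exact hcnt P i
      rw [h3]
      refine h2.trans (le_of_eq ?_)
      refine Finset.sum_congr rfl fun i _ => ?_
      unfold cont
      rw [aeval_lform_lv, ← hf])
  -- the sum over the bad places
  have h2 : ∑ P ∈ B, ((Finset.univ.filter fun i =>
        pord P f < P.ord (lv (rnc n u v i) f)).card : ℝ) ≤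
      ∑ P ∈ hMfin.toFinset,
        ((Finset.univ.filter fun i => pord P f < P.ord (lv (rnc n u v i) f)).card : ℝ) +
      ∑ P ∈ hSfin.toFinset,
        ((Finset.univ.filter fun i => pord P f < P.ord (lv (rnc n u v i) f)).card : ℝ) := by
    rw [hB, ← Finset.sum_union_inter]
    exact le_add_of_nonneg_right (Finset.sum_nonneg fun _ _ => by positivity)
  have h3 : ∑ P ∈ hSfin.toFinset,
      ((Finset.univ.filter fun i => pord P f < P.ord (lv (rnc n u v i) f)).card : ℝ) ≤
      q * C2 * (Module.finrank F L : ℝ) := by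
    have h4 : ∀ P ∈ hSfin.toFinset,
        ((Finset.univ.filter fun i => pord P f < P.ord (lv (rnc n u v i) f)).card : ℝ) ≤ q := by
      intro P _
      have := Finset.card_filter_le (Finset.univ : Finset (Fin q))
        fun i => pord P f < P.ord (lv (rnc n u v i) f)
      rw [Finset.card_univ, Fintype.card_fin] at this
      exact_mod_cast this
    refine (Finset.sum_le_sum h4).trans ?_
    rw [Finset.sum_const, nsmul_eq_mul, ← Set.ncard_eq_toFinset_card _ hSfin]
    have h5 : (({P : Place k L | ∃ v ∈ S, Over P v}.ncard : ℕ) : ℝ) ≤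
        C2 * (Module.finrank F L : ℝ) := by exact_mod_cast hScard
    have h6 := mul_le_mul_of_nonneg_right h5 (by positivity : (0 : ℝ) ≤ q)
    linarith
  have h4 : ∑ P ∈ hMfin.toFinset,
      ((Finset.univ.filter fun i => pord P f < P.ord (lv (rnc n u v i) f)).card : ℝ) =
      ∑ i, ((meets (k := k) Q e x ∩ {P | 0 < cont P φ (rnc n u v i) x}).ncard : ℝ) := by
    have h5 : ∀ P : Place k L,
        ((Finset.univ.filter fun i => pord P f < P.ord (lv (rnc n u v i) f)).card : ℝ) =
          ∑ i, if pord P f < P.ord (lv (rnc n u v i) f) then (1 : ℝ) else 0 := by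
      intro P
      rw [Finset.card_filter]
      push_cast
      rfl
    rw [Finset.sum_congr rfl fun P _ => h5 P, Finset.sum_comm]
    refine Finset.sum_congr rfl fun i _ => ?_
    rw [← Finset.sum_filter, Finset.sum_const, nsmul_eq_mul, mul_one]
    have hfin : (meets (k := k) Q e x ∩ {P | 0 < cont P φ (rnc n u v i) x}).Finite :=
      hMfin.inter_of_left _
    rw [Set.ncard_eq_toFinset_card _ hfin]
    congr 2
    ext P
    simp only [Finset.mem_filter, Set.Finite.mem_toFinset, Set.mem_inter_iff, Set.mem_ofPred_eq]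
    rw [hcnt]
  push_cast
  rw [h4] at h2
  linarith

/-- **Main theorem.** -/
theorem vojta_rnc (hn : 1 ≤ n) {u v : Fin q → k} (huv : ∀ i j, i ≠ j → u i * v j ≠ u j * v i)
    {w : Fin q → ℝ} (hw : ∀ i, w i ≤ 1) (hq : 2 * (n : ℝ) < ∑ i, w i)
    {p : Ideal (MvPolynomial (Fin (N + 1)) F)} {Q : MvPolynomial (Fin (N + 1)) F} {e : ℕ}
    {φ : Fin (n + 1) → MvPolynomial (Fin (N + 1)) F} {S : Finset (Place k F)}
    (hR : Ramified.{0, 0, 0} p Q e φ (rnc n u v) w S) [p.IsPrime]
    (hA : Admissible p Q e φ (rnc n u v)) (hlast : φ (Fin.last n) ∉ p)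
    (hdisc : aeval φ (discForm k n) ∉ p) : Vojta.{0, 0, 0} k p Q e := by
  refine vojta_out (b := n) (Δ := X (Fin.last n) * discForm k n) (m := 1 + (n + (n - 1))) hn hq hA
    ((isHomogeneous_X _ _).mul discForm_homogeneous) ?_ ?_
  · rw [map_mul, aeval_X]
    intro h
    rcases Ideal.IsPrime.mem_or_mem inferInstance h with h | h
    · exact hlast h
    · exact hdisc h
  · obtain ⟨C, hC⟩ := rnc_image huv hw hq hR
    refine ⟨C, fun L _ _ _ _ _ x hx hxQ hxℓ hΔ => ?_⟩
    rw [map_mul, aeval_X] at hΔ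
    have h1 := left_ne_zero_of_mul hΔ
    exact hC L x hx hxQ hxℓ h1 (squarefree_of_disc hn h1 (right_ne_zero_of_mul hΔ))

end Pool.Agent.Y216
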